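import Mathlib

set_option autoImplicit false

/-!
# JT: cancellation in algebras with a positive trace
-/

universe u

namespace Pool.Agent.H28.JT

theorem finite_cancel {Q : Type u} [Ring Q] [StarRing Q] [Algebra ℂ Q] (t : Q →ₗ[ℂ] ℂ)
    (ht1 : t 1 = 1) (htc : ∀ a b, t (a * b) = t (b * a))
    (htp : ∀ a, ∃ r : ℝ, 0 ≤ r ∧ t (star a * a) = r) (c : Q)
    (H : ∀ k : ℕ, (1 - c * star c) * (star c) ^ k * (1 - star c * c) = 0) :
    (t (1 - c * star c)).re ≤ 0 := by
  have h1 : ∀ k : ℕ, t ((1 - c * star c) * ((star c) ^ k * c ^ k)) = t (1 - c * star c) := by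
    intro k
    induction k with
    | zero => rw [pow_zero, pow_zero, one_mul, mul_one]
    | succ k ih =>
      have e1 : (1 - c * star c) * ((star c) ^ (k + 1) * c ^ (k + 1)) =
          (1 - c * star c) * ((star c) ^ k * c ^ k) -
            (1 - c * star c) * (star c) ^ k * (1 - star c * c) * c ^ k := by
        rw [pow_succ, pow_succ' c]
        noncomm_ring
      rw [e1, H, zero_mul, sub_zero, ih]
  have h2 : ∀ k : ℕ, t (c ^ k * (1 - c * star c) * (star c) ^ k) = t (1 - c * star c) := by
    intro k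
    rw [mul_assoc, htc, mul_assoc, h1]
  have h3 : ∀ n : ℕ, (n : ℂ) * t (1 - c * star c) = 1 - t (c ^ n * (star c) ^ n) := by
    intro n
    induction n with
    | zero => rw [pow_zero, pow_zero, mul_one, ht1, Nat.cast_zero, zero_mul, sub_self]
    | succ n ih =>
      have e1 : c ^ n * (1 - c * star c) * (star c) ^ n =
          c ^ n * (star c) ^ n - c ^ (n + 1) * (star c) ^ (n + 1) := by
        rw [pow_succ, pow_succ' (star c)]
        noncomm_ring
      have e2 := h2 n
      rw [e1, map_sub] at e2
      push_cast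
      rw [add_mul, one_mul, ih, ← e2]
      ring
  have h4 : ∀ n : ℕ, (n : ℝ) * (t (1 - c * star c)).re ≤ 1 := by
    intro n
    obtain ⟨r, hr, hr'⟩ := htp ((star c) ^ n)
    rw [star_pow, star_star] at hr'
    have e1 := congrArg Complex.re (h3 n)
    rw [hr', ← Complex.ofReal_natCast, Complex.re_ofReal_mul, Complex.sub_re, Complex.one_re,
      Complex.ofReal_re] at e1
    rw [e1]
    linarith
  by_contra hcon
  push Not at hcon
  obtain ⟨n, hn⟩ := exists_nat_gt (1 / (t (1 - c * star c)).re)
  have h5 := h4 n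
  rw [div_lt_iff₀ hcon] at hn
  linarith

end Pool.Agent.H28.JT
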