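import Pool.Agent.H80.VNGamma

set_option autoImplicit false

/-!
# JT: perturbation of contractions
-/

universe u

open Filter Topology H80VN
open scoped ComplexOrder

attribute [local instance] CStarAlgebra.spectralOrder CStarAlgebra.spectralOrderedRing

namespace Pool.Agent.H28.JT

variable {N : Type u} [CStarAlgebra N]

theorem ssm_le_one {b : N} (hb : ‖b‖ ≤ 1) : star b * b ≤ 1 := by
  rw [← CStarAlgebra.norm_le_one_iff_of_nonneg (star b * b) (star_mul_self_nonneg b),
    CStarRing.norm_star_mul_self]
  exact mul_le_one₀ hb (norm_nonneg _) hb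

theorem norm_le_one_of_ssm {b : N} (hb : star b * b ≤ 1) : ‖b‖ ≤ 1 := by
  rw [← CStarAlgebra.norm_le_one_iff_of_nonneg (star b * b) (star_mul_self_nonneg b),
    CStarRing.norm_star_mul_self] at hb
  nlinarith [norm_nonneg b]

theorem norm_perturb {b c : N} (hb : ‖b‖ ≤ 1) (hc : ‖c‖ ≤ 1) :
    ‖b + (1 / 4 : ℂ) • ((1 - b * star b) * c * (1 - star b * b))‖ ≤ 1 := by
  set D : N := 1 - star b * b with hD
  set E : N := 1 - b * star b with hE
  have hDs : star D = D := by rw [hD, star_sub, star_one, star_mul, star_star]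
  have hEs : star E = E := by rw [hE, star_sub, star_one, star_mul, star_star]
  have hD0 : 0 ≤ D := sub_nonneg.2 (ssm_le_one hb)
  have hE0 : 0 ≤ E := by
    have h1 := ssm_le_one (b := star b) (by rwa [norm_star])
    rw [star_star] at h1
    exact sub_nonneg.2 h1
  have hbE : star b * E = D * star b := by
    rw [hE, hD, mul_sub, sub_mul, mul_one, one_mul, mul_assoc]
  have hEb : E * b = b * D := by
    rw [hE, hD, mul_sub, sub_mul, mul_one, one_mul, mul_assoc]
  have hDD : D * D ≤ D := by
    rw [← sub_nonneg]
    have h1 : D - D * D = star b * E * b := by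
      rw [hbE, mul_assoc, hD]
      noncomm_ring
    rw [h1]
    exact star_left_conjugate_nonneg hE0 b
  have hEE : E * E ≤ 1 := by
    have h1 : 1 - E * E = b * star b + b * D * star b := by
      rw [← hEb, mul_assoc, hE]
      noncomm_ring
    rw [← sub_nonneg, h1]
    exact add_nonneg (mul_star_self_nonneg b) (star_right_conjugate_nonneg hD0 b)
  have hcc := ssm_le_one hc
  have hbb := ssm_le_one hb
  have h1 : star b * c + star c * b ≤ 1 + 1 := by
    have h2 : 0 ≤ star (b - c) * (b - c) := star_mul_self_nonneg _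
    have h3 : star (b - c) * (b - c) = star b * b + star c * c - (star b * c + star c * b) := by
      rw [star_sub]; noncomm_ring
    rw [h3] at h2
    exact (sub_nonneg.1 h2).trans (add_le_add hbb hcc)
  have h2 : D * (star b * c + star c * b) * D ≤ D * D + D * D := by
    have h3 := star_left_conjugate_le_conjugate h1 D
    rw [hDs] at h3
    refine h3.trans (le_of_eq ?_)
    noncomm_ring
  have h3 : D * (star c * (E * E) * c) * D ≤ D * D := by
    have h4 : star c * (E * E) * c ≤ 1 := by
      refine (star_left_conjugate_le_conjugate hEE c).trans ?_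
      rw [mul_one]
      exact hcc
    have h5 := star_left_conjugate_le_conjugate h4 D
    rw [hDs, mul_one] at h5
    exact h5
  have hT : star (b + (1 / 4 : ℂ) • (E * c * D)) * (b + (1 / 4 : ℂ) • (E * c * D)) =
      star b * b + (1 / 4 : ℝ) • (D * (star b * c + star c * b) * D) +
        (1 / 16 : ℝ) • (D * (star c * (E * E) * c) * D) := by
    have e1 : (1 / 4 : ℂ) • (E * c * D) = (1 / 4 : ℝ) • (E * c * D) := by
      rw [← Complex.coe_smul]
      norm_num
    rw [e1, star_add, star_smul, star_trivial (1 / 4 : ℝ), star_mul, star_mul, hDs, hEs]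
    have e2 : star b * (E * c * D) = D * (star b * c) * D := by
      calc star b * (E * c * D) = (star b * E) * c * D := by simp only [mul_assoc]
        _ = D * (star b * c) * D := by rw [hbE]; simp only [mul_assoc]
    have e3 : D * (star c * E) * b = D * (star c * b) * D := by
      calc D * (star c * E) * b = D * star c * (E * b) := by simp only [mul_assoc]
        _ = D * (star c * b) * D := by rw [hEb]; simp only [mul_assoc]
    have e4 : D * (star c * E) * (E * c * D) = D * (star c * (E * E) * c) * D := by
      simp only [mul_assoc]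
    rw [add_mul, mul_add, mul_add, mul_smul_comm, smul_mul_assoc, smul_mul_assoc, mul_smul_comm,
      smul_smul, e2, e3, e4, mul_add, add_mul, smul_add]
    norm_num
    abel
  apply norm_le_one_of_ssm
  rw [hT]
  have h4 : (1 / 4 : ℝ) • (D * (star b * c + star c * b) * D) ≤ (1 / 4 : ℝ) • (D * D + D * D) :=
    smul_le_smul_of_nonneg_left h2 (by norm_num)
  have h5 : (1 / 16 : ℝ) • (D * (star c * (E * E) * c) * D) ≤ (1 / 16 : ℝ) • (D * D) :=
    smul_le_smul_of_nonneg_left h3 (by norm_num)
  have h6 : (1 / 4 : ℝ) • (D * D + D * D) + (1 / 16 : ℝ) • (D * D) = (9 / 16 : ℝ) • (D * D) := by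
    rw [smul_add, ← add_smul, ← add_smul]
    norm_num
  have hDD0 : 0 ≤ D * D := by
    have := star_mul_self_nonneg D
    rwa [hDs] at this
  have h7 : (9 / 16 : ℝ) • (D * D) ≤ D * D := by
    have : (9 / 16 : ℝ) • (D * D) ≤ (1 : ℝ) • (D * D) :=
      smul_le_smul_of_nonneg_right (by norm_num) hDD0
    rwa [one_smul] at this
  calc star b * b + (1 / 4 : ℝ) • (D * (star b * c + star c * b) * D) +
        (1 / 16 : ℝ) • (D * (star c * (E * E) * c) * D)
      ≤ star b * b + (1 / 4 : ℝ) • (D * D + D * D) + (1 / 16 : ℝ) • (D * D) := by gcongr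
    _ = star b * b + (9 / 16 : ℝ) • (D * D) := by rw [add_assoc, h6]
    _ ≤ star b * b + D := by
        gcongr
        exact h7.trans hDD
    _ = 1 := by rw [hD]; abel

theorem norm_one_sub_ssm {b : N} (hb : ‖b‖ ≤ 1) : ‖1 - star b * b‖ ≤ 1 := by
  rw [CStarAlgebra.norm_le_one_iff_of_nonneg _ (sub_nonneg.2 (ssm_le_one hb)), sub_le_self_iff]
  exact star_mul_self_nonneg b

end Pool.Agent.H28.JT
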