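import Pool.Agent.H28.JT.Tra
import Pool.Agent.H28.JT.Pert
import Pool.Agent.H28.JT.Alg

set_option autoImplicit false

/-!
# JT: the Jung property passes to separable tensor factors
-/

universe u

open Filter Topology H80VN Pool.Agent.H68.Amp Pool.Agent.H28.JP

namespace Pool.Agent.H28.JT

section trace

variable {N : Type u} [CStarAlgebra N] {ρ : N →ₗ[ℂ] ℂ}

/-- The trace of the ultrapower is faithful. -/
theorem utr_faithful (hN : Stmt.IsTracialVN ρ) (ω : Filter ℕ) [ω.NeBot] (t : UPow hN ω →ₗ[ℂ] ℂ)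
    (ht : ∀ x : LInf N, Tendsto (fun k => ρ (x.seq k)) ω (𝓝 (t (UPow.mk hN ω x))))
    (a : UPow hN ω) (ha : (t (star a * a)).re = 0) : a = 0 := by
  let _ : TracialVN N := toTracialVN hN
  obtain ⟨s, rfl⟩ := UPow.mk_surjective hN ω a
  rw [UPow.star_mk, ← map_mul] at ha
  have e1 := (Complex.continuous_re.tendsto _).comp (ht (star s * s))
  rw [ha] at e1
  have e2 : Tendsto (fun k => n2 (s.seq k) ^ 2) ω (𝓝 0) := e1.congr fun k => (n2_sq (s.seq k)).symm
  have e3 : Tendsto (fun k => n2 (s.seq k)) ω (𝓝 0) := by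
    have e4 := e2.sqrt
    rw [Real.sqrt_zero] at e4
    exact e4.congr fun k => Real.sqrt_sq (n2_nonneg _)
  rw [← map_zero (UPow.mk hN ω), UPow.mk_eq]
  refine e3.congr fun k => ?_
  show n2 (s.seq k) = n2 (s.seq k - 0)
  rw [sub_zero]

/-- The 2-norm of a class is the limit of the 2-norms. -/
theorem tendsto_n2_sq (hN : Stmt.IsTracialVN ρ) (ω : Filter ℕ) (t : UPow hN ω →ₗ[ℂ] ℂ)
    (ht : ∀ x : LInf N, Tendsto (fun k => ρ (x.seq k)) ω (𝓝 (t (UPow.mk hN ω x)))) (s : LInf N) :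
    Tendsto (fun k => Stmt.norm2 ρ (s.seq k) ^ 2) ω
      (𝓝 (t (star (UPow.mk hN ω s) * UPow.mk hN ω s)).re) := by
  let _ : TracialVN N := toTracialVN hN
  rw [UPow.star_mk, ← map_mul]
  have e1 := (Complex.continuous_re.tendsto _).comp (ht (star s * s))
  exact e1.congr fun k => (n2_sq (s.seq k)).symm

end trace

section max

variable {A N : Type u} [CStarAlgebra A] [CStarAlgebra N] {α : A →ₗ[ℂ] ℂ} {ρ : N →ₗ[ℂ] ℂ}

/-- An intertwining contraction of maximal 2-norm. -/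
theorem exists_max (hN : Stmt.IsTracialVN ρ) (hsep : Stmt.Separable α) (ω : Ultrafilter ℕ)
    (hω : (ω : Filter ℕ) ≤ atTop) (π ψ : A →⋆ₐ[ℂ] UPow hN (ω : Filter ℕ))
    (hπ : Pres hN (ω : Filter ℕ) α π) (hψ : Pres hN (ω : Filter ℕ) α ψ)
    (t : UPow hN (ω : Filter ℕ) →ₗ[ℂ] ℂ)
    (ht : ∀ x : LInf N, Tendsto (fun k => ρ (x.seq k)) (ω : Filter ℕ)
      (𝓝 (t (UPow.mk hN (ω : Filter ℕ) x)))) :
    ∃ b : LInf N, (∀ k, ‖b.seq k‖ ≤ 1) ∧
      (∀ x, π x * UPow.mk hN (ω : Filter ℕ) b = UPow.mk hN (ω : Filter ℕ) b * ψ x) ∧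
      ∀ c : LInf N, (∀ k, ‖c.seq k‖ ≤ 1) → (∀ x, π x * UPow.mk hN (ω : Filter ℕ) c =
        UPow.mk hN (ω : Filter ℕ) c * ψ x) →
        (t (star (UPow.mk hN (ω : Filter ℕ) c) * UPow.mk hN (ω : Filter ℕ) c)).re ≤
          (t (star (UPow.mk hN (ω : Filter ℕ) b) * UPow.mk hN (ω : Filter ℕ) b)).re := by
  classical
  let _ : TracialVN N := toTracialVN hN
  choose p hp using fun x => UPow.mk_surjective hN (ω : Filter ℕ) (π x)
  choose q hq using fun x => UPow.mk_surjective hN (ω : Filter ℕ) (ψ x)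
  set S : Set ℝ := {r | ∃ b : LInf N, (∀ k, ‖b.seq k‖ ≤ 1) ∧
    (∀ x, π x * UPow.mk hN (ω : Filter ℕ) b = UPow.mk hN (ω : Filter ℕ) b * ψ x) ∧
    r = (t (star (UPow.mk hN (ω : Filter ℕ) b) * UPow.mk hN (ω : Filter ℕ) b)).re} with hS
  have hSne : S.Nonempty := by
    refine ⟨_, 0, fun k => ?_, fun x => ?_, rfl⟩
    · show ‖(0 : N)‖ ≤ 1
      rw [norm_zero]
      exact zero_le_one
    · rw [map_zero, mul_zero, zero_mul]
  have hSbd : BddAbove S := by
    refine ⟨1, ?_⟩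
    rintro r ⟨b, hb, -, rfl⟩
    have h1 := tendsto_n2_sq hN (ω : Filter ℕ) t ht b
    refine le_of_tendsto h1 (Eventually.of_forall fun k => ?_)
    have h2 : n2 (b.seq k) ≤ 1 := (n2_le_norm _).trans (hb k)
    exact pow_le_one₀ (n2_nonneg _) h2
  obtain ⟨v, hv1, hv2, hv3⟩ := saturate hN hsep (ω : Filter ℕ) hω π ψ hπ hψ p q hp hq zero_le_one
    (fun _ v => Stmt.norm2 ρ v ^ 2) (sSup S) (by
      intro F ε hε
      obtain ⟨r, ⟨b, hb, hbi, rfl⟩, hr⟩ := exists_lt_of_lt_csSup hSne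
        (show sSup S - ε < sSup S by linarith)
      have h1 := tendsto_n2_sq hN (ω : Filter ℕ) t ht b
      have h2 : ∀ᶠ k in (ω : Filter ℕ), sSup S - ε < Stmt.norm2 ρ (b.seq k) ^ 2 :=
        h1.eventually (lt_mem_nhds hr)
      have h3 : ∀ᶠ k in (ω : Filter ℕ), ∀ x ∈ F,
          Stmt.norm2 ρ ((p x).seq k * b.seq k - b.seq k * (q x).seq k) ≤ ε := by
        rw [Filter.eventually_all_finset]
        intro x _
        have e1 := hbi x
        rw [← hp x, ← hq x, ← map_mul, ← map_mul, UPow.mk_eq] at e1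
        have e2 : Tendsto (fun k => n2 ((p x).seq k * b.seq k - b.seq k * (q x).seq k))
          (ω : Filter ℕ) (𝓝 0) := e1
        exact e2.eventually (Iic_mem_nhds hε)
      filter_upwards [h2, h3] with k hk2 hk3
      exact ⟨b.seq k, hb k, hk3, hk2.le⟩)
  refine ⟨v, hv1, hv2, fun c hc hci => ?_⟩
  have h1 : (t (star (UPow.mk hN (ω : Filter ℕ) c) * UPow.mk hN (ω : Filter ℕ) c)).re ≤ sSup S :=
    le_csSup hSbd ⟨c, hc, hci, rfl⟩
  refine h1.trans ?_
  refine le_of_forall_sub_le fun ε hε => ?_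
  exact ge_of_tendsto (tendsto_n2_sq hN (ω : Filter ℕ) t ht v) (hv3 ε hε)

/-- Maximality. -/
theorem max_zero (hN : Stmt.IsTracialVN ρ) (ω : Ultrafilter ℕ)
    (π ψ : A →⋆ₐ[ℂ] UPow hN (ω : Filter ℕ)) (t : UPow hN (ω : Filter ℕ) →ₗ[ℂ] ℂ)
    (ht : ∀ x : LInf N, Tendsto (fun k => ρ (x.seq k)) (ω : Filter ℕ)
      (𝓝 (t (UPow.mk hN (ω : Filter ℕ) x))))
    (htp : ∀ a, ∃ r : ℝ, 0 ≤ r ∧ t (star a * a) = r)
    (b : LInf N) (hb : ∀ k, ‖b.seq k‖ ≤ 1)
    (hbi : ∀ x, π x * UPow.mk hN (ω : Filter ℕ) b =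
        UPow.mk hN (ω : Filter ℕ) b * ψ x)
    (hmax : ∀ c : LInf N, (∀ k, ‖c.seq k‖ ≤ 1) → (∀ x, π x * UPow.mk hN (ω : Filter ℕ) c =
        UPow.mk hN (ω : Filter ℕ) c * ψ x) →
        (t (star (UPow.mk hN (ω : Filter ℕ) c) * UPow.mk hN (ω : Filter ℕ) c)).re ≤
          (t (star (UPow.mk hN (ω : Filter ℕ) b) * UPow.mk hN (ω : Filter ℕ) b)).re)
    (v : LInf N) {R : ℝ} (hR : 0 < R) (hv : ∀ k, ‖v.seq k‖ ≤ R)
    (hvi : ∀ x, π x * UPow.mk hN (ω : Filter ℕ) v =
        UPow.mk hN (ω : Filter ℕ) v * ψ x) :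
    UPow.mk hN (ω : Filter ℕ) (1 - b * star b) * UPow.mk hN (ω : Filter ℕ) v *
      UPow.mk hN (ω : Filter ℕ) (1 - star b * b) = 0 := by
  set B : UPow hN (ω : Filter ℕ) := UPow.mk hN (ω : Filter ℕ) b with hB
  have hE : UPow.mk hN (ω : Filter ℕ) (1 - b * star b) = 1 - B * star B := by
    rw [map_sub, map_one, map_mul, ← UPow.star_mk]
  have hD : UPow.mk hN (ω : Filter ℕ) (1 - star b * b) = 1 - star B * B := by
    rw [map_sub, map_one, map_mul, ← UPow.star_mk]
  rw [hE, hD]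
  have hbi' : ∀ x, star B * π x = ψ x * star B := by
    intro x
    have e1 := congrArg star (hbi (star x))
    rw [star_mul, star_mul, ← map_star π, ← map_star ψ, star_star] at e1
    exact e1
  have hEc : ∀ x, π x * (1 - B * star B) = (1 - B * star B) * π x := by
    intro x
    have e1 : π x * (B * star B) = B * star B * π x := by
      calc π x * (B * star B) = (π x * B) * star B := by rw [mul_assoc]
        _ = B * (ψ x * star B) := by rw [hbi, mul_assoc]
        _ = B * star B * π x := by rw [← hbi', mul_assoc]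
    rw [mul_sub, sub_mul, mul_one, one_mul, e1]
  have hDc : ∀ x, ψ x * (1 - star B * B) =
      (1 - star B * B) * ψ x := by
    intro x
    have e1 : ψ x * (star B * B) = star B * B * ψ x := by
      calc ψ x * (star B * B) = (ψ x * star B) * B := by
            rw [mul_assoc]
        _ = star B * (π x * B) := by rw [← hbi', mul_assoc]
        _ = star B * B * ψ x := by rw [hbi, mul_assoc]
    rw [mul_sub, sub_mul, mul_one, one_mul, e1]
  -- contractions
  have key : ∀ c : LInf N, (∀ k, ‖c.seq k‖ ≤ 1) → (∀ x, π x * UPow.mk hN (ω : Filter ℕ) c =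
      UPow.mk hN (ω : Filter ℕ) c * ψ x) →
      (t (star (B + (1 / 4 : ℂ) • ((1 - B * star B) * UPow.mk hN (ω : Filter ℕ) c *
        (1 - star B * B))) * (B + (1 / 4 : ℂ) • ((1 - B * star B) * UPow.mk hN (ω : Filter ℕ) c *
        (1 - star B * B))))).re ≤ (t (star B * B)).re := by
    intro c hc hci
    have e1 : UPow.mk hN (ω : Filter ℕ) (b + (1 / 4 : ℂ) • ((1 - b * star b) * c * (1 - star b * b)))
        = B + (1 / 4 : ℂ) • ((1 - B * star B) * UPow.mk hN (ω : Filter ℕ) c *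
          (1 - star B * B)) := by
      rw [map_add, UPow.mk_smul, map_mul, map_mul, hE, hD]
    rw [← e1]
    refine hmax _ (fun k => norm_perturb (hb k) (hc k)) fun x => ?_
    rw [e1, mul_add, add_mul, hbi, mul_smul_comm, smul_mul_assoc]
    congr 2
    calc π x * ((1 - B * star B) * UPow.mk hN (ω : Filter ℕ) c * (1 - star B * B))
        = (π x * (1 - B * star B)) * UPow.mk hN (ω : Filter ℕ) c * (1 - star B * B) := by
          simp only [mul_assoc]
      _ = (1 - B * star B) * (π x * UPow.mk hN (ω : Filter ℕ) c) * (1 - star B * B) := by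
          rw [hEc]; simp only [mul_assoc]
      _ = (1 - B * star B) * UPow.mk hN (ω : Filter ℕ) c *
          (ψ x * (1 - star B * B)) := by
          rw [hci]; simp only [mul_assoc]
      _ = (1 - B * star B) * UPow.mk hN (ω : Filter ℕ) c * (1 - star B * B) *
          ψ x := by
          rw [hDc]; simp only [mul_assoc]
  -- scaling
  set c : LInf N := ((R⁻¹ : ℝ) : ℂ) • v with hc
  have hcn : ∀ k, ‖c.seq k‖ ≤ 1 := by
    intro k
    show ‖((R⁻¹ : ℝ) : ℂ) • v.seq k‖ ≤ 1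
    rw [norm_smul, Complex.norm_real, Real.norm_eq_abs, abs_of_pos (inv_pos.2 hR)]
    have h1 := mul_le_mul_of_nonneg_left (hv k) (inv_pos.2 hR).le
    rwa [inv_mul_cancel₀ hR.ne'] at h1
  have hcmk : UPow.mk hN (ω : Filter ℕ) c = ((R⁻¹ : ℝ) : ℂ) • UPow.mk hN (ω : Filter ℕ) v :=
    UPow.mk_smul _ _ _ _
  have hci : ∀ x, π x * UPow.mk hN (ω : Filter ℕ) c =
      UPow.mk hN (ω : Filter ℕ) c * ψ x := by
    intro x
    rw [hcmk, mul_smul_comm, smul_mul_assoc, hvi]
  set X : UPow hN (ω : Filter ℕ) := (1 - B * star B) * UPow.mk hN (ω : Filter ℕ) c *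
    (1 - star B * B) with hX
  have h1 := key c hcn hci
  have h2 := key (-c) (fun k => by
    show ‖-(c.seq k)‖ ≤ 1
    rw [norm_neg]
    exact hcn k) (fun x => by rw [map_neg, mul_neg, neg_mul, hci])
  rw [map_neg, mul_neg, neg_mul, smul_neg, ← sub_eq_add_neg] at h2
  rw [← hX] at h1 h2
  have h3 : (t (star X * X)).re = 0 := by
    obtain ⟨r, hr, hr'⟩ := htp X
    have e1 : star (B + (1 / 4 : ℂ) • X) * (B + (1 / 4 : ℂ) • X) +
        star (B - (1 / 4 : ℂ) • X) * (B - (1 / 4 : ℂ) • X) =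
        (2 : ℂ) • (star B * B) + (1 / 8 : ℂ) • (star X * X) := by
      rw [star_add, star_sub, star_smul]
      have e2 : star (1 / 4 : ℂ) = 1 / 4 := by
        rw [star_div₀, star_one]
        congr 1
        exact Complex.conj_ofNat 4
      rw [e2, add_mul, mul_add, mul_add, sub_mul, mul_sub, mul_sub, smul_mul_smul_comm]
      have e3 : (1 / 8 : ℂ) • (star X * X) = (1 / 4 * (1 / 4) : ℂ) • (star X * X) +
          (1 / 4 * (1 / 4) : ℂ) • (star X * X) := by
        rw [← add_smul]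
        norm_num
      rw [e3, two_smul]
      abel
    have e2 := congrArg (fun a => (t a).re) e1
    simp only [map_add, map_smul, Complex.add_re, smul_eq_mul] at e2
    rw [hr'] at e2 ⊢
    simp only [Complex.ofReal_re]
    have e3 : ((2 : ℂ) * t (star B * B)).re = 2 * (t (star B * B)).re := by
      have : (2 : ℂ) = ((2 : ℝ) : ℂ) := by norm_num
      rw [this, Complex.re_ofReal_mul]
    have e4 : ((1 / 8 : ℂ) * (r : ℂ)).re = 1 / 8 * r := by
      have : (1 / 8 : ℂ) = ((1 / 8 : ℝ) : ℂ) := by norm_num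
      rw [this, Complex.re_ofReal_mul, Complex.ofReal_re]
    rw [e3, e4] at e2
    linarith
  have h4 : X = 0 := utr_faithful hN (ω : Filter ℕ) t ht X h3
  have h5 : X = ((R⁻¹ : ℝ) : ℂ) • ((1 - B * star B) * UPow.mk hN (ω : Filter ℕ) v *
      (1 - star B * B)) := by
    rw [hX, hcmk, mul_smul_comm, smul_mul_assoc]
  rw [h5] at h4
  have h6 : ((R⁻¹ : ℝ) : ℂ) ≠ 0 := by
    rw [Ne, Complex.ofReal_eq_zero]
    exact (inv_pos.2 hR).ne'
  exact (smul_eq_zero.1 h4).resolve_left h6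

end max

end Pool.Agent.H28.JT
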