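import Pool.Agent.H28.JT.Ext
import Pool.Agent.H28.JP.Defs

set_option autoImplicit false

/-!
# JT: extension of homomorphisms into the ultrapower

PROOF. `Rel z a`: for all `ε > 0` there is `T` with `norm2 τ (z - d T) < ε` such that `B T - a` has a lift whose
entries are eventually smaller than `ε` in `norm2` (`Sm`).
(1) If `norm2 (d T) < ε`, then the entries of every lift of `B T` are eventually smaller than `ε`:
`B T' B T = B (T' T)`, trace, `hstar`. (2) `Rel` is functional. (3) `Rel (d T) (B T)`. (4) `Rel` is compatible with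
sums, scalars, star, and products (for products choose `T` first, then `S` depending on the bound of a lift of `B T`).
(5) `Rel` is total: for `z = star z`, `‖z‖ ≤ c`, choose `T m` with `norm2 (z - d (T m)) < (1/4) (1/2)^m` and `d (T m)`
self-adjoint (average `T` and `T'`), self-adjoint lifts `s m` of `B (T m)`, `c m k = cfc clip (s m k)`;
`tendsto_n2_cfc` for `f = clip - id` (moments: `hstar`, `htr`) and `clip_near`: eventually
`n2 (c m k - s m k) < (1/4) (1/2)^m`; `exists_diag` gives a bounded sequence. General `z`: real and imaginary parts.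
-/

universe u

open Filter Topology H80VN Pool.Agent.H68.Amp

namespace Pool.Agent.H28.JT

variable {M : Type u} [CStarAlgebra M] {τ : M →ₗ[ℂ] ℂ}

/-- `b` has a lift whose entries are eventually smaller than `ε` in the 2-norm. -/
private def Sm (h : Stmt.IsTracialVN τ) (ω : Filter ℕ) (b : UPow h ω) (ε : ℝ) : Prop :=
  ∃ s : LInf M, UPow.mk h ω s = b ∧ ∀ᶠ k in ω, Stmt.norm2 τ (s.seq k) < ε

section sm

variable {h : Stmt.IsTracialVN τ} {ω : Filter ℕ}

private lemma norm2_neg' (h : Stmt.IsTracialVN τ) (x : M) :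
    Stmt.norm2 τ (-x) = Stmt.norm2 τ x := @n2_neg M _ (toTracialVN h) x

private lemma norm2_sub_le' (h : Stmt.IsTracialVN τ) (x y : M) :
    Stmt.norm2 τ (x - y) ≤ Stmt.norm2 τ x + Stmt.norm2 τ y := @n2_sub_le M _ (toTracialVN h) x y

private lemma Sm.mono {b : UPow h ω} {ε δ : ℝ} (hb : Sm h ω b ε) (hε : ε ≤ δ) : Sm h ω b δ := by
  obtain ⟨s, hs, hs'⟩ := hb
  exact ⟨s, hs, hs'.mono fun k hk => lt_of_lt_of_le hk hε⟩

private lemma Sm.add {b c : UPow h ω} {ε δ : ℝ} (hb : Sm h ω b ε) (hc : Sm h ω c δ) :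
    Sm h ω (b + c) (ε + δ) := by
  obtain ⟨s, hs, hs'⟩ := hb
  obtain ⟨t, ht, ht'⟩ := hc
  refine ⟨s + t, by rw [map_add, hs, ht], ?_⟩
  filter_upwards [hs', ht'] with k h1 h2
  exact lt_of_le_of_lt (norm2_add_le h (s.seq k) (t.seq k)) (add_lt_add h1 h2)

private lemma Sm.neg {b : UPow h ω} {ε : ℝ} (hb : Sm h ω b ε) : Sm h ω (-b) ε := by
  obtain ⟨s, hs, hs'⟩ := hb
  refine ⟨-s, by rw [map_neg, hs], ?_⟩
  filter_upwards [hs'] with k h1
  exact lt_of_le_of_lt (le_of_eq (norm2_neg' h (s.seq k))) h1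

private lemma Sm.star {b : UPow h ω} {ε : ℝ} (hb : Sm h ω b ε) : Sm h ω (star b) ε := by
  obtain ⟨s, hs, hs'⟩ := hb
  refine ⟨Star.star s, by rw [← UPow.star_mk, hs], ?_⟩
  filter_upwards [hs'] with k h1
  exact lt_of_le_of_lt (le_of_eq (norm2_star h (s.seq k))) h1

private lemma Sm.mul_left {b : UPow h ω} {ε : ℝ} (hb : Sm h ω b ε) (c : LInf M) {C : ℝ} (hC : 0 < C)
    (hc : ∀ k, ‖c.seq k‖ ≤ C) : Sm h ω (UPow.mk h ω c * b) (C * ε) := by
  obtain ⟨s, hs, hs'⟩ := hb
  refine ⟨c * s, by rw [map_mul, hs], ?_⟩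
  filter_upwards [hs'] with k h1
  calc Stmt.norm2 τ (c.seq k * s.seq k) ≤ ‖c.seq k‖ * Stmt.norm2 τ (s.seq k) :=
        norm2_mul_le_left h _ _
    _ ≤ C * Stmt.norm2 τ (s.seq k) := mul_le_mul_of_nonneg_right (hc k) (norm2_nonneg h _)
    _ < C * ε := mul_lt_mul_of_pos_left h1 hC

private lemma Sm.mul_right {b : UPow h ω} {ε : ℝ} (hb : Sm h ω b ε) (c : LInf M) {C : ℝ} (hC : 0 < C)
    (hc : ∀ k, ‖c.seq k‖ ≤ C) : Sm h ω (b * UPow.mk h ω c) (ε * C) := by
  obtain ⟨s, hs, hs'⟩ := hb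
  refine ⟨s * c, by rw [map_mul, hs], ?_⟩
  filter_upwards [hs'] with k h1
  calc Stmt.norm2 τ (s.seq k * c.seq k) ≤ Stmt.norm2 τ (s.seq k) * ‖c.seq k‖ :=
        norm2_mul_le_right h _ _
    _ ≤ Stmt.norm2 τ (s.seq k) * C := mul_le_mul_of_nonneg_left (hc k) (norm2_nonneg h _)
    _ < ε * C := mul_lt_mul_of_pos_right h1 hC

private lemma Sm.zero {ε : ℝ} (hε : 0 < ε) : Sm h ω (0 : UPow h ω) ε := by
  refine ⟨0, map_zero _, Filter.Eventually.of_forall fun k => ?_⟩
  exact lt_of_le_of_lt (le_of_eq (norm2_zero h)) hε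

private lemma Sm.eq_zero {b : UPow h ω} (hb : ∀ ε : ℝ, 0 < ε → Sm h ω b ε) : b = 0 := by
  obtain ⟨s, hs⟩ := UPow.mk_surjective h ω b
  have h1 : IsNull τ ω (s - 0) := by
    unfold IsNull
    rw [tendsto_order]
    refine ⟨fun a ha => Filter.Eventually.of_forall fun k =>
      lt_of_lt_of_le ha (norm2_nonneg h _), fun ε hε => ?_⟩
    obtain ⟨t, ht, ht'⟩ := hb (ε / 2) (by linarith)
    have h2 : IsNull τ ω (s - t) := (UPow.mk_eq h ω).1 (by rw [hs, ht])
    have h3 := (tendsto_order.1 h2).2 (ε / 2) (by linarith)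
    filter_upwards [ht', h3] with k h4 h5
    have h6 : (s - 0).seq k = (s - t).seq k + t.seq k := by
      show s.1 k - 0 = (s.1 k - t.1 k) + t.1 k
      abel
    rw [h6]
    refine lt_of_le_of_lt (norm2_add_le h _ _) ?_
    linarith
  rw [← hs, ← map_zero (UPow.mk h ω)]
  exact (UPow.mk_eq h ω).2 h1

end sm

private lemma exists_bound (s : LInf M) : ∃ C : ℝ, 0 < C ∧ ∀ k, ‖s.seq k‖ ≤ C := by
  obtain ⟨C, hC⟩ := s.2
  exact ⟨max C 1, lt_max_of_lt_right one_pos, fun k => (hC k).trans (le_max_left _ _)⟩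

section rel

variable {h : Stmt.IsTracialVN τ} {ω : Filter ℕ} {A : Type u} [Ring A] [Algebra ℂ A]

/-- `a` is the image of `z`. -/
private def Rel (d : A →ₐ[ℂ] M) (B : A →ₐ[ℂ] UPow h ω) (z : M) (a : UPow h ω) : Prop :=
  ∀ ε : ℝ, 0 < ε → ∃ T, Stmt.norm2 τ (z - d T) < ε ∧ Sm h ω (B T - a) ε

variable {d : A →ₐ[ℂ] M} {B : A →ₐ[ℂ] UPow h ω}

private lemma lift_lt (hstar : ∀ T, ∃ T', d T' = star (d T) ∧ B T' = star (B T))
    (htr : ∀ (T : A) (s : LInf M), UPow.mk h ω s = B T →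
      Tendsto (fun k => τ (s.seq k)) ω (𝓝 (τ (d T)))) {T : A} {s : LInf M}
    (hs : UPow.mk h ω s = B T) {ε : ℝ} (hε : Stmt.norm2 τ (d T) < ε) :
    ∀ᶠ k in ω, Stmt.norm2 τ (s.seq k) < ε := by
  obtain ⟨T', h1, h2⟩ := hstar T
  have h3 := htr (T' * T) (star s * s) (by rw [map_mul, ← UPow.star_mk, hs, map_mul, h2])
  rw [map_mul, h1] at h3
  have h4 : Tendsto (fun k => √(τ (star (s.seq k) * s.seq k)).re) ω
      (𝓝 (√(τ (star (d T) * d T)).re)) :=
    (Real.continuous_sqrt.tendsto _).comp ((Complex.continuous_re.tendsto _).comp h3)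
  exact (tendsto_order.1 h4).2 ε hε

private lemma sm_of_lt (hstar : ∀ T, ∃ T', d T' = star (d T) ∧ B T' = star (B T))
    (htr : ∀ (T : A) (s : LInf M), UPow.mk h ω s = B T →
      Tendsto (fun k => τ (s.seq k)) ω (𝓝 (τ (d T)))) {T : A} {ε : ℝ}
    (hε : Stmt.norm2 τ (d T) < ε) : Sm h ω (B T) ε := by
  obtain ⟨s, hs⟩ := UPow.mk_surjective h ω (B T)
  exact ⟨s, hs, lift_lt hstar htr hs hε⟩

private lemma Rel.unique (hstar : ∀ T, ∃ T', d T' = star (d T) ∧ B T' = star (B T))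
    (htr : ∀ (T : A) (s : LInf M), UPow.mk h ω s = B T →
      Tendsto (fun k => τ (s.seq k)) ω (𝓝 (τ (d T)))) {z : M} {a b : UPow h ω}
    (ha : Rel d B z a) (hb : Rel d B z b) : a = b := by
  rw [← sub_eq_zero]
  refine Sm.eq_zero fun ε hε => ?_
  obtain ⟨T, h1, h2⟩ := ha (ε / 4) (by linarith)
  obtain ⟨S, h3, h4⟩ := hb (ε / 4) (by linarith)
  have h5 : Stmt.norm2 τ (d (T - S)) < ε / 2 := by
    have e : d (T - S) = (z - d S) - (z - d T) := by
      rw [map_sub]
      abel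
    rw [e]
    refine lt_of_le_of_lt (norm2_sub_le' h _ _) ?_
    linarith
  have h6 := sm_of_lt hstar htr h5
  have e : a - b = (-(B T - a) + (B S - b)) + B (T - S) := by
    rw [map_sub]
    abel
  rw [e]
  refine ((h2.neg.add h4).add h6).mono ?_
  linarith

private lemma Rel.of (T : A) : Rel d B (d T) (B T) := by
  intro ε hε
  refine ⟨T, ?_, ?_⟩
  · rw [sub_self]
    exact lt_of_le_of_lt (le_of_eq (norm2_zero h)) hε
  · rw [sub_self]
    exact Sm.zero hε

private lemma Rel.add {z w : M} {a b : UPow h ω} (ha : Rel d B z a) (hb : Rel d B w b) :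
    Rel d B (z + w) (a + b) := by
  intro ε hε
  obtain ⟨T, h1, h2⟩ := ha (ε / 2) (by linarith)
  obtain ⟨S, h3, h4⟩ := hb (ε / 2) (by linarith)
  refine ⟨T + S, ?_, ?_⟩
  · have e : z + w - d (T + S) = (z - d T) + (w - d S) := by
      rw [map_add]
      abel
    rw [e]
    refine lt_of_le_of_lt (norm2_add_le h _ _) ?_
    linarith
  · have e : B (T + S) - (a + b) = (B T - a) + (B S - b) := by
      rw [map_add]
      abel
    rw [e]
    refine (h2.add h4).mono ?_
    linarith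

private lemma Rel.star (hstar : ∀ T, ∃ T', d T' = star (d T) ∧ B T' = star (B T)) {z : M}
    {a : UPow h ω} (ha : Rel d B z a) : Rel d B (star z) (star a) := by
  intro ε hε
  obtain ⟨T, h1, h2⟩ := ha ε hε
  obtain ⟨T', h3, h4⟩ := hstar T
  refine ⟨T', ?_, ?_⟩
  · rw [h3, ← star_sub, norm2_star h]
    exact h1
  · rw [h4, ← star_sub]
    exact h2.star

private lemma Rel.mul {z w : M} {a b : UPow h ω} (ha : Rel d B z a) (hb : Rel d B w b) :
    Rel d B (z * w) (a * b) := by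
  intro ε hε
  obtain ⟨β, hβ⟩ := UPow.mk_surjective h ω b
  obtain ⟨C, hC, hC'⟩ := exists_bound β
  have hw : 0 ≤ ‖w‖ := norm_nonneg w
  have hE : 0 < ‖w‖ + C := by linarith
  obtain ⟨T, h1, h2⟩ := ha (ε / (2 * (‖w‖ + C))) (by positivity)
  obtain ⟨γ, hγ⟩ := UPow.mk_surjective h ω (B T)
  obtain ⟨E, hEp, hE'⟩ := exists_bound γ
  have hdT : 0 ≤ ‖d T‖ := norm_nonneg _
  have hF : 0 < ‖d T‖ + E := by linarith
  obtain ⟨S, h3, h4⟩ := hb (ε / (2 * (‖d T‖ + E))) (by positivity)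
  have q1 : ε / (2 * (‖w‖ + C)) * (‖w‖ + C) = ε / 2 := by
    field_simp
  have q2 : (‖d T‖ + E) * (ε / (2 * (‖d T‖ + E))) = ε / 2 := by
    field_simp
  set δ1 := ε / (2 * (‖w‖ + C)) with hδ1
  set δ2 := ε / (2 * (‖d T‖ + E)) with hδ2
  have p1 : 0 < δ1 := by positivity
  have p2 : 0 < δ2 := by positivity
  refine ⟨T * S, ?_, ?_⟩
  · have e : z * w - d (T * S) = (z - d T) * w + d T * (w - d S) := by
      rw [map_mul, sub_mul, mul_sub]
      abel
    rw [e]
    have t1 : Stmt.norm2 τ ((z - d T) * w) ≤ δ1 * ‖w‖ :=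
      (norm2_mul_le_right h _ _).trans (mul_le_mul_of_nonneg_right h1.le hw)
    have t2 : Stmt.norm2 τ (d T * (w - d S)) ≤ ‖d T‖ * δ2 :=
      (norm2_mul_le_left h _ _).trans (mul_le_mul_of_nonneg_left h3.le hdT)
    have t3 := norm2_add_le h ((z - d T) * w) (d T * (w - d S))
    have t4 : 0 < δ1 * C := mul_pos p1 hC
    have t5 : 0 < E * δ2 := mul_pos hEp p2
    nlinarith
  · have e : B (T * S) - a * b = (B T - a) * b + B T * (B S - b) := by
      rw [map_mul, sub_mul, mul_sub]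
      abel
    rw [e, ← hβ, ← hγ]
    have t1 := h2.mul_right β hC hC'
    have t2 := h4.mul_left γ hEp hE'
    rw [← hγ] at t1
    rw [← hβ] at t2
    refine (t1.add t2).mono ?_
    have t4 : 0 ≤ δ1 * ‖w‖ := mul_nonneg p1.le hw
    have t5 : 0 ≤ ‖d T‖ * δ2 := mul_nonneg hdT p2.le
    nlinarith

private lemma Rel.smul (c : ℂ) {z : M} {a : UPow h ω} (ha : Rel d B z a) :
    Rel d B (c • z) (c • a) := by
  have h1 := (Rel.of (d := d) (B := B) (algebraMap ℂ A c)).mul ha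
  rw [AlgHom.commutes, AlgHom.commutes, ← Algebra.smul_def, ← Algebra.smul_def] at h1
  exact h1

end rel

/-! ### Totality -/

/-- evaluation at `k` -/
private noncomputable def ev (k : ℕ) : LInf M →ₐ[ℂ] M where
  toFun s := s.seq k
  map_one' := rfl
  map_mul' _ _ := rfl
  map_zero' := rfl
  map_add' _ _ := rfl
  commutes' _ := rfl

private noncomputable def mkA (h : Stmt.IsTracialVN τ) (ω : Filter ℕ) : LInf M →ₐ[ℂ] UPow h ω where
  toFun s := UPow.mk h ω s
  map_one' := map_one _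
  map_mul' _ _ := map_mul _ _ _
  map_zero' := map_zero _
  map_add' _ _ := map_add _ _ _
  commutes' _ := rfl

private lemma moments {h : Stmt.IsTracialVN τ} {ω : Filter ℕ} {A : Type u} [Ring A] [Algebra ℂ A]
    {d : A →ₐ[ℂ] M} {B : A →ₐ[ℂ] UPow h ω}
    (htr : ∀ (T : A) (s : LInf M), UPow.mk h ω s = B T →
      Tendsto (fun k => τ (s.seq k)) ω (𝓝 (τ (d T)))) {T : A} {s : LInf M}
    (hs : UPow.mk h ω s = B T) (p : Polynomial ℝ) :
    Tendsto (fun k => τ (Polynomial.aeval (s.seq k) p)) ω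
      (𝓝 (τ (Polynomial.aeval (d T) p))) := by
  set q : Polynomial ℂ := p.map (algebraMap ℝ ℂ) with hq
  have h1 : ∀ x : M, Polynomial.aeval x p = Polynomial.aeval x q := fun x =>
    (Polynomial.aeval_map_algebraMap ℂ x p).symm
  have h2 := htr (Polynomial.aeval T q) (Polynomial.aeval s q) (by
    have e1 : UPow.mk h ω (Polynomial.aeval s q) = Polynomial.aeval (UPow.mk h ω s) q :=
      (Polynomial.aeval_algHom_apply (mkA h ω) s q).symm
    rw [e1, hs]
    exact Polynomial.aeval_algHom_apply B T q)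
  have h3 : d (Polynomial.aeval T q) = Polynomial.aeval (d T) q :=
    (Polynomial.aeval_algHom_apply d T q).symm
  rw [h3, ← h1] at h2
  refine h2.congr fun k => ?_
  rw [h1]
  congr 1
  exact (Polynomial.aeval_algHom_apply (ev k) s q).symm

private lemma cfc_clip_sub {c : ℝ} {t : M} (ht : star t = t) :
    cfc (fun r : ℝ => max (-c) (min c r) - r) t =
      cfc (fun r : ℝ => max (-c) (min c r)) t - t := by
  have htsa : IsSelfAdjoint t := ht
  have cφ : Continuous (fun r : ℝ => max (-c) (min c r)) := by fun_prop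
  rw [cfc_sub (fun r : ℝ => max (-c) (min c r)) (fun r => r) t cφ.continuousOn
    continuous_id.continuousOn, cfc_id' ℝ t]

private lemma norm_clip {c : ℝ} (hc : 0 ≤ c) (t : M) :
    ‖cfc (fun r : ℝ => max (-c) (min c r)) t‖ ≤ c := by
  refine norm_cfc_le hc fun r _ => ?_
  rw [Real.norm_eq_abs, abs_le]
  refine ⟨le_max_left _ _, max_le ?_ (min_le_left _ _)⟩
  linarith

section total

variable {h : Stmt.IsTracialVN τ} {ω : Filter ℕ} {A : Type u} [Ring A] [Algebra ℂ A]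
  {d : A →ₐ[ℂ] M} {B : A →ₐ[ℂ] UPow h ω}

/-- self-adjoint approximations -/
private lemma exists_sa (hstar : ∀ T, ∃ T', d T' = star (d T) ∧ B T' = star (B T))
    (hd : ∀ (z : M) (ε : ℝ), 0 < ε → ∃ T, Stmt.norm2 τ (z - d T) < ε) {z : M} (hz : star z = z)
    {ε : ℝ} (hε : 0 < ε) : ∃ (T : A) (s : LInf M), Stmt.norm2 τ (z - d T) < ε ∧
      star (d T) = d T ∧ UPow.mk h ω s = B T ∧ ∀ k, star (s.seq k) = s.seq k := by
  obtain ⟨T, hT⟩ := hd z ε hε
  obtain ⟨T', h1, h2⟩ := hstar T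
  obtain ⟨s, hs⟩ := UPow.mk_surjective h ω (B T)
  refine ⟨(1 / 2 : ℂ) • (T + T'), (1 / 2 : ℂ) • (s + star s), ?_, ?_, ?_, ?_⟩
  · have e : z - d ((1 / 2 : ℂ) • (T + T')) =
        (1 / 2 : ℂ) • ((z - d T) + star (z - d T)) := by
      rw [map_smul, map_add, h1, star_sub, hz]
      have e2 : z - d T + (z - star (d T)) = (2 : ℂ) • z - (d T + star (d T)) := by
        rw [two_smul]
        abel
      rw [e2, smul_sub, smul_smul]
      norm_num
    have e3 : Stmt.norm2 τ ((1 / 2 : ℂ) • ((z - d T) + star (z - d T))) =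
        ‖(1 / 2 : ℂ)‖ * Stmt.norm2 τ ((z - d T) + star (z - d T)) :=
      @n2_smul M _ (toTracialVN h) _ _
    rw [e, e3]
    have e4 := norm2_add_le h (z - d T) (star (z - d T))
    rw [norm2_star h] at e4
    have e5 : ‖(1 / 2 : ℂ)‖ = 1 / 2 := by norm_num
    rw [e5]
    linarith
  · rw [map_smul, map_add, h1, star_smul, star_add, star_star, add_comm]
    congr 1
    simp
  · rw [UPow.mk_smul, map_add, ← UPow.star_mk, hs, map_smul, map_add, h2]
  · intro k
    show star ((1 / 2 : ℂ) • (s.seq k + star (s.seq k))) = (1 / 2 : ℂ) • (s.seq k + star (s.seq k))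
    rw [star_smul, star_add, star_star, add_comm]
    congr 1
    simp

private lemma total_sa (hω : ω ≤ atTop)
    (hstar : ∀ T, ∃ T', d T' = star (d T) ∧ B T' = star (B T))
    (htr : ∀ (T : A) (s : LInf M), UPow.mk h ω s = B T →
      Tendsto (fun k => τ (s.seq k)) ω (𝓝 (τ (d T))))
    (hd : ∀ (z : M) (ε : ℝ), 0 < ε → ∃ T, Stmt.norm2 τ (z - d T) < ε) {z : M} (hz : star z = z) :
    ∃ a, Rel d B z a := by
  let _i : TracialVN M := toTracialVN h
  have hδ : ∀ m : ℕ, (0 : ℝ) < 1 / 4 * (1 / 2) ^ m := fun m => by positivity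
  choose T s h1 h2 h3 h4 using fun m : ℕ => exists_sa (B := B) hstar hd hz (hδ m)
  set c : ℕ → ℕ → M := fun m k => cfc (fun r : ℝ => max (-‖z‖) (min ‖z‖ r)) ((s m).seq k) with hc
  have hnc : ∀ m k, ‖c m k‖ ≤ ‖z‖ := fun m k => norm_clip (norm_nonneg z) _
  -- the truncation is close to the lift
  have h5 : ∀ m, ∀ᶠ k in ω, Stmt.norm2 τ (c m k - (s m).seq k) < 1 / 4 * (1 / 2) ^ m := by
    intro m
    obtain ⟨E, hE⟩ := (s m).2
    have cφ : Continuous (fun r : ℝ => max (-‖z‖) (min ‖z‖ r) - r) := by fun_prop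
    have t1 := tendsto_n2_cfc (ω := ω) (s := (s m).seq) (h4 m) hE (t := d (T m)) (h2 m)
      (moments htr (h3 m)) cφ
    have t2 := (clip_near (h2 m) hz (norm_nonneg z) le_rfl).1
    rw [← cfc_clip_sub (h2 m)] at t2
    have t3 : n2 (cfc (fun r : ℝ => max (-‖z‖) (min ‖z‖ r) - r) (d (T m))) <
        1 / 4 * (1 / 2) ^ m := lt_of_le_of_lt t2 (h1 m)
    have t4 := (tendsto_order.1 t1).2 _ t3
    filter_upwards [t4] with k hk
    rw [cfc_clip_sub (h4 m k)] at hk
    exact hk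
  -- consecutive lifts
  have h6 : ∀ m, ∀ᶠ k in ω, Stmt.norm2 τ ((s m).seq k - (s (m + 1)).seq k) <
      1 / 2 * (1 / 2) ^ m := by
    intro m
    have e1 : Stmt.norm2 τ (d (T m - T (m + 1))) < 1 / 2 * (1 / 2) ^ m := by
      have e : d (T m - T (m + 1)) = (z - d (T (m + 1))) - (z - d (T m)) := by
        rw [map_sub]
        abel
      rw [e]
      refine lt_of_le_of_lt (norm2_sub_le' h _ _) ?_
      have q1 := h1 m
      have q2 := h1 (m + 1)
      have q3 : (1 / 2 : ℝ) ^ (m + 1) = (1 / 2) ^ m * (1 / 2) := pow_succ _ _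
      have q4 : (0 : ℝ) < (1 / 2) ^ m := by positivity
      rw [q3] at q2
      linarith
    exact lift_lt hstar htr (s := s m - s (m + 1)) (by rw [map_sub, map_sub, h3, h3]) e1
  have h7 : ∀ m, ∀ᶠ k in ω, n2 (c m k - c (m + 1) k) ≤ (1 / 2) ^ m := by
    intro m
    filter_upwards [h5 m, h5 (m + 1), h6 m] with k q1 q2 q3
    have e : c m k - c (m + 1) k = (c m k - (s m).seq k) +
        (((s m).seq k - (s (m + 1)).seq k) - (c (m + 1) k - (s (m + 1)).seq k)) := by abel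
    have q4 := norm2_add_le h (c m k - (s m).seq k)
        (((s m).seq k - (s (m + 1)).seq k) - (c (m + 1) k - (s (m + 1)).seq k))
    have q5 := norm2_sub_le' h ((s m).seq k - (s (m + 1)).seq k)
      (c (m + 1) k - (s (m + 1)).seq k)
    have q6 : (1 / 2 : ℝ) ^ (m + 1) = (1 / 2) ^ m * (1 / 2) := pow_succ _ _
    have q7 : (0 : ℝ) < (1 / 2) ^ m := by positivity
    rw [q6] at q2
    show Stmt.norm2 τ (c m k - c (m + 1) k) ≤ (1 / 2) ^ m
    rw [e]
    linarith
  obtain ⟨m, hm⟩ := exists_diag hω c h7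
  set Y : LInf M := ⟨fun k => c (m k) k, ‖z‖, fun k => hnc _ _⟩ with hY
  refine ⟨UPow.mk h ω Y, fun ε hε => ?_⟩
  obtain ⟨l, hl⟩ := exists_pow_lt_of_lt_one (show (0 : ℝ) < ε / 3 by linarith)
    (show (1 / 2 : ℝ) < 1 by norm_num)
  have hl0 : (0 : ℝ) < (1 / 2) ^ l := by positivity
  refine ⟨T l, ?_, s l - Y, by rw [map_sub, h3], ?_⟩
  · have := h1 l
    linarith
  · filter_upwards [h5 l, hm l] with k q1 q2
    have q3 : Stmt.norm2 τ (c (m k) k - c l k) ≤ 2 * (1 / 2) ^ l := q2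
    have e : (s l - Y).seq k = -((c l k - (s l).seq k) + (c (m k) k - c l k)) := by
      show (s l).seq k - c (m k) k = _
      abel
    rw [e, norm2_neg' h]
    have q4 := norm2_add_le h (c l k - (s l).seq k) (c (m k) k - c l k)
    linarith

private lemma total (hω : ω ≤ atTop)
    (hstar : ∀ T, ∃ T', d T' = star (d T) ∧ B T' = star (B T))
    (htr : ∀ (T : A) (s : LInf M), UPow.mk h ω s = B T →
      Tendsto (fun k => τ (s.seq k)) ω (𝓝 (τ (d T))))
    (hd : ∀ (z : M) (ε : ℝ), 0 < ε → ∃ T, Stmt.norm2 τ (z - d T) < ε) (z : M) :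
    ∃ a, Rel d B z a := by
  obtain ⟨a, ha⟩ := total_sa hω hstar htr hd (z := z + star z)
    (by rw [star_add, star_star, add_comm])
  obtain ⟨b, hb⟩ := total_sa hω hstar htr hd (z := Complex.I • (z - star z)) (by
    rw [star_smul, star_sub, star_star, Complex.star_def, Complex.conj_I, neg_smul, ← smul_neg,
      neg_sub])
  refine ⟨(1 / 2 : ℂ) • (a + (-Complex.I) • b), ?_⟩
  have h1 := (ha.add (hb.smul (-Complex.I))).smul (1 / 2 : ℂ)
  have h2 : (1 / 2 : ℂ) • (z + star z + -Complex.I • Complex.I • (z - star z)) = z := by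
    rw [smul_smul, neg_mul, Complex.I_mul_I, neg_neg, one_smul]
    have h3 : z + star z + (z - star z) = (2 : ℂ) • z := by
      rw [two_smul]
      abel
    rw [h3, smul_smul]
    norm_num
  rw [h2] at h1
  exact h1

end total

theorem extend (h : Stmt.IsTracialVN τ) (ω : Ultrafilter ℕ) (hω : (ω : Filter ℕ) ≤ atTop)
    {A : Type u} [Ring A] [Algebra ℂ A] (d : A →ₐ[ℂ] M) (B : A →ₐ[ℂ] UPow h (ω : Filter ℕ))
    (hstar : ∀ T, ∃ T', d T' = star (d T) ∧ B T' = star (B T))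
    (htr : ∀ (T : A) (s : LInf M), UPow.mk h (ω : Filter ℕ) s = B T →
      Tendsto (fun k => τ (s.seq k)) (ω : Filter ℕ) (𝓝 (τ (d T))))
    (hd : ∀ (z : M) (ε : ℝ), 0 < ε → ∃ T, Stmt.norm2 τ (z - d T) < ε) :
    ∃ π : M →⋆ₐ[ℂ] UPow h (ω : Filter ℕ), ∀ T, π (d T) = B T := by
  choose f hf using total hω hstar htr hd
  have hu : ∀ {z : M} {a : UPow h (ω : Filter ℕ)}, Rel d B z a → f z = a := fun ha =>
    Rel.unique hstar htr (hf _) ha
  refine ⟨{ toFun := f, map_one' := ?_, map_mul' := ?_, map_zero' := ?_, map_add' := ?_,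
            commutes' := ?_, map_star' := ?_ }, fun T => hu (Rel.of T)⟩
  · refine hu ?_
    have := Rel.of (d := d) (B := B) 1
    rwa [map_one, map_one] at this
  · exact fun z w => hu ((hf z).mul (hf w))
  · refine hu ?_
    have := Rel.of (d := d) (B := B) 0
    rwa [map_zero, map_zero] at this
  · exact fun z w => hu ((hf z).add (hf w))
  · intro c
    refine hu ?_
    have := Rel.of (d := d) (B := B) (algebraMap ℂ A c)
    rwa [AlgHom.commutes, AlgHom.commutes] at this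
  · exact fun z => hu ((hf z).star hstar)

end Pool.Agent.H28.JT
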