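import Pool.Agent.H80.VNGamma

set_option autoImplicit false

/-!
# JT: tensor products of tracial von Neumann algebras
-/

universe u

open Filter Topology H80VN

namespace Pool.Agent.H28.JT

variable {M N P : Type u} [CStarAlgebra M] [TracialVN M] [CStarAlgebra N] [TracialVN N]
  [CStarAlgebra P] [TracialVN P]

/-- `M` is the tensor product of `N` and `P`. -/
structure Ten (i : N →⋆ₐ[ℂ] M) (j : P →⋆ₐ[ℂ] M) : Prop where
  comm : ∀ x y, i x * j y = j y * i x
  trace : ∀ x y, TracialVN.tr (i x * j y) = TracialVN.tr x * TracialVN.tr y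
  dense : ∀ (z : M) (ε : ℝ), 0 < ε → ∃ (m : ℕ) (a : Fin m → N) (b : Fin m → P),
    n2 (z - ∑ l, i (a l) * j (b l)) < ε

variable {i : N →⋆ₐ[ℂ] M} {j : P →⋆ₐ[ℂ] M}

theorem Ten.tr_i (h : Ten i j) (x : N) : TracialVN.tr (i x) = TracialVN.tr x := by
  have := h.trace x 1
  rwa [map_one, mul_one, TracialVN.tr_one, mul_one] at this

theorem Ten.tr_j (h : Ten i j) (y : P) : TracialVN.tr (j y) = TracialVN.tr y := by
  have := h.trace 1 y
  rwa [map_one, one_mul, TracialVN.tr_one, one_mul] at this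

theorem n2_map (i : N →⋆ₐ[ℂ] M) (hi : ∀ x, TracialVN.tr (i x) = TracialVN.tr x) (x : N) :
    n2 (i x) = n2 x := by
  unfold n2
  rw [← map_star, ← map_mul, hi]

theorem Ten.n2_i (h : Ten i j) (x : N) : n2 (i x) = n2 x := n2_map i h.tr_i x

theorem Ten.n2_j (h : Ten i j) (x : P) : n2 (j x) = n2 x := n2_map j h.tr_j x

theorem inj_map (i : N →⋆ₐ[ℂ] M) (hi : ∀ x, TracialVN.tr (i x) = TracialVN.tr x) :
    Function.Injective i := by
  rw [injective_iff_map_eq_zero]
  intro x hx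
  rw [← n2_eq_zero, ← n2_map i hi, hx, n2_zero]

theorem norm_map' (i : N →⋆ₐ[ℂ] M) (hi : ∀ x, TracialVN.tr (i x) = TracialVN.tr x) (x : N) :
    ‖i x‖ = ‖x‖ := NonUnitalStarAlgHom.norm_map i (inj_map i hi) x

end Pool.Agent.H28.JT
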