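import Pool.Agent.H28.JT.Cond

set_option autoImplicit false

/-!
# JT: coefficients and Bessel's inequality
-/

universe u

open Filter Topology H80VN

namespace Pool.Agent.H28.JT

variable {M N P : Type u} [CStarAlgebra M] [TracialVN M] [CStarAlgebra N] [TracialVN N]
  [CStarAlgebra P] [TracialVN P]

/-- `E` is the conditional expectation onto `N`. -/
def IsE (i : N →⋆ₐ[ℂ] M) (E : M → N) : Prop :=
  ∀ z y, TracialVN.tr (z * i y) = TracialVN.tr (E z * y)

/-- An orthonormal family in `P`. -/
def ON {m : ℕ} (r : Fin m → P) : Prop :=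
  ∀ k l, TracialVN.tr (star (r k) * r l) = if k = l then 1 else 0

variable {i : N →⋆ₐ[ℂ] M} {j : P →⋆ₐ[ℂ] M} {E : M → N}

theorem IsE.ext {a b : N} (h : ∀ y, TracialVN.tr (a * y) = TracialVN.tr (b * y)) : a = b := by
  have h1 : star (a - b) = 0 := by
    apply TracialVN.tr_faithful
    rw [star_star, sub_mul, map_sub, h, sub_self]
  have h2 := congrArg star h1
  rw [star_star, star_zero] at h2
  exact sub_eq_zero.1 h2

theorem IsE.add (hE : IsE i E) (z w : M) : E (z + w) = E z + E w := by
  refine IsE.ext fun y => ?_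
  rw [← hE, add_mul, map_add, hE, hE, add_mul, map_add]

theorem IsE.sub (hE : IsE i E) (z w : M) : E (z - w) = E z - E w := by
  refine IsE.ext fun y => ?_
  rw [← hE, sub_mul, map_sub, hE, hE, sub_mul, map_sub]

theorem IsE.zero (hE : IsE i E) : E 0 = 0 := by
  refine IsE.ext fun y => ?_
  rw [← hE, zero_mul, map_zero, zero_mul, map_zero]

theorem IsE.sum (hE : IsE i E) {κ : Type} (s : Finset κ) (f : κ → M) :
    E (∑ k ∈ s, f k) = ∑ k ∈ s, E (f k) := by
  classical
  induction s using Finset.induction_on with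
  | empty => rw [Finset.sum_empty, Finset.sum_empty, hE.zero]
  | insert a s ha ih => rw [Finset.sum_insert ha, Finset.sum_insert ha, hE.add, ih]

theorem IsE.left (hE : IsE i E) (a : N) (z : M) : E (i a * z) = a * E z := by
  refine IsE.ext fun y => ?_
  rw [← hE, mul_assoc, TracialVN.tr_comm, mul_assoc, ← map_mul, hE, ← mul_assoc,
    TracialVN.tr_comm, mul_assoc]

theorem IsE.right (hE : IsE i E) (a : N) (z : M) : E (z * i a) = E z * a := by
  refine IsE.ext fun y => ?_
  rw [← hE, mul_assoc, ← map_mul, hE, mul_assoc]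

theorem IsE.star' (hE : IsE i E) (z : M) : E (star z) = star (E z) := by
  refine IsE.ext fun y => ?_
  have h1 : star z * i y = star (i (star y) * z) := by
    rw [star_mul, ← map_star, star_star]
  have h2 : star (E z) * y = star (star y * E z) := by
    rw [star_mul, star_star]
  rw [← hE, h1, h2, tr_star, tr_star, TracialVN.tr_comm, hE, TracialVN.tr_comm]

theorem IsE.swap (h : Ten i j) (hE : IsE i E) (r : P) (z : M) : E (j r * z) = E (z * j r) := by
  refine IsE.ext fun y => ?_
  rw [← hE, ← hE, mul_assoc, TracialVN.tr_comm, mul_assoc, mul_assoc, h.comm]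

theorem IsE.one (hE : IsE i E) (hi : ∀ x, TracialVN.tr (i x) = TracialVN.tr x) : E 1 = 1 := by
  refine IsE.ext fun y => ?_
  rw [← hE, one_mul, one_mul, hi]

theorem IsE.n2_le (hE : IsE i E) (hi : ∀ x, TracialVN.tr (i x) = TracialVN.tr x) (z : M) :
    n2 (E z) ≤ n2 z := by
  have h1 : n2 (E z) ^ 2 ≤ n2 z * n2 (E z) := by
    have h2 : ((n2 (E z) ^ 2 : ℝ) : ℂ) = TracialVN.tr (z * i (star (E z))) := by
      rw [hE, TracialVN.tr_comm, ← tr_ssm]
    have h3 := cs' z (i (star (E z)))
    rw [← h2, n2_map i hi, n2_star, Complex.norm_real, Real.norm_eq_abs,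
      abs_of_nonneg (by positivity)] at h3
    exact h3
  have h4 := n2_nonneg (E z)
  rcases h4.eq_or_lt with h5 | h5
  · rw [← h5]; exact n2_nonneg z
  · nlinarith

theorem n2_sub_sq (x y : M) :
    n2 (x - y) ^ 2 = n2 x ^ 2 - 2 * (TracialVN.tr (star y * x)).re + n2 y ^ 2 := by
  have h1 : (TracialVN.tr (star x * y)).re = (TracialVN.tr (star y * x)).re := by
    have h2 : star y * x = star (star x * y) := by rw [star_mul, star_star]
    rw [h2, tr_star]
    exact (Complex.conj_re _).symm
  rw [n2_sq, n2_sq, n2_sq, star_sub, sub_mul, mul_sub, mul_sub, map_sub, map_sub, map_sub,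
    Complex.sub_re, Complex.sub_re, Complex.sub_re, h1]
  ring

/-- The distance to a finite expansion. -/
theorem dist_sq (h : Ten i j) (hE : IsE i E) {m : ℕ} {r : Fin m → P} (hr : ON r) (z : M)
    (c : Fin m → N) : n2 (z - ∑ l, i (c l) * j (r l)) ^ 2 =
      n2 z ^ 2 - ∑ l, n2 (E (z * j (star (r l)))) ^ 2 +
        ∑ l, n2 (E (z * j (star (r l))) - c l) ^ 2 := by
  have e1 : TracialVN.tr (star (∑ l, i (c l) * j (r l)) * z) =
      ∑ l, TracialVN.tr (star (c l) * E (z * j (star (r l)))) := by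
    rw [star_sum, Finset.sum_mul, map_sum]
    refine Finset.sum_congr rfl fun l _ => ?_
    rw [star_mul, ← map_star, ← map_star, mul_assoc, TracialVN.tr_comm, mul_assoc,
      TracialVN.tr_comm, hE, TracialVN.tr_comm]
  have e2 : n2 (∑ l, i (c l) * j (r l)) ^ 2 = ∑ l, n2 (c l) ^ 2 := by
    have e3 : TracialVN.tr (star (∑ l, i (c l) * j (r l)) * ∑ l, i (c l) * j (r l)) =
        ∑ l, TracialVN.tr (star (c l) * c l) := by
      rw [star_sum, Finset.sum_mul, map_sum]
      refine Finset.sum_congr rfl fun k _ => ?_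
      rw [Finset.mul_sum, map_sum, Finset.sum_eq_single k]
      · rw [star_mul, ← map_star, ← map_star]
        have e4 : j (star (r k)) * i (star (c k)) * (i (c k) * j (r k)) =
            j (star (r k)) * (i (star (c k) * c k) * j (r k)) := by
          rw [map_mul i]; simp only [mul_assoc]
        rw [e4, TracialVN.tr_comm, mul_assoc, ← map_mul j, h.trace, TracialVN.tr_comm (r k),
          hr k k, if_pos rfl, mul_one]
      · intro l _ hl
        rw [star_mul, ← map_star, ← map_star]
        have e4 : j (star (r k)) * i (star (c k)) * (i (c l) * j (r l)) =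
            j (star (r k)) * (i (star (c k) * c l) * j (r l)) := by
          rw [map_mul i]; simp only [mul_assoc]
        rw [e4, TracialVN.tr_comm, mul_assoc, ← map_mul j, h.trace, TracialVN.tr_comm (r l),
          hr k l, if_neg (Ne.symm hl), mul_zero]
      · intro hk
        exact absurd (Finset.mem_univ k) hk
    rw [n2_sq, e3, Complex.re_sum]
    exact Finset.sum_congr rfl fun l _ => (n2_sq _).symm
  have e5 : ∑ l, n2 (E (z * j (star (r l))) - c l) ^ 2 =
      ∑ l, n2 (E (z * j (star (r l)))) ^ 2 -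
        2 * ∑ l, (TracialVN.tr (star (c l) * E (z * j (star (r l))))).re + ∑ l, n2 (c l) ^ 2 := by
    rw [Finset.mul_sum, ← Finset.sum_sub_distrib, ← Finset.sum_add_distrib]
    exact Finset.sum_congr rfl fun l _ => n2_sub_sq _ _
  rw [n2_sub_sq, e1, e2, e5, Complex.re_sum]
  ring

/-- Bessel's inequality. -/
theorem bessel (h : Ten i j) (hE : IsE i E) {m : ℕ} {r : Fin m → P} (hr : ON r) (z : M) :
    ∑ l, n2 (E (z * j (star (r l)))) ^ 2 ≤ n2 z ^ 2 := by
  have h1 := dist_sq h hE hr z fun l => E (z * j (star (r l)))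
  simp only [sub_self, n2_zero] at h1
  have h2 : (0 : ℝ) ≤ n2 (z - ∑ l, i (E (z * j (star (r l)))) * j (r l)) ^ 2 := by positivity
  rw [h1] at h2
  simp at h2
  exact h2

theorem ON.star' {m : ℕ} {r : Fin m → P} (hr : ON r) : ON fun l => star (r l) := by
  intro k l
  rw [star_star, TracialVN.tr_comm, hr l k]
  by_cases hkl : k = l
  · rw [if_pos hkl, if_pos hkl.symm]
  · rw [if_neg hkl, if_neg fun h => hkl h.symm]

/-- Elements of `M` are close to their finite expansions. -/
theorem expand (h : Ten i j) (hE : IsE i E) (z : M) {ζ : ℝ} (hζ : 0 < ζ) :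
    ∃ (m : ℕ) (r : Fin m → P), ON r ∧
      n2 (z - ∑ l, i (E (z * j (star (r l)))) * j (r l)) ≤ ζ := by
  obtain ⟨m, a, b, hab⟩ := h.dense z ζ hζ
  let V : Submodule ℂ (L2 P) := Submodule.span ℂ (Set.range fun l => (toL2 (b l) : L2 P))
  have hVfin : FiniteDimensional ℂ V := FiniteDimensional.span_of_finite ℂ (Set.finite_range _)
  let e := stdOrthonormalBasis ℂ V
  let r : Fin (Module.finrank ℂ V) → P := fun k => (toL2 : P ≃ₗ[ℂ] L2 P).symm (e k : L2 P)
  have hr : ON r := by
    intro k l
    have h1 := (orthonormal_iff_ite.1 e.orthonormal) k l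
    exact h1
  refine ⟨_, r, hr, ?_⟩
  -- the `b l` in terms of the `r k`
  have hb : ∀ l, b l = ∑ k, (inner ℂ (e k) (⟨toL2 (b l), Submodule.subset_span ⟨l, rfl⟩⟩ : V)) • r k := by
    intro l
    have h1 := e.sum_repr' (⟨toL2 (b l), Submodule.subset_span ⟨l, rfl⟩⟩ : V)
    have h2 := congrArg (fun x : V => (toL2 : P ≃ₗ[ℂ] L2 P).symm (x : L2 P)) h1
    simp only [Submodule.coe_sum, Submodule.coe_smul, map_sum, map_smul] at h2
    exact h2.symm
  set c : Fin (Module.finrank ℂ V) → N := fun k =>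
    ∑ l, (inner ℂ (e k) (⟨toL2 (b l), Submodule.subset_span ⟨l, rfl⟩⟩ : V)) • a l with hc
  have h1 : ∑ l, i (a l) * j (b l) = ∑ k, i (c k) * j (r k) := by
    have h2 : ∀ l, i (a l) * j (b l) = ∑ k,
        (inner ℂ (e k) (⟨toL2 (b l), Submodule.subset_span ⟨l, rfl⟩⟩ : V)) • (i (a l) * j (r k)) := by
      intro l
      conv_lhs => rw [hb l]
      rw [map_sum, Finset.mul_sum]
      refine Finset.sum_congr rfl fun k _ => ?_
      rw [map_smul, mul_smul_comm]
    rw [Finset.sum_congr rfl fun l _ => h2 l, Finset.sum_comm]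
    refine Finset.sum_congr rfl fun k _ => ?_
    rw [hc]
    simp only
    rw [map_sum, Finset.sum_mul]
    refine Finset.sum_congr rfl fun l _ => ?_
    rw [map_smul, smul_mul_assoc]
  have h3 := dist_sq h hE hr z c
  have h4 := dist_sq h hE hr z fun l => E (z * j (star (r l)))
  rw [h1] at hab
  have h5 : (0 : ℝ) ≤ ∑ l, n2 (E (z * j (star (r l))) - c l) ^ 2 :=
    Finset.sum_nonneg fun _ _ => by positivity
  have h6 : ∑ l, n2 (E (z * j (star (r l))) - (fun l => E (z * j (star (r l)))) l) ^ 2 = 0 :=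
    Finset.sum_eq_zero fun l _ => by
      simp only [sub_self, n2_zero]
      norm_num
  rw [h6, add_zero] at h4
  have h7 : n2 (z - ∑ l, i (E (z * j (star (r l)))) * j (r l)) ^ 2 ≤ ζ ^ 2 := by
    refine le_trans ?_ (pow_le_pow_left₀ (n2_nonneg _) hab.le 2)
    rw [h3]
    refine h4.le.trans ?_
    linarith
  exact (sq_le_sq₀ (n2_nonneg _) hζ.le).1 h7

end Pool.Agent.H28.JT
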