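import Pool.Agent.H28.JT.Fin

set_option autoImplicit false

/-!
# JT: the other tensor factor

If `P` does not have property Gamma, the relative commutant of `P` in `(N ⊗ P)^ω` is `N^ω`.
-/

universe u

open Filter Topology H80VN Pool.Agent.H68.Amp Pool.Agent.H28.JP

namespace Pool.Agent.H28.JT

section

variable {M N P : Type u} [CStarAlgebra M] [TracialVN M] [CStarAlgebra N] [TracialVN N]
  [CStarAlgebra P] [TracialVN P] {i : N →⋆ₐ[ℂ] M} {j : P →⋆ₐ[ℂ] M}

theorem Ten.swap (h : Ten i j) : Ten j i := by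
  refine ⟨fun y x => (h.comm x y).symm, fun y x => ?_, fun z ε hε => ?_⟩
  · rw [← h.comm, h.trace, mul_comm]
  · obtain ⟨m, a, b, hab⟩ := h.dense z ε hε
    refine ⟨m, b, a, ?_⟩
    have e : ∑ l, j (b l) * i (a l) = ∑ l, i (a l) * j (b l) :=
      Finset.sum_congr rfl fun l _ => (h.comm _ _).symm
    rw [e]
    exact hab

theorem n2_sum_sq (h : Ten i j) {m : ℕ} {r : Fin m → P} (hr : ON r) (c : Fin m → N) :
    n2 (∑ l, i (c l) * j (r l)) ^ 2 = ∑ l, n2 (c l) ^ 2 := by
  have e3 : TracialVN.tr (star (∑ l, i (c l) * j (r l)) * ∑ l, i (c l) * j (r l)) =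
      ∑ l, TracialVN.tr (star (c l) * c l) := by
    rw [star_sum, Finset.sum_mul, map_sum]
    refine Finset.sum_congr rfl fun k _ => ?_
    rw [Finset.mul_sum, map_sum, Finset.sum_eq_single k]
    · rw [star_mul, ← map_star, ← map_star]
      have e4 : j (star (r k)) * i (star (c k)) * (i (c k) * j (r k)) =
          j (star (r k)) * (i (star (c k) * c k) * j (r k)) := by
        rw [map_mul i]; simp only [mul_assoc]
      rw [e4, TracialVN.tr_comm, mul_assoc, ← map_mul j, h.trace, TracialVN.tr_comm (r k),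
        hr k k, if_pos rfl, mul_one]
    · intro l _ hl
      rw [star_mul, ← map_star, ← map_star]
      have e4 : j (star (r k)) * i (star (c k)) * (i (c l) * j (r l)) =
          j (star (r k)) * (i (star (c k) * c l) * j (r l)) := by
        rw [map_mul i]; simp only [mul_assoc]
      rw [e4, TracialVN.tr_comm, mul_assoc, ← map_mul j, h.trace, TracialVN.tr_comm (r l),
        hr k l, if_neg (Ne.symm hl), mul_zero]
    · intro hk
      exact absurd (Finset.mem_univ k) hk
  rw [n2_sq, e3, Complex.re_sum]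
  exact Finset.sum_congr rfl fun l _ => (n2_sq _).symm

/-- The spectral gap of `P` in `N ⊗ P`. -/
theorem gap_tensor (hM : IsFactor M) (h : Ten i j) {E : M → N} (hE : IsE i E) {F : Finset P}
    (hF : ∀ f ∈ F, f ∈ unitary P) {K : ℝ} (hK : 0 < K)
    (hgap : ∀ b : P, n2 (b - TracialVN.tr b • (1 : P)) ^ 2 ≤ K * cs2 F b) {δ : ℝ} (hδ : 0 < δ)
    {z : M} (hz : ∀ f ∈ F, n2 (j f * z - z * j f) ≤ δ) :
    n2 (z - i (E z)) ≤ (2 * √(K * F.card) + 1) * δ := by
  have hs := h.swap
  choose E' hE' using fun z => exists_cond (factor_right hM hs) hs z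
  have hE'' : IsE j E' := hE'
  obtain ⟨m, r, hr, hζ⟩ := expand hs hE'' z (ζ := δ / 2) (by positivity)
  set c : Fin m → P := fun l => E' (z * i (star (r l))) with hc
  set w : M := ∑ l, j (c l) * i (r l) with hw
  -- the commutators
  have h1 : ∀ f ∈ F, ∑ l, n2 (c l * f - f * c l) ^ 2 ≤ (2 * δ) ^ 2 := by
    intro f hf
    have e1 : j f * w - w * j f = ∑ l, j (f * c l - c l * f) * i (r l) := by
      rw [hw, Finset.mul_sum, Finset.sum_mul, ← Finset.sum_sub_distrib]
      refine Finset.sum_congr rfl fun l _ => ?_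
      rw [map_sub j, map_mul j, map_mul j, sub_mul, mul_assoc (j (c l)) (i (r l)) (j f), h.comm]
      simp only [mul_assoc]
    have e2 := n2_sum_sq hs hr fun l => f * c l - c l * f
    rw [← e1] at e2
    have e3 : ∑ l, n2 (c l * f - f * c l) ^ 2 = n2 (j f * w - w * j f) ^ 2 := by
      rw [e2]
      refine Finset.sum_congr rfl fun l _ => ?_
      rw [n2_sub_comm]
    rw [e3]
    refine pow_le_pow_left₀ (n2_nonneg _) ?_ 2
    have e4 : j f * w - w * j f = (j f * z - z * j f) - (j f * (z - w) - (z - w) * j f) := by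
      noncomm_ring
    rw [e4]
    have hju : ‖j f‖ ≤ 1 := by
      rw [norm_map' j h.tr_j, norm_unitary (hF f hf)]
    have e5 := n2_sub_le (j f * z - z * j f) (j f * (z - w) - (z - w) * j f)
    have e6 := n2_sub_le (j f * (z - w)) ((z - w) * j f)
    have e7 := n2_mul_le_of_norm_le_one_left hju (z - w)
    have e8 := n2_mul_le_of_norm_le_one_right (z - w) hju
    have e9 := hz f hf
    linarith
  -- `w` is close to `i (E w)`
  have h2 : n2 (w - i (E w)) ^ 2 ≤ K * (F.card * (2 * δ) ^ 2) := by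
    have e1 : w - i (E w) = ∑ l, j (c l - TracialVN.tr (c l) • (1 : P)) * i (r l) := by
      have e2 : E w = ∑ l, TracialVN.tr (c l) • r l := by
        rw [hw, hE.sum]
        refine Finset.sum_congr rfl fun l _ => ?_
        rw [hE.right]
        have e3 : E (j (c l)) = TracialVN.tr (c l) • (1 : N) := by
          refine IsE.ext fun y => ?_
          rw [← hE, hs.trace, smul_mul_assoc, one_mul, map_smul, smul_eq_mul]
        rw [e3, smul_mul_assoc, one_mul]
      rw [e2, hw, map_sum, ← Finset.sum_sub_distrib]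
      refine Finset.sum_congr rfl fun l _ => ?_
      rw [map_sub j, sub_mul, map_smul, map_smul, map_one, smul_mul_assoc, one_mul]
    rw [e1, n2_sum_sq hs hr]
    have e2 : ∑ l, n2 (c l - TracialVN.tr (c l) • (1 : P)) ^ 2 ≤ ∑ l, K * cs2 F (c l) :=
      Finset.sum_le_sum fun l _ => hgap _
    refine e2.trans ?_
    rw [← Finset.mul_sum]
    refine mul_le_mul_of_nonneg_left ?_ hK.le
    unfold cs2
    rw [Finset.sum_comm]
    have e3 : ∑ f ∈ F, ∑ l, n2 (c l * f - f * c l) ^ 2 ≤ ∑ f ∈ F, (2 * δ) ^ 2 :=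
      Finset.sum_le_sum h1
    refine e3.trans (le_of_eq ?_)
    rw [Finset.sum_const, nsmul_eq_mul]
  have h3 : n2 (w - i (E w)) ≤ 2 * √(K * F.card) * δ := by
    have e1 : (2 * √(K * F.card) * δ) ^ 2 = K * (F.card * (2 * δ) ^ 2) := by
      rw [mul_pow, mul_pow, Real.sq_sqrt (by positivity)]
      ring
    rw [← e1] at h2
    exact (sq_le_sq₀ (n2_nonneg _) (by positivity)).1 h2
  have h4 : z - i (E z) = (z - w) + (w - i (E w)) - i (E (z - w)) := by
    rw [hE.sub, map_sub]
    abel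
  rw [h4]
  have h5 : n2 (i (E (z - w))) ≤ δ / 2 := by
    rw [h.n2_i]
    exact (hE.n2_le h.tr_i _).trans hζ
  have h6 := n2_sub_le ((z - w) + (w - i (E w))) (i (E (z - w)))
  have h7 := n2_add_le (z - w) (w - i (E w))
  have h8 : n2 (z - w) ≤ δ / 2 := hζ
  linarith

end

variable {M N P : Type u} [CStarAlgebra M] [CStarAlgebra N] [CStarAlgebra P]
  {τ : M →ₗ[ℂ] ℂ} {ρ : N →ₗ[ℂ] ℂ} {σ : P →ₗ[ℂ] ℂ}

/-- The second case: every embedding of `N` is conjugate to the diagonal embedding if `P` does not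
have property Gamma. -/
theorem conj_diag' (hM : Stmt.IsII1Factor τ) (hN : Stmt.IsII1Factor ρ) (hP : Stmt.IsII1Factor σ)
    (hT : Stmt.IsTensor τ ρ σ) (hG : ¬ Stmt.Gamma σ) (ω : Ultrafilter ℕ)
    (hω : (ω : Filter ℕ) ≤ cofinite) (hJ : JungProperty (vn hM) (ω : Filter ℕ))
    (π : N →⋆ₐ[ℂ] UPow (vn hN) (ω : Filter ℕ)) :
    ∃ V ∈ unitary (UPow (vn hN) (ω : Filter ℕ)), ∀ x,
      π x = V * diag (vn hN) (ω : Filter ℕ) x * star V := by
  let _ : TracialVN M := toTracialVN (vn hM)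
  let _ : TracialVN N := toTracialVN (vn hN)
  let _ : TracialVN P := toTracialVN (vn hP)
  obtain ⟨i, j, hcomm, htr, hden⟩ := hT
  have hTen : Ten i j := ⟨hcomm, htr, hden⟩
  have hi : ∀ x, τ (i x) = ρ x := hTen.tr_i
  have hω' : (ω : Filter ℕ) ≤ atTop := hω.trans Nat.cofinite_eq_atTop.le
  obtain ⟨I, hI⟩ := exists_iU (vn hM) (vn hN) (ω : Filter ℕ) i hi
  obtain ⟨φ, hφ, hφj⟩ := exists_ext hM hN i j hcomm htr hden ω hω' I hI π
  have hIinj : Function.Injective I := by
    rw [injective_iff_map_eq_zero]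
    intro a ha
    obtain ⟨t, rfl⟩ := UPow.mk_surjective (vn hN) (ω : Filter ℕ) a
    rw [hI, ← map_zero (UPow.mk (vn hM) (ω : Filter ℕ)), UPow.mk_eq] at ha
    rw [← map_zero (UPow.mk (vn hN) (ω : Filter ℕ)), UPow.mk_eq]
    refine ha.congr fun k => ?_
    show Stmt.norm2 τ (i (t.seq k) - 0) = Stmt.norm2 ρ (t.seq k - 0)
    rw [sub_zero, sub_zero, norm2_map i hi]
  obtain ⟨u, hu, hux⟩ := hJ (diag (vn hM) (ω : Filter ℕ)) φ (tracePres hM ω _) (tracePres hM ω _)
  have hu1 : star u * u = 1 := Unitary.star_mul_self_of_mem hu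
  have hu2 : u * star u = 1 := Unitary.mul_star_self_of_mem hu
  have hφu : ∀ z, φ z * u = u * diag (vn hM) (ω : Filter ℕ) z := by
    intro z
    rw [hux, mul_assoc, hu1, mul_one]
  obtain ⟨s, hs⟩ := UPow.mk_surjective (vn hM) (ω : Filter ℕ) u
  have hsj : ∀ y : P, Tendsto (fun k => n2 (j y * s.seq k - s.seq k * j y)) (ω : Filter ℕ) (𝓝 0) := by
    intro y
    have h1 := hφu (j y)
    rw [hφj, ← hs, diag_eq, ← map_mul, ← map_mul, UPow.mk_eq] at h1
    exact h1
  obtain ⟨F, K, hF, hK, hgap⟩ := gap_of_not_gamma (show IsFactor P from hP.2.1) hP.2.2 hG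
  choose E hEn hE using fun z => exists_cond' (show IsFactor P from hP.2.1) hTen z
  have hE' : IsE i E := hE
  obtain ⟨C, hC⟩ := s.2
  set b : LInf N := ⟨fun k => E (s.seq k), C, fun k => (hEn _).trans (hC k)⟩ with hb
  have hsb : Tendsto (fun k => n2 (s.seq k - i (E (s.seq k)))) (ω : Filter ℕ) (𝓝 0) := by
    rw [Metric.tendsto_nhds]
    intro ε hε
    have hpos : (0 : ℝ) < 2 * √(K * F.card) + 1 := by positivity
    have h1 : ∀ᶠ k in (ω : Filter ℕ), ∀ f ∈ F,
        n2 (j f * s.seq k - s.seq k * j f) ≤ ε / 2 / (2 * √(K * F.card) + 1) := by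
      rw [Filter.eventually_all_finset]
      intro f _
      exact (hsj f).eventually (Iic_mem_nhds (by positivity))
    filter_upwards [h1] with k hk
    have h2 := gap_tensor (show IsFactor M from hM.2.1) hTen hE' hF hK hgap (by positivity) hk
    have h3 : (2 * √(K * F.card) + 1) * (ε / 2 / (2 * √(K * F.card) + 1)) = ε / 2 := by
      field_simp
    rw [h3] at h2
    rw [Real.dist_eq, sub_zero, abs_of_nonneg (n2_nonneg _)]
    linarith
  set V : UPow (vn hN) (ω : Filter ℕ) := UPow.mk (vn hN) (ω : Filter ℕ) b with hV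
  have hIV : I V = u := by
    rw [hV, hI, ← hs]
    symm
    rw [UPow.mk_eq]
    exact hsb
  have hV1 : star V * V = 1 := hIinj (by rw [map_mul, map_star, hIV, hu1, map_one])
  have hV2 : V * star V = 1 := hIinj (by rw [map_mul, map_star, hIV, hu2, map_one])
  refine ⟨V, Unitary.mem_iff.2 ⟨hV1, hV2⟩, fun x => ?_⟩
  have h1 : π x * V = V * diag (vn hN) (ω : Filter ℕ) x := by
    apply hIinj
    rw [map_mul I, map_mul I, hIV, ← hφ, hφu, diag_eq, diag_eq, hI]
    rfl
  rw [← h1, mul_assoc, hV2, mul_one]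

theorem jung_of_conj (hN : Stmt.IsII1Factor ρ) (ω : Ultrafilter ℕ)
    (h : ∀ π : N →⋆ₐ[ℂ] UPow (vn hN) (ω : Filter ℕ),
      ∃ V ∈ unitary (UPow (vn hN) (ω : Filter ℕ)), ∀ x,
        π x = V * diag (vn hN) (ω : Filter ℕ) x * star V) :
    JungProperty (vn hN) (ω : Filter ℕ) := by
  intro π₁ π₂ _ _
  obtain ⟨V, hV, hVx⟩ := h π₁
  obtain ⟨W, hW, hWx⟩ := h π₂
  have hV1 : star V * V = 1 := Unitary.star_mul_self_of_mem hV
  refine ⟨W * star V, mul_mem hW (Unitary.star_mem hV), fun x => ?_⟩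
  rw [hVx, hWx, star_mul, star_star]
  calc W * diag (vn hN) (ω : Filter ℕ) x * star W
      = W * (star V * V) * diag (vn hN) (ω : Filter ℕ) x * (star V * V) * star W := by
        rw [hV1, mul_one, mul_one]
    _ = W * star V * (V * diag (vn hN) (ω : Filter ℕ) x * star V) * (V * star W) := by
        simp only [mul_assoc]

theorem tensor_swap (hT : Stmt.IsTensor τ ρ σ) : Stmt.IsTensor τ σ ρ := by
  obtain ⟨i, j, hcomm, htr, hden⟩ := hT
  refine ⟨j, i, fun y x => (hcomm x y).symm, fun y x => ?_, fun z ε hε => ?_⟩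
  · rw [← hcomm, htr, mul_comm]
  · obtain ⟨m, a, b, hab⟩ := hden z ε hε
    refine ⟨m, b, a, ?_⟩
    have e : ∑ l, j (b l) * i (a l) = ∑ l, i (a l) * j (b l) :=
      Finset.sum_congr rfl fun l _ => (hcomm _ _).symm
    rw [e]
    exact hab

/-- The Jung property passes to both tensor factors if one of them does not have property Gamma. -/
theorem both (hM : Stmt.IsII1Factor τ) (hN : Stmt.IsII1Factor ρ) (hP : Stmt.IsII1Factor σ)
    (hT : Stmt.IsTensor τ ρ σ) (hG : ¬ Stmt.Gamma ρ ∨ ¬ Stmt.Gamma σ) (ω : Ultrafilter ℕ)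
    (hω : (ω : Filter ℕ) ≤ cofinite) (hJ : JungProperty (vn hM) (ω : Filter ℕ)) :
    JungProperty (vn hN) (ω : Filter ℕ) ∧ JungProperty (vn hP) (ω : Filter ℕ) := by
  rcases hG with hG | hG
  · exact ⟨jung_of_conj hN ω (conj_diag hM hN (vn hP) hT hG ω hω hJ),
      jung_of_conj hP ω (conj_diag' hM hP hN (tensor_swap hT) hG ω hω hJ)⟩
  · exact ⟨jung_of_conj hN ω (conj_diag' hM hN hP hT hG ω hω hJ),
      jung_of_conj hP ω (conj_diag hM hP (vn hN) (tensor_swap hT) hG ω hω hJ)⟩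

end Pool.Agent.H28.JT
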