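import Pool.Agent.H28.JT.Base

set_option autoImplicit false

/-!
# JT: truncation
-/

universe u

open Filter Topology H80VN

namespace Pool.Agent.H28.JT

attribute [local instance] CStarAlgebra.spectralOrder CStarAlgebra.spectralOrderedRing

variable {M N : Type u} [CStarAlgebra M] [TracialVN M] [CStarAlgebra N] [TracialVN N]

theorem tr_sq_mul_nonneg {a b : M} (ha : star a = a) (hb : 0 ≤ b) :
    0 ≤ (TracialVN.tr (a * a * b)).re := by
  have h1 : TracialVN.tr (a * a * b) = TracialVN.tr (star a * b * a) := by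
    rw [mul_assoc, TracialVN.tr_comm, ha]
  have h2 : (0 : M) ≤ star a * b * a := star_left_conjugate_nonneg hb a
  have h3 := tr_nonneg' h2
  rw [h1]
  exact (Complex.le_def.1 h3).1

theorem clip_inner {t z : M} (ht : star t = t) (hz : star z = z) {c : ℝ} (hc : 0 ≤ c)
    (hzc : ‖z‖ ≤ c) :
    0 ≤ (TracialVN.tr ((t - cfc (fun r : ℝ => max (-c) (min c r)) t) *
      (cfc (fun r : ℝ => max (-c) (min c r)) t - z))).re := by
  have htsa : IsSelfAdjoint t := ht
  have hzsa : IsSelfAdjoint z := hz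
  set φ : ℝ → ℝ := fun r => max (-c) (min c r) with hφ
  set f : ℝ → ℝ := fun r => max (r - c) 0 with hf
  set g : ℝ → ℝ := fun r => max (-c - r) 0 with hg
  have cφ : Continuous φ := by fun_prop
  have cf : Continuous f := by fun_prop
  have cg : Continuous g := by fun_prop
  set w : M := cfc φ t with hw
  set A : M := cfc (fun r => √(f r)) t with hA
  set B : M := cfc (fun r => √(g r)) t with hB
  have hAs : star A = A := (cfc_predicate (fun r => √(f r)) t : IsSelfAdjoint A)
  have hBs : star B = B := (cfc_predicate (fun r => √(g r)) t : IsSelfAdjoint B)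
  have cA : Continuous (fun r => √(f r)) := cf.sqrt
  have cB : Continuous (fun r => √(g r)) := cg.sqrt
  have hAA : A * A = cfc f t := by
    rw [hA, ← cfc_mul _ _ t cA.continuousOn cA.continuousOn]
    refine cfc_congr fun r _ => ?_
    exact Real.mul_self_sqrt (le_max_right _ _)
  have hBB : B * B = cfc g t := by
    rw [hB, ← cfc_mul _ _ t cB.continuousOn cB.continuousOn]
    refine cfc_congr fun r _ => ?_
    exact Real.mul_self_sqrt (le_max_right _ _)
  have hconst : cfc (fun _ : ℝ => c) t = algebraMap ℝ M c := cfc_const c t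
  have h1 : t - w = A * A - B * B := by
    rw [hAA, hBB, ← cfc_sub f g t cf.continuousOn cg.continuousOn]
    have h2 : t = cfc (fun r : ℝ => r) t := (cfc_id' ℝ t).symm
    have h3 : t - w = cfc (fun r => r - φ r) t := by
      rw [cfc_sub (fun r => r) φ t continuous_id.continuousOn cφ.continuousOn, ← h2]
    rw [h3]
    refine cfc_congr fun r _ => ?_
    simp only [hφ, hf, hg]
    rcases le_total c r with h | h
    · rw [min_eq_left h, max_eq_right (by linarith), max_eq_left (by linarith),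
        max_eq_right (by linarith), sub_zero]
    · rw [min_eq_right h, max_eq_right (a := r - c) (by linarith)]
      rcases le_total (-c) r with h' | h'
      · rw [max_eq_right h', max_eq_right (by linarith)]
        ring
      · rw [max_eq_left h', max_eq_left (by linarith)]
        ring
  have h2 : A * A * (w - algebraMap ℝ M c) = 0 := by
    rw [hAA, hw, ← hconst, ← cfc_sub φ (fun _ => c) t cφ.continuousOn continuous_const.continuousOn,
      ← cfc_mul f (fun r => φ r - c) t cf.continuousOn (cφ.sub continuous_const).continuousOn]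
    have h3 : cfc (fun r => f r * (φ r - c)) t = cfc (fun _ : ℝ => (0 : ℝ)) t := by
      refine cfc_congr fun r _ => ?_
      simp only [hφ, hf]
      rcases le_total c r with h | h
      · rw [min_eq_left h, max_eq_right (a := -c) (by linarith), sub_self, mul_zero]
      · rw [max_eq_right (a := r - c) (by linarith), zero_mul]
    rw [h3, cfc_const_zero]
  have h3 : B * B * (w + algebraMap ℝ M c) = 0 := by
    rw [hBB, hw, ← hconst, ← cfc_add t φ (fun _ => c) cφ.continuousOn continuous_const.continuousOn,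
      ← cfc_mul g (fun r => φ r + c) t cg.continuousOn (cφ.add continuous_const).continuousOn]
    have h4 : cfc (fun r => g r * (φ r + c)) t = cfc (fun _ : ℝ => (0 : ℝ)) t := by
      refine cfc_congr fun r _ => ?_
      simp only [hφ, hg]
      rcases le_total r (-c) with h | h
      · rw [min_eq_right (by linarith), max_eq_left h]
        ring
      · rw [max_eq_right (a := -c - r) (by linarith), zero_mul]
    rw [h4, cfc_const_zero]
  have hz1 : 0 ≤ algebraMap ℝ M c - z := by
    rw [sub_nonneg]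
    refine hzsa.le_algebraMap_norm_self.trans ?_
    exact algebraMap_mono M hzc
  have hz2 : 0 ≤ algebraMap ℝ M c + z := by
    have h4 := hzsa.neg_algebraMap_norm_le_self
    have h5 : algebraMap ℝ M ‖z‖ ≤ algebraMap ℝ M c := algebraMap_mono M hzc
    have h6 : -(algebraMap ℝ M c) ≤ z := (neg_le_neg h5).trans h4
    have h8 : -(algebraMap ℝ M c) + algebraMap ℝ M c ≤ z + algebraMap ℝ M c :=
      add_le_add h6 le_rfl
    rwa [neg_add_cancel, add_comm] at h8
  have e1 := tr_sq_mul_nonneg hAs hz1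
  have e2 := tr_sq_mul_nonneg hBs hz2
  have h4 : (t - w) * (w - z) = A * A * (algebraMap ℝ M c - z) + B * B * (algebraMap ℝ M c + z) := by
    have h5 : A * A * (w - z) = A * A * (w - algebraMap ℝ M c) + A * A * (algebraMap ℝ M c - z) := by
      rw [← mul_add]
      congr 1
      abel
    have h6 : B * B * (w - z) = B * B * (w + algebraMap ℝ M c) - B * B * (algebraMap ℝ M c + z) := by
      rw [← mul_sub]
      congr 1
      abel
    rw [h1, sub_mul, h5, h6, h2, h3]
    abel
  rw [h4, map_add, Complex.add_re]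
  exact add_nonneg e1 e2

theorem n2_add_sq (x y : M) :
    n2 (x + y) ^ 2 = n2 x ^ 2 + 2 * (TracialVN.tr (star x * y)).re + n2 y ^ 2 := by
  have := norm_add_sq (𝕜 := ℂ) (toL2 x) (toL2 y)
  rw [← map_add, inner_toL2] at this
  exact this

theorem clip_near {t z : M} (ht : star t = t) (hz : star z = z) {c : ℝ} (hc : 0 ≤ c)
    (hzc : ‖z‖ ≤ c) : n2 (cfc (fun r : ℝ => max (-c) (min c r)) t - t) ≤ n2 (z - t) ∧
      n2 (cfc (fun r : ℝ => max (-c) (min c r)) t - z) ≤ n2 (z - t) := by
  have h1 := clip_inner ht hz hc hzc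
  set w : M := cfc (fun r : ℝ => max (-c) (min c r)) t with hw
  have hws : star w = w := (cfc_predicate (fun r : ℝ => max (-c) (min c r)) t : IsSelfAdjoint w)
  have h2 := n2_add_sq (t - w) (w - z)
  rw [star_sub, ht, hws, sub_add_sub_cancel] at h2
  rw [n2_sub_comm w t, n2_sub_comm z t]
  have h3 : n2 (t - w) ^ 2 ≤ n2 (t - z) ^ 2 := by nlinarith [sq_nonneg (n2 (w - z))]
  have h4 : n2 (w - z) ^ 2 ≤ n2 (t - z) ^ 2 := by nlinarith [sq_nonneg (n2 (t - w))]
  exact ⟨(sq_le_sq₀ (n2_nonneg _) (n2_nonneg _)).1 h3,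
    (sq_le_sq₀ (n2_nonneg _) (n2_nonneg _)).1 h4⟩

/-- The self-adjoint case of `range_closed`. -/
theorem range_closed_sa (i : N →⋆ₐ[ℂ] M) (hi : ∀ x, TracialVN.tr (i x) = TracialVN.tr x) {e : M}
    (he : star e = e) (h : ∀ ε : ℝ, 0 < ε → ∃ x : N, n2 (e - i x) < ε) : ∃ x : N, i x = e := by
  have hsa : ∀ ε : ℝ, 0 < ε → ∃ x : N, star x = x ∧ n2 (e - i x) < ε := by
    intro ε hε
    obtain ⟨x, hx⟩ := h ε hε
    refine ⟨(1 / 2 : ℂ) • (x + star x), ?_, ?_⟩
    · rw [star_smul, star_add, star_star, add_comm]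
      congr 1
      simp
    · have h1 : e - i ((1 / 2 : ℂ) • (x + star x)) =
          (1 / 2 : ℂ) • ((e - i x) + star (e - i x)) := by
        rw [map_smul, map_add, map_star, star_sub, he]
        have h2 : e - i x + (e - star (i x)) = (2 : ℂ) • e - (i x + star (i x)) := by
          rw [two_smul]
          abel
        rw [h2, smul_sub, smul_smul]
        norm_num
      rw [h1, n2_smul]
      have h2 := n2_add_le (e - i x) (star (e - i x))
      rw [n2_star] at h2
      have h3 : ‖(1 / 2 : ℂ)‖ = 1 / 2 := by norm_num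
      rw [h3]
      linarith
  have hex : ∀ n : ℕ, ∃ x : N, ‖x‖ ≤ ‖e‖ ∧ n2 (e - i x) ≤ 1 / ((n : ℝ) + 1) := by
    intro n
    obtain ⟨x, hx, hx'⟩ := hsa (1 / ((n : ℝ) + 1)) (by positivity)
    have hxsa : IsSelfAdjoint x := hx
    have hc : Continuous (fun r : ℝ => max (-‖e‖) (min ‖e‖ r)) := by fun_prop
    refine ⟨cfc (fun r : ℝ => max (-‖e‖) (min ‖e‖ r)) x, ?_, ?_⟩
    · refine norm_cfc_le (norm_nonneg _) fun r _ => ?_
      rw [Real.norm_eq_abs, abs_le]
      refine ⟨le_max_left _ _, max_le ?_ (min_le_left _ _)⟩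
      have := norm_nonneg e
      linarith
    · have h1 : i (cfc (fun r : ℝ => max (-‖e‖) (min ‖e‖ r)) x) =
          cfc (fun r : ℝ => max (-‖e‖) (min ‖e‖ r)) (i x) :=
        StarAlgHomClass.map_cfc (S := ℂ) i _ x hc.continuousOn
      have h2 : star (i x) = i x := by rw [← map_star, hx]
      have h3 := (clip_near h2 he (norm_nonneg e) le_rfl).2
      rw [h1, n2_sub_comm]
      exact h3.trans hx'.le
  choose x hx hxe using hex
  have hlim0 : Tendsto (fun n : ℕ => 1 / ((n : ℝ) + 1)) atTop (𝓝 0) :=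
    tendsto_one_div_add_atTop_nhds_zero_nat
  have hT : T2 (fun n => i (x n)) e := by
    refine T2.of_le hlim0 fun n => ?_
    rw [n2_sub_comm]
    exact hxe n
  have hcau : ∀ ε : ℝ, 0 < ε → ∃ K, ∀ m ≥ K, ∀ n ≥ K, n2 (x m - x n) < ε := by
    intro ε hε
    obtain ⟨K, hK⟩ := (hlim0.eventually (gt_mem_nhds (show (0 : ℝ) < ε / 2 by positivity))).exists
    have hb : ∀ k ≥ K, n2 (e - i (x k)) < ε / 2 := by
      intro k hk
      refine ((hxe k).trans ?_).trans_lt hK
      have : (K : ℝ) ≤ k := by exact_mod_cast hk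
      gcongr
    refine ⟨K, fun m hm n hn => ?_⟩
    rw [← n2_map i hi, map_sub]
    have h1 : i (x m) - i (x n) = (e - i (x n)) - (e - i (x m)) := by abel
    rw [h1]
    refine (n2_sub_le _ _).trans_lt ?_
    have := hb m hm
    have := hb n hn
    linarith
  obtain ⟨y, _, hy⟩ := exists_lim hx hcau
  refine ⟨y, ?_⟩
  have h1 : T2 (fun n => i (x n)) (i y) := by
    unfold T2
    refine hy.congr fun n => ?_
    rw [← map_sub, n2_map i hi]
  exact h1.unique hT

theorem range_closed (i : N →⋆ₐ[ℂ] M) (hi : ∀ x, TracialVN.tr (i x) = TracialVN.tr x) {e : M}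
    (h : ∀ ε : ℝ, 0 < ε → ∃ x : N, n2 (e - i x) < ε) : ∃ x : N, i x = e := by
  have hs : ∀ ε : ℝ, 0 < ε → ∃ x : N, n2 (star e - i x) < ε := by
    intro ε hε
    obtain ⟨x, hx⟩ := h ε hε
    refine ⟨star x, ?_⟩
    rw [map_star, ← star_sub, n2_star]
    exact hx
  have hlin : ∀ c : ℂ, ∀ ε : ℝ, 0 < ε → ∃ x : N, n2 ((e + c • star e) - i x) < ε := by
    intro c ε hε
    obtain ⟨x, hx⟩ := h (ε / 2) (by positivity)
    obtain ⟨y, hy⟩ := hs (ε / (2 * (‖c‖ + 1))) (by positivity)
    refine ⟨x + c • y, ?_⟩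
    have h1 : e + c • star e - i (x + c • y) = (e - i x) + c • (star e - i y) := by
      rw [map_add, map_smul, smul_sub]
      abel
    rw [h1]
    refine (n2_add_le _ _).trans_lt ?_
    rw [n2_smul]
    have h2 : ‖c‖ * n2 (star e - i y) ≤ ‖c‖ * (ε / (2 * (‖c‖ + 1))) := by gcongr
    have h3 : ‖c‖ * (ε / (2 * (‖c‖ + 1))) ≤ ε / 2 := by
      have h4 : (‖c‖ + 1) * (ε / (2 * (‖c‖ + 1))) = ε / 2 := by field_simp
      have h5 : 0 ≤ ε / (2 * (‖c‖ + 1)) := by positivity
      nlinarith
    linarith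
  have hsm : ∀ (c : ℂ) (a : M), (∀ ε : ℝ, 0 < ε → ∃ x : N, n2 (a - i x) < ε) →
      ∀ ε : ℝ, 0 < ε → ∃ x : N, n2 (c • a - i x) < ε := by
    intro c a ha ε hε
    obtain ⟨y, hy⟩ := ha (ε / (‖c‖ + 1)) (by positivity)
    refine ⟨c • y, ?_⟩
    rw [map_smul, ← smul_sub, n2_smul]
    have h4 : (‖c‖ + 1) * (ε / (‖c‖ + 1)) = ε := by field_simp
    have h5 : 0 ≤ n2 (a - i y) := n2_nonneg _
    have h6 : (‖c‖ + 1) * n2 (a - i y) < (‖c‖ + 1) * (ε / (‖c‖ + 1)) := by gcongr
    nlinarith
  have h1 := range_closed_sa i hi (e := e + star e) (by rw [star_add, star_star, add_comm]) (by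
    intro ε hε
    have := hlin 1 ε hε
    rwa [one_smul] at this)
  have h2 := range_closed_sa i hi (e := Complex.I • (e - star e)) (by
    rw [star_smul, star_sub, star_star, Complex.star_def, Complex.conj_I, neg_smul, ← smul_neg,
      neg_sub]) (by
    apply hsm
    intro ε hε
    have := hlin (-1) ε hε
    rwa [neg_one_smul, ← sub_eq_add_neg] at this)
  obtain ⟨x, hx⟩ := h1
  obtain ⟨y, hy⟩ := h2
  refine ⟨(1 / 2 : ℂ) • (x - Complex.I • y), ?_⟩
  have h3 : e + star e - (star e - e) = (2 : ℂ) • e := by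
    rw [two_smul]
    abel
  rw [map_smul, map_sub, map_smul, hx, hy, smul_smul, Complex.I_mul_I, neg_one_smul, neg_sub, h3,
    smul_smul]
  norm_num

end Pool.Agent.H28.JT
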