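import Pool.Agent.H28.JT.Clip

set_option autoImplicit false
set_option linter.unusedSectionVars false

/-!
# JT: the conditional expectation onto a tensor factor
-/

universe u

open Filter Topology H80VN

namespace Pool.Agent.H28.JT

variable {M N P : Type u} [CStarAlgebra M] [TracialVN M] [CStarAlgebra N] [TracialVN N]
  [CStarAlgebra P] [TracialVN P]

/-- A weighted average of conjugates. -/
noncomputable def av {ι : Type} (t : Finset ι) (w : ι → ℝ) (u : ι → M) (x : M) : M :=
  ∑ k ∈ t, w k • (u k * x * star (u k))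

section av

variable {ι : Type} {t : Finset ι} {w : ι → ℝ} {u : ι → M}

theorem av_n2_le (hw : ∀ k ∈ t, 0 ≤ w k) (hs : ∑ k ∈ t, w k = 1) (hu : ∀ k ∈ t, u k ∈ unitary M)
    (x : M) : n2 (av t w u x) ≤ n2 x := by
  have h1 : n2 (av t w u x) ≤ ∑ k ∈ t, w k * n2 x := by
    have h2 := norm_sum_le t (fun k => toL2 (w k • (u k * x * star (u k))))
    rw [← map_sum] at h2
    refine h2.trans (Finset.sum_le_sum fun k hk => ?_)
    rw [norm_toL2, n2_rsmul, abs_of_nonneg (hw k hk), n2_conj (hu k hk)]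
  rwa [← Finset.sum_mul, hs, one_mul] at h1

theorem av_sub (x y : M) : av t w u (x - y) = av t w u x - av t w u y := by
  unfold av
  rw [← Finset.sum_sub_distrib]
  refine Finset.sum_congr rfl fun k _ => ?_
  rw [mul_sub, sub_mul, smul_sub]

theorem av_fixed (hs : ∑ k ∈ t, w k = 1) (hu : ∀ k ∈ t, u k ∈ unitary M) {x : M}
    (hx : ∀ k ∈ t, u k * x = x * u k) : av t w u x = x := by
  have h1 : av t w u x = ∑ k ∈ t, w k • x := by
    refine Finset.sum_congr rfl fun k hk => ?_
    rw [hx k hk, mul_assoc, Unitary.mul_star_self_of_mem (hu k hk), mul_one]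
  rw [h1, ← Finset.sum_smul, hs, one_smul]

theorem av_tr (hs : ∑ k ∈ t, w k = 1) (hu : ∀ k ∈ t, u k ∈ unitary M) (x : M) :
    TracialVN.tr (av t w u x) = TracialVN.tr x := by
  unfold av
  rw [map_sum]
  have h1 : ∀ k ∈ t, TracialVN.tr (w k • (u k * x * star (u k))) = (w k : ℂ) * TracialVN.tr x := by
    intro k hk
    have h2 : w k • (u k * x * star (u k)) = (w k : ℂ) • (u k * x * star (u k)) := by simp
    rw [h2, map_smul, smul_eq_mul]
    congr 1
    exact tr_conj (hu k hk) x
  rw [Finset.sum_congr rfl h1, ← Finset.sum_mul, ← Complex.ofReal_sum, hs, Complex.ofReal_one,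
    one_mul]

end av

theorem exists_multi_average (hP : IsFactor P) {m : ℕ} (b : Fin m → P) {ε : ℝ} (hε : 0 < ε) :
    ∃ (ι : Type) (t : Finset ι) (w : ι → ℝ) (u : ι → P), (∀ k ∈ t, 0 ≤ w k) ∧
      ∑ k ∈ t, w k = 1 ∧ (∀ k ∈ t, u k ∈ unitary P) ∧ ∀ l,
      n2 (∑ k ∈ t, w k • (u k * b l * star (u k)) - TracialVN.tr (b l) • (1 : P)) < ε := by
  induction m with
  | zero =>
    refine ⟨Unit, {()}, fun _ => 1, fun _ => 1, fun _ _ => zero_le_one, by simp,
      fun _ _ => one_mem _, fun l => l.elim0⟩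
  | succ m ih =>
    obtain ⟨ι, t, w, u, hw, hs, hu, h1⟩ := ih (fun l => b l.castSucc)
    obtain ⟨ι', t', w', u', hw', hs', hu', h2⟩ := exists_average hP (av t w u (b (Fin.last m))) hε
    have hcomp : ∀ x : P, ∑ k ∈ t' ×ˢ t, (w' k.1 * w k.2) •
        ((u' k.1 * u k.2) * x * star (u' k.1 * u k.2)) = av t' w' u' (av t w u x) := by
      intro x
      rw [Finset.sum_product]
      unfold av
      refine Finset.sum_congr rfl fun a _ => ?_
      rw [Finset.mul_sum, Finset.sum_mul, Finset.smul_sum]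
      refine Finset.sum_congr rfl fun c _ => ?_
      rw [mul_smul_comm, smul_mul_assoc, smul_smul, star_mul]
      simp only [mul_assoc]
    refine ⟨ι' × ι, t' ×ˢ t, fun k => w' k.1 * w k.2, fun k => u' k.1 * u k.2, ?_, ?_, ?_, ?_⟩
    · intro k hk
      rw [Finset.mem_product] at hk
      exact mul_nonneg (hw' _ hk.1) (hw _ hk.2)
    · rw [Finset.sum_product]
      simp only
      have h3 : ∀ a ∈ t', ∑ c ∈ t, w' a * w c = w' a := by
        intro a _
        rw [← Finset.mul_sum, hs, mul_one]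
      rw [Finset.sum_congr rfl h3, hs']
    · intro k hk
      rw [Finset.mem_product] at hk
      exact mul_mem (hu' _ hk.1) (hu _ hk.2)
    · intro l
      rw [hcomp]
      refine Fin.lastCases ?_ (fun l => ?_) l
      · have h3 := av_tr hs hu (b (Fin.last m))
        rw [h3] at h2
        exact h2
      · have h3 : av t' w' u' (av t w u (b l.castSucc)) - TracialVN.tr (b l.castSucc) • (1 : P) =
            av t' w' u' (av t w u (b l.castSucc) - TracialVN.tr (b l.castSucc) • (1 : P)) := by
          rw [av_sub, av_fixed (x := TracialVN.tr (b l.castSucc) • (1 : P)) hs' hu' (fun k _ => by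
            rw [mul_smul_comm, smul_mul_assoc, mul_one, one_mul])]
        rw [h3]
        exact (av_n2_le hw' hs' hu' _).trans_lt (h1 l)

variable {i : N →⋆ₐ[ℂ] M} {j : P →⋆ₐ[ℂ] M}

theorem mem_unitary_map (j : P →⋆ₐ[ℂ] M) {v : P} (hv : v ∈ unitary P) : j v ∈ unitary M := by
  rw [Unitary.mem_iff] at hv ⊢
  rw [← map_star, ← map_mul, ← map_mul, hv.1, hv.2, map_one]
  exact ⟨rfl, rfl⟩

/-- An element commuting with the unitaries of one tensor factor lies in the other one. -/
theorem exists_of_comm (hP : IsFactor P) (h : Ten i j) {e : M}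
    (he : ∀ v ∈ unitary P, j v * e = e * j v) : ∃ x : N, i x = e := by
  refine range_closed i h.tr_i fun ε hε => ?_
  obtain ⟨m, a, b, hab⟩ := h.dense e (ε / 2) (by positivity)
  set S : ℝ := ∑ l, ‖a l‖ with hS
  have hS0 : 0 ≤ S := Finset.sum_nonneg fun l _ => norm_nonneg _
  obtain ⟨ι, t, w, u, hw, hs, hu, h1⟩ := exists_multi_average hP b
    (show 0 < ε / (2 * (S + 1)) by positivity)
  refine ⟨∑ l, TracialVN.tr (b l) • a l, ?_⟩
  have hju : ∀ k ∈ t, j (u k) ∈ unitary M := fun k hk => mem_unitary_map j (hu k hk)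
  have h2 : av t w (fun k => j (u k)) e = e := av_fixed hs hju fun k hk => he _ (hu k hk)
  have h3 : av t w (fun k => j (u k)) (∑ l, i (a l) * j (b l)) =
      ∑ l, i (a l) * j (∑ k ∈ t, w k • (u k * b l * star (u k))) := by
    unfold av
    have e1 : ∀ k ∈ t, w k • (j (u k) * (∑ l, i (a l) * j (b l)) * star (j (u k))) =
        ∑ l, i (a l) * (w k • j (u k * b l * star (u k))) := by
      intro k _
      rw [Finset.mul_sum, Finset.sum_mul, Finset.smul_sum]
      refine Finset.sum_congr rfl fun l _ => ?_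
      rw [mul_smul_comm]
      congr 1
      rw [← map_star, ← mul_assoc, ← h.comm, map_mul, map_mul]
      simp only [mul_assoc]
    rw [Finset.sum_congr rfl e1, Finset.sum_comm]
    refine Finset.sum_congr rfl fun l _ => ?_
    rw [← Finset.mul_sum, map_sum]
    congr 1
    refine Finset.sum_congr rfl fun k _ => ?_
    have e2 : w k • (u k * b l * star (u k)) = (w k : ℂ) • (u k * b l * star (u k)) := by simp
    rw [e2, map_smul]
    simp
  have h4 : n2 (e - ∑ l, i (a l) * j (∑ k ∈ t, w k • (u k * b l * star (u k)))) < ε / 2 := by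
    rw [← h3]
    nth_rw 1 [← h2]
    rw [← av_sub]
    exact (av_n2_le hw hs hju _).trans_lt hab
  have h5 : n2 (∑ l, i (a l) * j (∑ k ∈ t, w k • (u k * b l * star (u k))) -
      i (∑ l, TracialVN.tr (b l) • a l)) ≤ S * (ε / (2 * (S + 1))) := by
    have e1 : ∑ l, i (a l) * j (∑ k ∈ t, w k • (u k * b l * star (u k))) -
        i (∑ l, TracialVN.tr (b l) • a l) = ∑ l, i (a l) *
        j (∑ k ∈ t, w k • (u k * b l * star (u k)) - TracialVN.tr (b l) • (1 : P)) := by
      rw [map_sum, ← Finset.sum_sub_distrib]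
      refine Finset.sum_congr rfl fun l _ => ?_
      rw [map_sub, mul_sub, map_smul, map_smul, map_one, mul_smul_comm, mul_one]
    rw [e1, hS, Finset.sum_mul]
    have e2 := norm_sum_le Finset.univ (fun l => toL2 (i (a l) *
        j (∑ k ∈ t, w k • (u k * b l * star (u k)) - TracialVN.tr (b l) • (1 : P))))
    rw [← map_sum] at e2
    refine e2.trans (Finset.sum_le_sum fun l _ => ?_)
    rw [norm_toL2]
    refine (n2_mul_le_left _ _).trans ?_
    rw [norm_map' i h.tr_i, h.n2_j]
    have := (h1 l).le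
    gcongr
  have h6 : S * (ε / (2 * (S + 1))) ≤ ε / 2 := by
    have h7 : (S + 1) * (ε / (2 * (S + 1))) = ε / 2 := by field_simp
    have h8 : 0 ≤ ε / (2 * (S + 1)) := by positivity
    nlinarith
  have h7 : e - i (∑ l, TracialVN.tr (b l) • a l) =
      (e - ∑ l, i (a l) * j (∑ k ∈ t, w k • (u k * b l * star (u k)))) +
      (∑ l, i (a l) * j (∑ k ∈ t, w k • (u k * b l * star (u k))) -
      i (∑ l, TracialVN.tr (b l) • a l)) := by abel
  rw [h7]
  refine (n2_add_le _ _).trans_lt ?_
  linarith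

theorem exists_cond' (hP : IsFactor P) (h : Ten i j) (z : M) :
    ∃ x : N, ‖x‖ ≤ ‖z‖ ∧ ∀ y : N, TracialVN.tr (z * i y) = TracialVN.tr (x * y) := by
  let K : Set M := {w | ‖w‖ ≤ ‖z‖ ∧ ∀ y : N, TracialVN.tr (w * i y) = TracialVN.tr (z * i y)}
  obtain ⟨e, he, hcomm⟩ := exists_fixed (K := K) (C := ‖z‖) ⟨z, le_rfl, fun _ => rfl⟩
    (by
      rintro p ⟨hp, hp'⟩ q ⟨hq, hq'⟩ s t hs ht hst
      refine ⟨convex_norm_ball _ hp hq hs ht hst, fun y => ?_⟩
      have e1 : s • p = (s : ℂ) • p := by simp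
      have e2 : t • q = (t : ℂ) • q := by simp
      rw [e1, e2, add_mul, smul_mul_assoc, smul_mul_assoc, map_add, map_smul, map_smul, hp' y, hq' y,
        ← add_smul, ← Complex.ofReal_add, hst, Complex.ofReal_one, one_smul])
    (fun w hw => hw.1)
    (by
      intro x w hx hxw
      refine ⟨hxw.norm_le fun n => (hx n).1, fun y => ?_⟩
      have h1 := (hxw.mul_right (i y)).tr
      refine tendsto_nhds_unique h1 ?_
      have h2 : (fun n => TracialVN.tr (x n * i y)) = fun _ => TracialVN.tr (z * i y) := by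
        funext n
        exact (hx n).2 y
      rw [h2]
      exact tendsto_const_nhds)
    (j '' (unitary P : Set P))
    (by
      rintro _ ⟨v, hv, rfl⟩
      exact mem_unitary_map j hv)
    (by
      rintro _ ⟨v, hv, rfl⟩ w ⟨hw, hw'⟩
      have hju := mem_unitary_map j hv
      refine ⟨(norm_conj_le hju w).trans hw, fun y => ?_⟩
      rw [← hw' y]
      have e1 : j v * w * star (j v) * i y = j v * (w * i y) * star (j v) := by
        have e2 : star (j v) * i y = i y * star (j v) := by
          rw [← map_star]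
          exact (h.comm _ _).symm
        rw [mul_assoc, e2]
        simp only [mul_assoc]
      rw [e1]
      exact tr_conj hju _)
  obtain ⟨x, hx⟩ := exists_of_comm hP h (e := e) fun v hv => hcomm _ ⟨v, hv, rfl⟩
  refine ⟨x, ?_, fun y => ?_⟩
  · rw [← norm_map' i h.tr_i x, hx]
    exact he.1
  · rw [← he.2 y, ← hx, ← map_mul, h.tr_i]

theorem exists_cond (hP : IsFactor P) (h : Ten i j) (z : M) :
    ∃ x : N, ∀ y : N, TracialVN.tr (z * i y) = TracialVN.tr (x * y) := by
  obtain ⟨x, -, hx⟩ := exists_cond' hP h z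
  exact ⟨x, hx⟩

end Pool.Agent.H28.JT
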