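import Pool.Agent.H28.JP.Defs

set_option autoImplicit false

/-!
# Tensor factors and the Jung property: definitions

Definitions used in the statement `TensorFactor` on `MP_0c927e_an`, next to those of
`Pool.Agent.H28.JP.Defs`, `Pool.Agent.H80.VNStmt` and `Pool.Agent.H68.Amp.UStmt`.
-/

universe u

open Filter Topology H80VN Pool.Agent.H68.Amp

namespace Pool.Agent.H28.JT

variable {A M N P : Type u} [CStarAlgebra A] [CStarAlgebra M] [CStarAlgebra N] [CStarAlgebra P]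

/-- `M` is the tensor product of `N` and `P` by means of the embeddings `i` and `j`: the images of
`i` and `j` commute, `τ (i x * j y) = ρ x * σ y`, and the span of the products `i x * j y` is dense in
the 2-norm. -/
structure TensorVia (τ : M →ₗ[ℂ] ℂ) (ρ : N →ₗ[ℂ] ℂ) (σ : P →ₗ[ℂ] ℂ) (i : N →⋆ₐ[ℂ] M)
    (j : P →⋆ₐ[ℂ] M) : Prop where
  comm : ∀ x y, i x * j y = j y * i x
  trace : ∀ x y, τ (i x * j y) = ρ x * σ y
  dense : ∀ (z : M) (ε : ℝ), 0 < ε → ∃ (m : ℕ) (a : Fin m → N) (b : Fin m → P),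
    Stmt.norm2 τ (z - ∑ l, i (a l) * j (b l)) < ε

/-- the sequence `i (s k)`. -/
noncomputable def seqMap (i : N →⋆ₐ[ℂ] M) (s : LInf N) : LInf M :=
  ⟨fun k => i (s.seq k), by
    obtain ⟨C, hC⟩ := s.2
    exact ⟨C, fun k => (NonUnitalStarAlgHom.norm_apply_le i _).trans (hC k)⟩⟩

section

variable {τ : M →ₗ[ℂ] ℂ} {ρ : N →ₗ[ℂ] ℂ} (hM : Stmt.IsTracialVN τ) (hN : Stmt.IsTracialVN ρ)
  (ω : Filter ℕ)

/-- `I : N^ω → M^ω` is the map induced by `i : N → M`: it maps the class of `(s_k)` to the class of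
`(i s_k)`. -/
def IsInduced (i : N →⋆ₐ[ℂ] M) (I : UPow hN ω →⋆ₐ[ℂ] UPow hM ω) : Prop :=
  ∀ s : LInf N, I (UPow.mk hN ω s) = UPow.mk hM ω (seqMap i s)

/-- The unital ⋆-homomorphism `p : A → N^ω` maps the functional `α` of `A` to the trace of `N^ω`: if
`p x` is the class of the bounded sequence `s`, then `lim_ω ρ (s_k) = α x`. -/
def Pres (α : A →ₗ[ℂ] ℂ) (p : A →⋆ₐ[ℂ] UPow hN ω) : Prop :=
  ∀ (x : A) (s : LInf N), UPow.mk hN ω s = p x → Tendsto (fun k => ρ (s.seq k)) ω (𝓝 (α x))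

/-- `p` and `q` are conjugate by a unitary of `N^ω`. -/
def Conj (p q : A →⋆ₐ[ℂ] UPow hN ω) : Prop :=
  ∃ u ∈ unitary (UPow hN ω), ∀ x, q x = u * p x * star u

end

/-- If trace preserving unital ⋆-homomorphisms `p, q` of a C⋆-algebra `A` with a tracial state `α`,
separable in the 2-norm of `α`, into `N^ω` are conjugate by a unitary of `M^ω` (after composition with
the map `N^ω → M^ω` induced by `i`), they are conjugate by a unitary of `N^ω`. -/
def ConjDescends {τ : M →ₗ[ℂ] ℂ} {ρ : N →ₗ[ℂ] ℂ} (hM : Stmt.IsTracialVN τ)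
    (hN : Stmt.IsTracialVN ρ) (ω : Filter ℕ) (i : N →⋆ₐ[ℂ] M) : Prop :=
  ∀ (I : UPow hN ω →⋆ₐ[ℂ] UPow hM ω), IsInduced hM hN ω i I →
    ∀ (A : Type u) [CStarAlgebra A] (α : A →ₗ[ℂ] ℂ), Stmt.Separable α →
      ∀ p q : A →⋆ₐ[ℂ] UPow hN ω, Pres hN ω α p → Pres hN ω α q →
        Conj hM ω (I.comp p) (I.comp q) → Conj hN ω p q

end Pool.Agent.H28.JT
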