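import Pool.Agent.H28.JT.Gen

set_option autoImplicit false

/-!
# JT: unitary conjugacy descends to tensor factors
-/

universe u

open Filter Topology H80VN Pool.Agent.H68.Amp Pool.Agent.H28.JP

namespace Pool.Agent.H28.JT

theorem n2_ssm_sub_one_sq {N : Type u} [CStarAlgebra N] [TracialVN N] {b : N} (hb : ‖b‖ ≤ 1) :
    n2 (star b * b - 1) ^ 2 ≤ 1 - n2 b ^ 2 := by
  have h1 : n2 (star b * b - 1) ^ 2 = n2 (star b * b) ^ 2 - 2 * n2 b ^ 2 + 1 := by
    rw [n2_sub_sq, star_one, one_mul, ← n2_sq, n2_one, one_pow]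
  have h2 : n2 (star b * b) ≤ n2 b :=
    n2_mul_le_of_norm_le_one_left (by rwa [norm_star]) b
  have h3 : n2 (star b * b) ^ 2 ≤ n2 b ^ 2 := pow_le_pow_left₀ (n2_nonneg _) h2 2
  linarith

variable {M N P : Type u} [CStarAlgebra M] [CStarAlgebra N] [CStarAlgebra P]
  {τ : M →ₗ[ℂ] ℂ} {ρ : N →ₗ[ℂ] ℂ} {σ : P →ₗ[ℂ] ℂ}

theorem conj_descends (hM : Stmt.IsII1Factor τ) (hN : Stmt.IsTracialVN ρ)
    (hP : Stmt.IsTracialVN σ) {i : N →⋆ₐ[ℂ] M} {j : P →⋆ₐ[ℂ] M} (hij : TensorVia τ ρ σ i j)
    (ω : Ultrafilter ℕ) (hω : (ω : Filter ℕ) ≤ cofinite) :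
    ConjDescends (vn hM) hN (ω : Filter ℕ) i := by
  intro I hI A _ α hsep ψ π hψ hπ hconj
  obtain ⟨u, hu, hux⟩ := hconj
  have hω' : (ω : Filter ℕ) ≤ atTop := hω.trans Nat.cofinite_eq_atTop.le
  have hPf : IsFactor P := by
    let _ : TracialVN M := toTracialVN (vn hM)
    let _ : TracialVN N := toTracialVN hN
    let _ : TracialVN P := toTracialVN hP
    exact factor_right (i := i) (j := j) (show IsFactor M from hM.2.1)
      ⟨hij.comm, hij.trace, hij.dense⟩
  have hi : ∀ x, τ (i x) = ρ x := by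
    let _ : TracialVN M := toTracialVN (vn hM)
    let _ : TracialVN N := toTracialVN hN
    let _ : TracialVN P := toTracialVN hP
    exact Ten.tr_i (i := i) (j := j) ⟨hij.comm, hij.trace, hij.dense⟩
  have hu1 : star u * u = 1 := Unitary.star_mul_self_of_mem hu
  have hu2 : u * star u = 1 := Unitary.mul_star_self_of_mem hu
  have hux' : ∀ x, I (π x) = u * I (ψ x) * star u := hux
  have hIu : ∀ x, I (π x) * u = u * I (ψ x) := by
    intro x
    rw [hux', mul_assoc, hu1, mul_one]
  have huI : ∀ x, star u * I (π x) = I (ψ x) * star u := by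
    intro x
    rw [hux', mul_assoc u, ← mul_assoc (star u), hu1, one_mul]
  obtain ⟨tM, htM, htM1, htMc, htMp⟩ := exists_utr' (vn hM) ω
  obtain ⟨tN, htN, htN1, htNc, htNp⟩ := exists_utr' hN ω
  obtain ⟨b, hb, hbi, hmax⟩ := exists_max hN hsep ω hω' π ψ hπ hψ tN htN
  set B : UPow hN (ω : Filter ℕ) := UPow.mk hN (ω : Filter ℕ) b with hB
  have hE : UPow.mk hN (ω : Filter ℕ) (1 - b * star b) = 1 - B * star B := by
    rw [map_sub, map_one, map_mul, ← UPow.star_mk]
  have hD : UPow.mk hN (ω : Filter ℕ) (1 - star b * b) = 1 - star B * B := by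
    rw [map_sub, map_one, map_mul, ← UPow.star_mk]
  -- localisation
  have hC : ∀ w : UPow (vn hM) (ω : Filter ℕ), (∀ x, I (π x) * w = w * I (ψ x)) →
      I (1 - B * star B) * w * I (1 - star B * B) = 0 := by
    intro w hw
    by_contra hne
    rw [← hE, ← hD] at hne
    obtain ⟨v, R, hR, hv, hvi, hv0⟩ := transfer (vn hM) hN hP hPf hij hsep ω hω' π ψ hπ hψ I hI w hw
      (1 - b * star b) (1 - star b * b)
      (fun k => by
        show ‖1 - b.seq k * star (b.seq k)‖ ≤ 1
        have h1 := norm_one_sub_ssm (b := star (b.seq k)) (by rw [norm_star]; exact hb k)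
        rwa [star_star] at h1)
      (fun k => norm_one_sub_ssm (hb k)) hne
    exact hv0 (max_zero hN ω π ψ tN htN htNp b hb hbi hmax v hR hv hvi)
  -- cancellation
  set c : UPow (vn hM) (ω : Filter ℕ) := star u * I B with hc
  have hcc : ∀ x, c * I (ψ x) = I (ψ x) * c := by
    intro x
    calc c * I (ψ x) = star u * (I B * I (ψ x)) := by rw [hc, mul_assoc]
      _ = star u * I (π x) * I B := by rw [← map_mul I, ← hbi, map_mul I, mul_assoc]
      _ = I (ψ x) * c := by rw [huI, mul_assoc]
  have hcs : ∀ x, star c * I (ψ x) = I (ψ x) * star c := by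
    intro x
    have h1 : star (I (ψ (star x))) = I (ψ x) := by
      rw [← map_star I, ← map_star ψ, star_star]
    calc star c * I (ψ x) = star c * star (I (ψ (star x))) := by rw [h1]
      _ = star (I (ψ (star x)) * c) := (star_mul _ _).symm
      _ = star (c * I (ψ (star x))) := by rw [hcc]
      _ = star (I (ψ (star x))) * star c := star_mul _ _
      _ = I (ψ x) * star c := by rw [h1]
  have hIE : star u * I (1 - B * star B) * u = 1 - c * star c := by
    rw [map_sub I, map_one I, map_mul I, hc, star_mul, star_star, ← map_star I]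
    calc star u * (1 - I B * I (star B)) * u = star u * u - star u * I B * (I (star B) * u) := by
          noncomm_ring
      _ = 1 - star u * I B * (I (star B) * u) := by rw [hu1]
  have hID : I (1 - star B * B) = 1 - star c * c := by
    have h1 : star c * c = I (star B * B) := by
      rw [hc, star_mul, star_star, mul_assoc, ← mul_assoc u, hu2, one_mul, ← map_star I, ← map_mul I]
    rw [h1, map_sub I, map_one I]
  have hH : ∀ k : ℕ, (1 - c * star c) * (star c) ^ k * (1 - star c * c) = 0 := by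
    intro k
    have h1 := hC (u * (star c) ^ k) (fun x => by
      have h2 : (star c) ^ k * I (ψ x) = I (ψ x) * (star c) ^ k :=
        Commute.pow_left (hcs x) k
      rw [← mul_assoc, hIu, mul_assoc, mul_assoc, h2])
    rw [← hIE, ← hID]
    calc star u * I (1 - B * star B) * u * (star c) ^ k * I (1 - star B * B)
        = star u * (I (1 - B * star B) * (u * (star c) ^ k) * I (1 - star B * B)) := by
          simp only [mul_assoc]
      _ = 0 := by rw [h1, mul_zero]
  have h1 := finite_cancel tM htM1 htMc htMp c hH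
  -- the trace of `star B * B` is `1`
  have h2 : (tM (1 - c * star c)).re = 1 - (tN (star B * B)).re := by
    have e1 : tM (c * star c) = tM (I (star B * B)) := by
      rw [htMc]
      have e2 : star c * c = I (star B * B) := by
        rw [hc, star_mul, star_star, mul_assoc, ← mul_assoc u, hu2, one_mul, ← map_star I,
          ← map_mul I]
      rw [e2]
    have e2 : (tM (I (star B * B))).re = (tN (star B * B)).re := by
      have e3 := tendsto_n2_sq (vn hM) (ω : Filter ℕ) tM htM (seqMap i b)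
      have e4 := tendsto_n2_sq hN (ω : Filter ℕ) tN htN b
      rw [← hI b, ← map_star I, ← map_mul I] at e3
      refine tendsto_nhds_unique (e3.congr fun k => ?_) e4
      rw [seqMap_seq, norm2_map i hi]
    rw [map_sub, htM1, e1, Complex.sub_re, Complex.one_re, e2]
  have h3 : 1 ≤ (tN (star B * B)).re := by
    rw [h2] at h1
    linarith
  let _ : TracialVN N := toTracialVN hN
  have h4 : Tendsto (fun k => n2 (b.seq k) ^ 2) (ω : Filter ℕ) (𝓝 (tN (star B * B)).re) :=
    tendsto_n2_sq hN (ω : Filter ℕ) tN htN b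
  have h5 : (tN (star B * B)).re = 1 := by
    refine le_antisymm (le_of_tendsto h4 (Eventually.of_forall fun k => ?_)) h3
    exact pow_le_one₀ (n2_nonneg _) ((n2_le_norm _).trans (hb k))
  have h6 : Tendsto (fun k => n2 (star (b.seq k) * b.seq k - 1)) (ω : Filter ℕ) (𝓝 0) := by
    have e1 : Tendsto (fun k => n2 (star (b.seq k) * b.seq k - 1) ^ 2) (ω : Filter ℕ) (𝓝 0) := by
      have e2 : Tendsto (fun k => 1 - n2 (b.seq k) ^ 2) (ω : Filter ℕ) (𝓝 0) := by
        have e3 := tendsto_const_nhds (x := (1 : ℝ)) |>.sub h4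
        rwa [h5, sub_self] at e3
      exact squeeze_zero (fun k => by positivity) (fun k => n2_ssm_sub_one_sq (hb k)) e2
    have e2 := e1.sqrt
    rw [Real.sqrt_zero] at e2
    exact e2.congr fun k => Real.sqrt_sq (n2_nonneg _)
  have h7 : Tendsto (fun k => n2 (b.seq k * star (b.seq k) - 1)) (ω : Filter ℕ) (𝓝 0) := by
    refine h6.congr fun k => ?_
    have e1 : n2 (star (b.seq k) * b.seq k - 1) = n2 (1 - star (b.seq k) * b.seq k) := by
      rw [← neg_sub, n2_neg]
    have e2 : n2 (b.seq k * star (b.seq k) - 1) = n2 (1 - b.seq k * star (b.seq k)) := by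
      rw [← neg_sub, n2_neg]
    rw [e1, e2, n2_one_sub_left]
  have hB1 : star B * B = 1 := by
    rw [hB, UPow.star_mk, ← map_mul, ← map_one (UPow.mk hN (ω : Filter ℕ)), UPow.mk_eq]
    exact h6
  have hB2 : B * star B = 1 := by
    rw [hB, UPow.star_mk, ← map_mul, ← map_one (UPow.mk hN (ω : Filter ℕ)), UPow.mk_eq]
    exact h7
  refine ⟨B, Unitary.mem_iff.2 ⟨hB1, hB2⟩, fun x => ?_⟩
  rw [← hbi, mul_assoc, hB2, mul_one]

end Pool.Agent.H28.JT
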