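import Pool.Agent.H28.JT.Clip
import Pool.Agent.H68.Amp.UStmt

set_option autoImplicit false

/-!
# JT: approximation of truncations, diagonal sequences
-/

universe u

open Filter Topology H80VN

namespace Pool.Agent.H28.JT

variable {M : Type u} [CStarAlgebra M] [TracialVN M]

/-- uniform approximation of the functional calculus by polynomials. -/
theorem norm_cfc_sub_aeval {a : M} (ha : star a = a) {D : ℝ} (haD : ‖a‖ ≤ D) {g : ℝ → ℝ}
    (hg : Continuous g) {ε : ℝ} (hε : 0 ≤ ε) {p : Polynomial ℝ}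
    (hp : ∀ x ∈ Set.Icc (-D) D, |p.eval x - g x| ≤ ε) :
    ‖Polynomial.aeval a p - cfc g a‖ ≤ ε := by
  have hsa : IsSelfAdjoint a := ha
  rw [← cfc_polynomial p a hsa, ← fc_sub (by fun_prop) hg]
  refine norm_cfc_le hε fun x hx => ?_
  refine hp x ?_
  have h1 := spec_abs_le hx
  exact ⟨by linarith [neg_abs_le x], by linarith [le_abs_self x]⟩

theorem tendsto_n2_cfc {ω : Filter ℕ} {s : ℕ → M} (hs : ∀ k, star (s k) = s k) {B : ℝ}
    (hB : ∀ k, ‖s k‖ ≤ B) {t : M} (ht : star t = t)
    (hmom : ∀ p : Polynomial ℝ, Tendsto (fun k => TracialVN.tr (Polynomial.aeval (s k) p)) ω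
      (𝓝 (TracialVN.tr (Polynomial.aeval t p)))) {f : ℝ → ℝ} (hf : Continuous f) :
    Tendsto (fun k => n2 (cfc f (s k))) ω (𝓝 (n2 (cfc f t))) := by
  set D : ℝ := max B ‖t‖ with hD
  have hg : Continuous fun r => f r * f r := hf.mul hf
  have hn : ∀ a : M, n2 (cfc f a) ^ 2 = (TracialVN.tr (cfc (fun r => f r * f r) a)).re := by
    intro a
    rw [n2_sq_sa (fc_sa f a), fc_mul hf hf]
  -- convergence of the trace of `f² (s k)`
  have hconv : Tendsto (fun k => TracialVN.tr (cfc (fun r => f r * f r) (s k))) ω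
      (𝓝 (TracialVN.tr (cfc (fun r => f r * f r) t))) := by
    rw [Metric.tendsto_nhds]
    intro ε hε
    obtain ⟨p, hp⟩ := exists_polynomial_near_of_continuousOn (-D) D (fun r => f r * f r)
      hg.continuousOn (ε / 3) (by positivity)
    have hclose : ∀ a : M, star a = a → ‖a‖ ≤ D →
        ‖TracialVN.tr (Polynomial.aeval a p) - TracialVN.tr (cfc (fun r => f r * f r) a)‖ ≤ ε / 3 := by
      intro a ha haD
      rw [← map_sub]
      exact (norm_tr_le_n2 _).trans ((n2_le_norm _).trans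
        (norm_cfc_sub_aeval ha haD hg (by positivity) fun x hx => (hp x hx).le))
    have h1 := (Metric.tendsto_nhds.1 (hmom p)) (ε / 3) (by positivity)
    filter_upwards [h1] with k hk
    have h2 := hclose (s k) (hs k) ((hB k).trans (le_max_left _ _))
    have h3 := hclose t ht (le_max_right _ _)
    rw [dist_eq_norm] at hk ⊢
    have e : TracialVN.tr (cfc (fun r => f r * f r) (s k)) - TracialVN.tr (cfc (fun r => f r * f r) t) =
        -(TracialVN.tr (Polynomial.aeval (s k) p) - TracialVN.tr (cfc (fun r => f r * f r) (s k))) +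
        (TracialVN.tr (Polynomial.aeval (s k) p) - TracialVN.tr (Polynomial.aeval t p)) +
        (TracialVN.tr (Polynomial.aeval t p) - TracialVN.tr (cfc (fun r => f r * f r) t)) := by ring
    rw [e]
    refine (norm_add₃_le).trans_lt ?_
    rw [norm_neg]
    linarith
  have h2 : Tendsto (fun k => n2 (cfc f (s k)) ^ 2) ω (𝓝 (n2 (cfc f t) ^ 2)) := by
    simp only [hn]
    exact (Complex.continuous_re.tendsto _).comp hconv
  have h3 := (Real.continuous_sqrt.tendsto _).comp h2
  rw [Real.sqrt_sq (n2_nonneg _)] at h3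
  refine h3.congr fun k => ?_
  show √(n2 (cfc f (s k)) ^ 2) = _
  exact Real.sqrt_sq (n2_nonneg _)

theorem exists_diag {ω : Filter ℕ} (hω : ω ≤ atTop) (c : ℕ → ℕ → M)
    (hcau : ∀ m, ∀ᶠ k in ω, n2 (c m k - c (m + 1) k) ≤ (1 / 2) ^ m) :
    ∃ m : ℕ → ℕ, ∀ l, ∀ᶠ k in ω, n2 (c (m k) k - c l k) ≤ 2 * (1 / 2) ^ l := by
  classical
  set Q : ℕ → ℕ → Prop := fun m k => ∀ l < m, n2 (c l k - c (l + 1) k) ≤ (1 / 2 : ℝ) ^ l with hQ
  refine ⟨fun k => Nat.findGreatest (fun m => Q m k) k, fun l => ?_⟩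
  have hstep : ∀ k l n, l ≤ n → Q n k → n2 (c n k - c l k) ≤ 2 * (1 / 2) ^ l - 2 * (1 / 2) ^ n := by
    intro k l n hln
    induction n, hln using Nat.le_induction with
    | base =>
      intro _
      rw [sub_self, n2_zero, sub_self]
    | succ n hn ih =>
      intro hq
      have h1 := ih fun l hl => hq l (Nat.lt_succ_of_lt hl)
      have h2 := hq n (Nat.lt_succ_self n)
      have e1 : c (n + 1) k - c l k = -(c n k - c (n + 1) k) + (c n k - c l k) := by abel
      rw [e1]
      refine (n2_add_le _ _).trans ?_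
      rw [n2_neg]
      have e2 : (1 / 2 : ℝ) ^ (n + 1) = (1 / 2) ^ n * (1 / 2) := pow_succ _ _
      rw [e2]
      linarith
  have h1 : ∀ᶠ k in ω, ∀ j ∈ Finset.range l, n2 (c j k - c (j + 1) k) ≤ (1 / 2 : ℝ) ^ j := by
    rw [Filter.eventually_all_finset]
    exact fun j _ => hcau j
  filter_upwards [h1, hω (eventually_ge_atTop l)] with k hk1 hk2
  have hq : Q l k := fun j hj => hk1 j (Finset.mem_range.2 hj)
  have h3 : l ≤ Nat.findGreatest (fun m => Q m k) k := Nat.le_findGreatest hk2 hq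
  have h4 : Q (Nat.findGreatest (fun m => Q m k) k) k :=
    Nat.findGreatest_spec (P := fun m => Q m k) hk2 hq
  have h5 := hstep k l _ h3 h4
  have h6 : (0 : ℝ) ≤ 2 * (1 / 2) ^ Nat.findGreatest (fun m => Q m k) k := by positivity
  linarith

end Pool.Agent.H28.JT
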