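import Pool.Agent.H80.VNGamma

set_option autoImplicit false

/-!
# JT: near isometries

PROOF. `h = star b * b`, `v = b * cfc g h` with `g r = (√(max r (1/4)))⁻¹`. The spectrum of `h` is
nonnegative, so functions may be replaced by their values at `max r 0`.
`star v * v = cfc (fun r => r / max r (1/4)) h`, norm `≤ 1`, and `|r / max r (1/4) - 1| ≤ 2 |r - 1|` for
`r ≥ 0`; `n2 (v - b) ^ 2 = tr ((g(h) - 1) h (g(h) - 1)) = tr (cfc (fun r => r (g r - 1)²) h)` and
`r (g r - 1)² ≤ (r - 1)²` for `r ≥ 0` (`r ≥ 1/4`: `(1 - √r)² ≤ (1 - r)²`; `r < 1/4`: `r ≤ 1/4 ≤ (3/4)²`).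
`n2 (h - 1) ^ 2 = tr (cfc (fun r => (r - 1)²) h)` (`fc_tr_mono` needs the inequality for all `r`: use
`max r 0` in place of `r` and `cfc_congr` on the spectrum).
-/

universe u

open Filter Topology H80VN

namespace Pool.Agent.H28.JT

variable {N : Type u} [CStarAlgebra N] [TracialVN N]

attribute [local instance] CStarAlgebra.spectralOrder CStarAlgebra.spectralOrderedRing

/-- The positive part. -/
noncomputable def pP (r : ℝ) : ℝ := max r 0

/-- The inverse square root, cut off. -/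
noncomputable def pG (r : ℝ) : ℝ := (√(max r (1 / 4)))⁻¹

theorem pP_cont : Continuous pP := continuous_id.max continuous_const

theorem pM_pos (r : ℝ) : 0 < max r (1 / 4 : ℝ) := lt_max_of_lt_right (by norm_num)

theorem pG_cont : Continuous pG :=
  (Real.continuous_sqrt.comp (continuous_id.max continuous_const)).inv₀
    fun r => (Real.sqrt_pos.2 (pM_pos r)).ne'

theorem pP_cfc (b : N) : cfc pP (star b * b) = star b * b := by
  have h1 : cfc pP (star b * b) = cfc (fun r : ℝ => r) (star b * b) := by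
    refine cfc_congr fun r hr => ?_
    have h2 : 0 ≤ star b * b := star_mul_self_nonneg b
    exact max_eq_left (spectrum_nonneg_of_nonneg h2 hr)
  rw [h1, fc_id (by rw [star_mul, star_star])]

theorem pG_sq (r : ℝ) : pG r * pG r = (max r (1 / 4))⁻¹ := by
  unfold pG
  rw [← mul_inv, Real.mul_self_sqrt (pM_pos r).le]

theorem pR (r : ℝ) : (1 / 4 ≤ r ∧ pP r = r ∧ max r (1 / 4) = r) ∨
    (pP r ≤ 1 / 4 ∧ 0 ≤ pP r ∧ max r (1 / 4) = 1 / 4) := by
  unfold pP
  rcases le_total (1 / 4) r with h | h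
  · exact Or.inl ⟨h, max_eq_left (by linarith), max_eq_left h⟩
  · exact Or.inr ⟨max_le h (by norm_num), le_max_right _ _, max_eq_right h⟩

theorem p_bd (r : ℝ) : |pG r * pP r * pG r| ≤ 1 := by
  have h1 : pG r * pP r * pG r = pP r * (max r (1 / 4))⁻¹ := by rw [← pG_sq]; ring
  rw [h1]
  rcases pR r with ⟨h2, h3, h4⟩ | ⟨h2, h3, h4⟩
  · rw [h3, h4, mul_inv_cancel₀ (by linarith), abs_one]
  · rw [h4, abs_le]
    constructor <;> norm_num <;> linarith

theorem p_one (r : ℝ) : (pG r * pP r * pG r - 1) * (pG r * pP r * pG r - 1) ≤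
    (2 * (pP r - 1)) * (2 * (pP r - 1)) := by
  have h1 : pG r * pP r * pG r = pP r * (max r (1 / 4))⁻¹ := by rw [← pG_sq]; ring
  rw [h1]
  rcases pR r with ⟨h2, h3, h4⟩ | ⟨h2, h3, h4⟩
  · rw [h3, h4, mul_inv_cancel₀ (by linarith)]
    nlinarith [sq_nonneg (2 * (r - 1))]
  · rw [h4]
    norm_num
    nlinarith

theorem p_two (r : ℝ) : (pG r - 1) * pP r * (pG r - 1) ≤ (pP r - 1) * (pP r - 1) := by
  rcases pR r with ⟨h2, h3, h4⟩ | ⟨h2, h3, h4⟩
  · have h5 : pG r = (√r)⁻¹ := by unfold pG; rw [h4]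
    have h6 : 0 < √r := Real.sqrt_pos.2 (by linarith)
    have h7 : √r * √r = r := Real.mul_self_sqrt (by linarith)
    rw [h3, h5]
    have h8 : ((√r)⁻¹ - 1) * r * ((√r)⁻¹ - 1) = (1 - √r) * (1 - √r) := by
      have h9 : ((√r)⁻¹ - 1) * √r = 1 - √r := by
        rw [sub_mul, inv_mul_cancel₀ h6.ne', one_mul]
      calc ((√r)⁻¹ - 1) * r * ((√r)⁻¹ - 1) =
            ((√r)⁻¹ - 1) * (√r * √r) * ((√r)⁻¹ - 1) := by rw [h7]
        _ = (((√r)⁻¹ - 1) * √r) * (((√r)⁻¹ - 1) * √r) := by ring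
        _ = _ := by rw [h9]
    rw [h8]
    have h10 : (r - 1) * (r - 1) = ((1 - √r) * (1 - √r)) * ((1 + √r) * (1 + √r)) := by
      nth_rewrite 1 2 [← h7]; ring
    rw [h10]
    have h11 : 0 ≤ (1 - √r) * (1 - √r) := mul_self_nonneg _
    have h12 : 1 ≤ (1 + √r) * (1 + √r) := by nlinarith
    nlinarith
  · have h5 : pG r = 2 := by
      unfold pG
      rw [h4, show (1 / 4 : ℝ) = (1 / 2) ^ 2 by norm_num, Real.sqrt_sq (by norm_num)]
      norm_num
    rw [h5]
    nlinarith

theorem exists_contraction (b : N) : ∃ v : N, ‖v‖ ≤ 1 ∧ n2 (v - b) ≤ n2 (star b * b - 1) ∧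
    n2 (star v * v - 1) ≤ 2 * n2 (star b * b - 1) := by
  obtain ⟨h, hh⟩ : ∃ h, h = star b * b := ⟨_, rfl⟩
  have hsa : star h = h := by rw [hh, star_mul, star_star]
  have hP : cfc pP h = h := by rw [hh]; exact pP_cfc b
  have hG : star (cfc pG h) = cfc pG h := fc_sa _ _
  have hone : cfc (fun _ : ℝ => (1 : ℝ)) h = 1 := by rw [fc_const hsa, one_smul]
  have hGP : Continuous fun r => pG r * pP r := pG_cont.mul pP_cont
  have hvv : star (b * cfc pG h) * (b * cfc pG h) = cfc (fun r => pG r * pP r * pG r) h := by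
    rw [fc_mul hGP pG_cont, fc_mul pG_cont pP_cont, hP, star_mul, hG, hh]
    simp only [mul_assoc]
  have hP1 : cfc (fun r => pP r - 1) h = h - 1 := by
    rw [fc_sub pP_cont continuous_const, hP, hone]
  have hc1 : Continuous fun r => pP r - 1 := pP_cont.sub continuous_const
  have hc2 : Continuous fun r => pG r - 1 := pG_cont.sub continuous_const
  have hc3 : Continuous fun r => pG r * pP r * pG r := hGP.mul pG_cont
  have hc6 : Continuous fun r => (pG r - 1) * pP r := hc2.mul pP_cont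
  have hc4 : Continuous fun r => pG r * pP r * pG r - 1 := hc3.sub continuous_const
  have hc5 : Continuous fun r => 2 * (pP r - 1) := continuous_const.mul hc1
  refine ⟨b * cfc pG h, ?_, ?_, ?_⟩
  · have h1 : ‖b * cfc pG h‖ * ‖b * cfc pG h‖ ≤ 1 := by
      rw [← CStarRing.norm_star_mul_self, hvv]
      exact fc_norm_le zero_le_one p_bd h
    nlinarith [norm_nonneg (b * cfc pG h)]
  · rw [← hh]
    have h1 : n2 (b * cfc pG h - b) ^ 2 ≤ n2 (h - 1) ^ 2 := by
      have h2 : star (b * cfc pG h - b) * (b * cfc pG h - b) =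
          cfc (fun r => (pG r - 1) * pP r * (pG r - 1)) h := by
        have h3 : cfc (fun r => pG r - 1) h = cfc pG h - 1 := by
          rw [fc_sub pG_cont continuous_const, hone]
        rw [fc_mul hc6 hc2, fc_mul hc2 pP_cont, h3, hP, star_sub, star_mul, hG, hh]
        noncomm_ring
      have h3 : (h - 1) * (h - 1) = cfc (fun r => (pP r - 1) * (pP r - 1)) h := by
        rw [fc_mul hc1 hc1, hP1]
      rw [n2_sq, h2, n2_sq_sa (by rw [star_sub, hsa, star_one]), h3]
      exact fc_tr_mono (hc6.mul hc2) (hc1.mul hc1) p_two h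
    exact (abs_le_of_sq_le_sq' h1 (n2_nonneg _)).2
  · rw [← hh, hvv]
    have h1 : n2 (cfc (fun r => pG r * pP r * pG r) h - 1) ^ 2 ≤ (2 * n2 (h - 1)) ^ 2 := by
      have h2 : cfc (fun r => pG r * pP r * pG r) h - 1 =
          cfc (fun r => pG r * pP r * pG r - 1) h := by
        rw [fc_sub hc3 continuous_const, hone]
      have h3 : cfc (fun r => 2 * (pP r - 1)) h = (2 : ℝ) • (h - 1) := by
        rw [fc_cmul hc1, hP1]
      have h4 : (2 * n2 (h - 1)) ^ 2 = n2 ((2 : ℝ) • (h - 1)) ^ 2 := by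
        rw [n2_rsmul, abs_of_pos (by norm_num : (0 : ℝ) < 2)]
      rw [h4, ← h3, h2, n2_sq_sa (fc_sa _ _), n2_sq_sa (fc_sa _ _), ← fc_mul hc4 hc4,
        ← fc_mul hc5 hc5]
      exact fc_tr_mono (hc4.mul hc4) (hc5.mul hc5) p_one h
    exact (abs_le_of_sq_le_sq' h1 (mul_nonneg zero_le_two (n2_nonneg _))).2

end Pool.Agent.H28.JT
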