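import Pool.Agent.H80.VNGamma

set_option autoImplicit false

/-!
# JT: rank one

PROOF. Write `S = ∑ a l * star (a l)`, `γ = n2 (S - 1) ≤ ε₀`; `tr S = ∑ n2 (a l) ^ 2`, so
`|∑ n2 (a l) ^ 2 - 1| ≤ γ`. `hB` gives for all `y`: `∑ l, n2 (y * a l) ^ 2 ≤ C² n2 y ^ 2` (take adjoints:
`n2 (y * a l) = n2 (star (a l) * star y)`), and by duality
`n2 (∑ l, a l * y l) ≤ C * √(∑ n2 (y l) ^ 2)` (test with `Z = ∑ a l * y l`:
`n2 Z ^ 2 = ∑ tr (star (y l) * (star (a l) * Z)) ≤ √(∑ n2 (y l)^2) √(∑ n2 (star (a l) * Z)^2)`).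
For `f ∈ F` put `p m = g f * a m - a m * f`, `q l = star (g f) * a l - a l * star f`:
`star (a l) * a m * f - f * (star (a l) * a m) = - star (a l) * p m + star (q l) * a m`, so
`∑_(l,m) n2 (..) ^ 2 ≤ 2 (C² ∑ n2 (p m)^2 + C² ∑ n2 (q l)^2) ≤ 4 C² ε₀²`. By `hgap`, with
`L l m = tr (star (a l) * a m)`: `∑_(l,m) n2 (star (a l) * a m - L l m • 1) ^ 2 ≤ δ² := 4 K |F| C² ε₀²`.
Put `b' m = ∑ l, L l m • a l`. `a m - b' m = (1 - S) * a m + ∑ l, a l * (star (a l) * a m - L l m • 1)`,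
so `√(∑ m, n2 (a m - b' m) ^ 2) ≤ C γ + C δ =: κ`. With `A = √(∑ n2 (a m) ^ 2)`, `|A² - 1| ≤ γ`:
`∑ m, n2 (b' m) ^ 2 ≥ (A - κ)²`, and `∑_(l,m) ‖L l m‖² ≤ A⁴`. So for some `m` with
`H = ∑ l, ‖L l m‖² > 0`: `n2 (b' m) ^ 2 ≥ θ H`, `θ = (A - κ)² / A⁴`. `c l = L l m / √H`,
`b = ∑ l, c l • a l`: `∑ ‖c l‖² = 1`, `μ := n2 b ^ 2 ≥ θ`, `μ = ∑ conj (c l) c m L l m ≤ A²` (Cauchy-Schwarz,
or `n2 b ≤ ∑ ‖c l‖ n2 (a l) ≤ A`), `n2 (star b * b - μ • 1) ≤ ∑ ‖c l‖ ‖c m‖ n2 (star (a l) * a m - L l m • 1) ≤ δ`.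
So `n2 (star b * b - 1) ≤ δ + |μ - 1| ≤ ψ` for small `ε₀`.
-/

universe u

open Filter Topology H80VN

namespace Pool.Agent.H28.JT

variable {N : Type u} [CStarAlgebra N] [TracialVN N]

theorem rk_dual {m : ℕ} {a : Fin m → N} {C : ℝ}
    (hB : ∀ y : N, ∑ l, n2 (star (a l) * y) ^ 2 ≤ C ^ 2 * n2 y ^ 2) (y : Fin m → N) :
    n2 (∑ l, a l * y l) ^ 2 ≤ C ^ 2 * ∑ l, n2 (y l) ^ 2 := by
  obtain ⟨Z, hZ⟩ : ∃ Z, Z = ∑ l, a l * y l := ⟨_, rfl⟩
  rw [← hZ]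
  have hY : 0 ≤ ∑ l, n2 (y l) ^ 2 := Finset.sum_nonneg fun _ _ => by positivity
  have h1 : n2 Z ^ 2 ≤ ∑ l, n2 (star (a l) * Z) * n2 (y l) := by
    calc n2 Z ^ 2 = (TracialVN.tr (star Z * Z)).re := n2_sq Z
      _ = ∑ l, (TracialVN.tr (star (star (a l) * Z) * y l)).re := by
          conv_lhs => rw [show star Z * Z = star Z * ∑ l, a l * y l from by rw [← hZ]]
          rw [Finset.mul_sum, map_sum, Complex.re_sum]
          refine Finset.sum_congr rfl fun l _ => ?_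
          rw [star_mul, star_star, mul_assoc]
      _ ≤ ∑ l, n2 (star (a l) * Z) * n2 (y l) :=
          Finset.sum_le_sum fun l _ => (Complex.re_le_norm _).trans (cs _ _)
  have h2 : (∑ l, n2 (star (a l) * Z) * n2 (y l)) ^ 2 ≤
      (∑ l, n2 (star (a l) * Z) ^ 2) * ∑ l, n2 (y l) ^ 2 := Finset.sum_mul_sq_le_sq_mul_sq _ _ _
  have h3 : (n2 Z ^ 2) ^ 2 ≤ (C ^ 2 * n2 Z ^ 2) * ∑ l, n2 (y l) ^ 2 :=
    (pow_le_pow_left₀ (by positivity) h1 2).trans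
      (h2.trans (mul_le_mul_of_nonneg_right (hB Z) hY))
  rcases (sq_nonneg (n2 Z)).eq_or_lt with h0 | h0
  · rw [← h0]
    positivity
  · have h4 : n2 Z ^ 2 * n2 Z ^ 2 ≤ n2 Z ^ 2 * (C ^ 2 * ∑ l, n2 (y l) ^ 2) := by nlinarith [h3]
    exact le_of_mul_le_mul_left h4 h0

theorem rk_right {m : ℕ} {a : Fin m → N} {C : ℝ}
    (hB : ∀ y : N, ∑ l, n2 (star (a l) * y) ^ 2 ≤ C ^ 2 * n2 y ^ 2) (y : N) :
    ∑ l, n2 (y * a l) ^ 2 ≤ C ^ 2 * n2 y ^ 2 := by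
  have h := hB (star y)
  rw [n2_star] at h
  refine le_of_eq_of_le (Finset.sum_congr rfl fun l _ => ?_) h
  rw [← star_mul, n2_star]

theorem rk_defect {F : Finset N} {K : ℝ} (hK : 0 < K)
    (hgap : ∀ a : N, n2 (a - TracialVN.tr a • (1 : N)) ^ 2 ≤ K * cs2 F a) {C : ℝ}
    {m : ℕ} {a : Fin m → N} {g : N → N} {ε : ℝ}
    (hB : ∀ y : N, ∑ l, n2 (star (a l) * y) ^ 2 ≤ C ^ 2 * n2 y ^ 2)
    (hg : ∀ f ∈ F, ∑ l, n2 (g f * a l - a l * f) ^ 2 ≤ ε ^ 2 ∧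
        ∑ l, n2 (star (g f) * a l - a l * star f) ^ 2 ≤ ε ^ 2) :
    ∑ l, ∑ k, n2 (star (a l) * a k - TracialVN.tr (star (a l) * a k) • (1 : N)) ^ 2 ≤
      4 * K * F.card * C ^ 2 * ε ^ 2 := by
  have h1 : ∀ f ∈ F, ∑ l, ∑ k, n2 (star (a l) * a k * f - f * (star (a l) * a k)) ^ 2 ≤
      4 * C ^ 2 * ε ^ 2 := by
    intro f hf
    have hC2 : 0 ≤ C ^ 2 := sq_nonneg C
    have h2 : ∀ l k, n2 (star (a l) * a k * f - f * (star (a l) * a k)) ^ 2 ≤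
        2 * n2 (star (a l) * (g f * a k - a k * f)) ^ 2 +
          2 * n2 (star (a k) * (star (g f) * a l - a l * star f)) ^ 2 := by
      intro l k
      have h3 : star (a l) * a k * f - f * (star (a l) * a k) =
          -(star (a l) * (g f * a k - a k * f)) +
            star (star (a k) * (star (g f) * a l - a l * star f)) := by
        rw [star_mul, star_star, star_sub, star_mul, star_mul, star_star, star_star]
        noncomm_ring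
      rw [h3]
      refine (n2_add_sq_le _ _).trans (le_of_eq ?_)
      rw [n2_neg, n2_star]
    have h4 : ∑ l, ∑ k, n2 (star (a l) * (g f * a k - a k * f)) ^ 2 ≤ C ^ 2 * ε ^ 2 := by
      rw [Finset.sum_comm]
      calc _ ≤ ∑ k, C ^ 2 * n2 (g f * a k - a k * f) ^ 2 := Finset.sum_le_sum fun k _ => hB _
        _ ≤ C ^ 2 * ε ^ 2 := by
            rw [← Finset.mul_sum]
            exact mul_le_mul_of_nonneg_left (hg f hf).1 hC2
    have h5 : ∑ l, ∑ k, n2 (star (a k) * (star (g f) * a l - a l * star f)) ^ 2 ≤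
        C ^ 2 * ε ^ 2 := by
      calc _ ≤ ∑ l, C ^ 2 * n2 (star (g f) * a l - a l * star f) ^ 2 :=
            Finset.sum_le_sum fun l _ => hB _
        _ ≤ C ^ 2 * ε ^ 2 := by
            rw [← Finset.mul_sum]
            exact mul_le_mul_of_nonneg_left (hg f hf).2 hC2
    calc _ ≤ ∑ l, ∑ k, (2 * n2 (star (a l) * (g f * a k - a k * f)) ^ 2 +
          2 * n2 (star (a k) * (star (g f) * a l - a l * star f)) ^ 2) :=
          Finset.sum_le_sum fun l _ => Finset.sum_le_sum fun k _ => h2 l k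
      _ = 2 * ∑ l, ∑ k, n2 (star (a l) * (g f * a k - a k * f)) ^ 2 +
          2 * ∑ l, ∑ k, n2 (star (a k) * (star (g f) * a l - a l * star f)) ^ 2 := by
          simp only [Finset.sum_add_distrib, ← Finset.mul_sum]
      _ ≤ 4 * C ^ 2 * ε ^ 2 := by linarith
  calc _ ≤ ∑ l, ∑ k, K * cs2 F (star (a l) * a k) :=
        Finset.sum_le_sum fun l _ => Finset.sum_le_sum fun k _ => hgap _
    _ = K * ∑ f ∈ F, ∑ l, ∑ k, n2 (star (a l) * a k * f - f * (star (a l) * a k)) ^ 2 := by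
        unfold cs2
        simp only [← Finset.mul_sum]
        congr 1
        rw [Finset.sum_comm' (s := F) (t := fun _ => Finset.univ) (t' := Finset.univ)
          (s' := fun _ => F) (by simp)]
        refine Finset.sum_congr rfl fun l _ => ?_
        rw [Finset.sum_comm]
    _ ≤ K * ∑ f ∈ F, 4 * C ^ 2 * ε ^ 2 :=
        mul_le_mul_of_nonneg_left (Finset.sum_le_sum h1) hK.le
    _ = _ := by
        rw [Finset.sum_const, nsmul_eq_mul]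
        ring

/-- The Cauchy-Schwarz inequality for sums. -/
theorem rk_cs {ι : Type*} (s : Finset ι) (f g : ι → ℝ) {A B : ℝ} (hA : 0 ≤ A) (hB : 0 ≤ B)
    (hf : ∑ i ∈ s, f i ^ 2 ≤ A ^ 2) (hg : ∑ i ∈ s, g i ^ 2 ≤ B ^ 2) :
    ∑ i ∈ s, f i * g i ≤ A * B := by
  have h1 := Finset.sum_mul_sq_le_sq_mul_sq s f g
  have h2 : (∑ i ∈ s, f i * g i) ^ 2 ≤ (A * B) ^ 2 := by
    rw [mul_pow]
    exact h1.trans (mul_le_mul hf hg (Finset.sum_nonneg fun _ _ => sq_nonneg _) (sq_nonneg _))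
  exact (abs_le_of_sq_le_sq' h2 (mul_nonneg hA hB)).2

/-- `∑ n2 (a l) ^ 2` is almost one. -/
theorem rk_size {m : ℕ} {a : Fin m → N} {ε : ℝ}
    (hS : n2 (∑ l, a l * star (a l) - 1) ≤ ε) : |∑ l, n2 (a l) ^ 2 - 1| ≤ ε := by
  have h1 : ∑ l, n2 (a l) ^ 2 - 1 = (TracialVN.tr (∑ l, a l * star (a l) - 1)).re := by
    rw [map_sub, map_sum, TracialVN.tr_one, Complex.sub_re, Complex.re_sum, Complex.one_re]
    congr 1
    refine Finset.sum_congr rfl fun l _ => ?_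
    rw [n2_sq, TracialVN.tr_comm]
  rw [h1]
  exact (Complex.abs_re_le_norm _).trans ((norm_tr_le_n2 _).trans hS)

/-- Each `a k` is almost in the span of the `a l`, through the traces. -/
theorem rk_span {m : ℕ} {a : Fin m → N} {C : ℝ} {ε δ : ℝ}
    (hB : ∀ y : N, ∑ l, n2 (star (a l) * y) ^ 2 ≤ C ^ 2 * n2 y ^ 2)
    (hS : n2 (∑ l, a l * star (a l) - 1) ≤ ε)
    (hd : ∑ l, ∑ k, n2 (star (a l) * a k - TracialVN.tr (star (a l) * a k) • (1 : N)) ^ 2 ≤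
      δ ^ 2) :
    ∑ k, n2 (a k - ∑ l, TracialVN.tr (star (a l) * a k) • a l) ^ 2 ≤
      2 * C ^ 2 * (ε ^ 2 + δ ^ 2) := by
  have hC2 : 0 ≤ C ^ 2 := sq_nonneg C
  have hε : (n2 (∑ l, a l * star (a l) - 1)) ^ 2 ≤ ε ^ 2 :=
    pow_le_pow_left₀ (n2_nonneg _) hS 2
  have h1 : ∀ k, n2 (a k - ∑ l, TracialVN.tr (star (a l) * a k) • a l) ^ 2 ≤
      2 * n2 ((1 - ∑ l, a l * star (a l)) * a k) ^ 2 +
      2 * n2 (∑ l, a l * (star (a l) * a k - TracialVN.tr (star (a l) * a k) • (1 : N))) ^ 2 := by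
    intro k
    have h2 : a k - ∑ l, TracialVN.tr (star (a l) * a k) • a l =
        (1 - ∑ l, a l * star (a l)) * a k +
        ∑ l, a l * (star (a l) * a k - TracialVN.tr (star (a l) * a k) • (1 : N)) := by
      have h3 : ∑ l, a l * (star (a l) * a k - TracialVN.tr (star (a l) * a k) • (1 : N)) =
          (∑ l, a l * star (a l)) * a k - ∑ l, TracialVN.tr (star (a l) * a k) • a l := by
        rw [Finset.sum_mul, ← Finset.sum_sub_distrib]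
        refine Finset.sum_congr rfl fun l _ => ?_
        rw [mul_sub, mul_smul_comm, mul_one, mul_assoc]
      rw [h3, sub_mul, one_mul]
      abel
    rw [h2]
    exact n2_add_sq_le _ _
  have h4 : ∑ k, n2 ((1 - ∑ l, a l * star (a l)) * a k) ^ 2 ≤ C ^ 2 * ε ^ 2 := by
    refine (rk_right hB _).trans (mul_le_mul_of_nonneg_left ?_ hC2)
    rw [n2_sub_comm]
    exact hε
  have h5 : ∑ k, n2 (∑ l, a l * (star (a l) * a k - TracialVN.tr (star (a l) * a k) • (1 : N))) ^ 2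
      ≤ C ^ 2 * δ ^ 2 := by
    calc _ ≤ ∑ k, C ^ 2 * ∑ l, n2 (star (a l) * a k -
          TracialVN.tr (star (a l) * a k) • (1 : N)) ^ 2 :=
          Finset.sum_le_sum fun k _ => rk_dual hB _
      _ ≤ C ^ 2 * δ ^ 2 := by
          rw [← Finset.mul_sum]
          refine mul_le_mul_of_nonneg_left ?_ hC2
          rw [Finset.sum_comm]
          exact hd
  calc _ ≤ ∑ k, (2 * n2 ((1 - ∑ l, a l * star (a l)) * a k) ^ 2 +
      2 * n2 (∑ l, a l * (star (a l) * a k - TracialVN.tr (star (a l) * a k) • (1 : N))) ^ 2) :=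
        Finset.sum_le_sum fun k _ => h1 k
    _ = 2 * ∑ k, n2 ((1 - ∑ l, a l * star (a l)) * a k) ^ 2 +
      2 * ∑ k, n2 (∑ l, a l * (star (a l) * a k -
        TracialVN.tr (star (a l) * a k) • (1 : N))) ^ 2 := by
        simp only [Finset.sum_add_distrib, ← Finset.mul_sum]
    _ ≤ _ := by nlinarith

/-- Some combination with the traces as coefficients is large. -/
theorem rk_pick {m : ℕ} {a : Fin m → N} {κ ε θ : ℝ} (hε : 0 ≤ ε) (hε' : ε ≤ 1 / 4) (hθ : 0 ≤ θ)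
    (hθ1 : θ ≤ 1) (hκ : 0 ≤ κ)
    (hP : |∑ l, n2 (a l) ^ 2 - 1| ≤ ε)
    (hQ : ∑ k, n2 (a k - ∑ l, TracialVN.tr (star (a l) * a k) • a l) ^ 2 ≤ κ ^ 2)
    (hsmall : ε + 4 * κ < 1 - θ) :
    ∃ k, θ * ∑ l, ‖TracialVN.tr (star (a l) * a k)‖ ^ 2 <
      n2 (∑ l, TracialVN.tr (star (a l) * a k) • a l) ^ 2 := by
  by_contra hcon
  push Not at hcon
  obtain ⟨P, hPdef⟩ : ∃ P, P = ∑ l, n2 (a l) ^ 2 := ⟨_, rfl⟩
  rw [← hPdef] at hP
  have hP1 := abs_le.1 hP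
  have hP0 : 0 ≤ P := by linarith [hP1.1]
  have hA0 : 0 ≤ √P := Real.sqrt_nonneg P
  have hA2 : √P ^ 2 = P := Real.sq_sqrt hP0
  have hA : 1 / 2 ≤ √P := Real.le_sqrt_of_sq_le (by linarith [hP1.1])
  -- the double sum
  have h1 : ∑ k, ∑ l, ‖TracialVN.tr (star (a l) * a k)‖ ^ 2 ≤ P ^ 2 := by
    calc _ ≤ ∑ k, ∑ l, n2 (a l) ^ 2 * n2 (a k) ^ 2 := by
          refine Finset.sum_le_sum fun k _ => Finset.sum_le_sum fun l _ => ?_
          rw [← mul_pow]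
          exact pow_le_pow_left₀ (norm_nonneg _) (cs _ _) 2
      _ = P ^ 2 := by
          rw [sq P, hPdef, Finset.sum_mul_sum, Finset.sum_comm]
  have h2 : ∑ k, n2 (∑ l, TracialVN.tr (star (a l) * a k) • a l) ^ 2 ≤ θ * P ^ 2 := by
    calc _ ≤ ∑ k, θ * ∑ l, ‖TracialVN.tr (star (a l) * a k)‖ ^ 2 :=
          Finset.sum_le_sum fun k _ => hcon k
      _ ≤ θ * P ^ 2 := by
          rw [← Finset.mul_sum]
          exact mul_le_mul_of_nonneg_left h1 hθ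
  have h3 : ∑ k, n2 (a k) * n2 (a k - ∑ l, TracialVN.tr (star (a l) * a k) • a l) ≤ √P * κ :=
    rk_cs _ _ _ hA0 hκ (by rw [hA2, hPdef]) hQ
  have h4 : ∀ k, n2 (a k) ^ 2 -
      2 * (n2 (a k) * n2 (a k - ∑ l, TracialVN.tr (star (a l) * a k) • a l)) ≤
      n2 (∑ l, TracialVN.tr (star (a l) * a k) • a l) ^ 2 := by
    intro k
    obtain ⟨B, hBdef⟩ : ∃ B, B = ∑ l, TracialVN.tr (star (a l) * a k) • a l := ⟨_, rfl⟩
    rw [← hBdef]
    have h5 : n2 (a k) ≤ n2 B + n2 (a k - B) := by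
      have := n2_add_le B (a k - B)
      rwa [add_sub_cancel] at this
    have h6 := n2_nonneg (a k)
    have h7 := n2_nonneg B
    have h8 := n2_nonneg (a k - B)
    rcases le_total (n2 (a k - B)) (n2 (a k)) with h9 | h9
    · have h10 : (n2 (a k) - n2 (a k - B)) ^ 2 ≤ n2 B ^ 2 :=
        pow_le_pow_left₀ (by linarith) (by linarith) 2
      nlinarith
    · nlinarith
  have h5 : P - 2 * (√P * κ) ≤ θ * P ^ 2 := by
    have h6 : ∑ k, (n2 (a k) ^ 2 -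
      2 * (n2 (a k) * n2 (a k - ∑ l, TracialVN.tr (star (a l) * a k) • a l))) ≤
      ∑ k, n2 (∑ l, TracialVN.tr (star (a l) * a k) • a l) ^ 2 :=
      Finset.sum_le_sum fun k _ => h4 k
    rw [Finset.sum_sub_distrib, ← Finset.mul_sum, ← hPdef] at h6
    linarith
  have h6 : √P ≤ 2 * P := by nlinarith
  have h7 : √P * κ ≤ 2 * P * κ := mul_le_mul_of_nonneg_right h6 hκ
  have h8 : P * (1 - 4 * κ) ≤ P * (θ * P) := by nlinarith
  have h9 : 1 - 4 * κ ≤ θ * P := le_of_mul_le_mul_left h8 (by linarith [hP1.1])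
  have h10 : θ * P ≤ θ + ε := by nlinarith [hP1.2]
  linarith

theorem rk_n2_sum {ι : Type*} (s : Finset ι) (f : ι → N) :
    n2 (∑ i ∈ s, f i) ≤ ∑ i ∈ s, n2 (f i) := by
  rw [← norm_toL2, map_sum]
  exact norm_sum_le _ _

theorem rk_n2_le {m : ℕ} {a : Fin m → N} {c : Fin m → ℂ} (hc : ∑ l, ‖c l‖ ^ 2 ≤ 1) :
    n2 (∑ l, c l • a l) ^ 2 ≤ ∑ l, n2 (a l) ^ 2 := by
  have hP : 0 ≤ ∑ l, n2 (a l) ^ 2 := Finset.sum_nonneg fun _ _ => by positivity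
  have h1 : n2 (∑ l, c l • a l) ≤ ∑ l, ‖c l‖ * n2 (a l) :=
    (rk_n2_sum _ _).trans (le_of_eq (Finset.sum_congr rfl fun l _ => n2_smul _ _))
  calc n2 (∑ l, c l • a l) ^ 2 ≤ (∑ l, ‖c l‖ * n2 (a l)) ^ 2 :=
        pow_le_pow_left₀ (n2_nonneg _) h1 2
    _ ≤ (∑ l, ‖c l‖ ^ 2) * ∑ l, n2 (a l) ^ 2 := Finset.sum_mul_sq_le_sq_mul_sq _ _ _
    _ ≤ 1 * ∑ l, n2 (a l) ^ 2 := mul_le_mul_of_nonneg_right hc hP
    _ = _ := one_mul _

/-- A combination with coefficients in the unit ball is almost a multiple of an isometry. -/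
theorem rk_near {m : ℕ} {a : Fin m → N} {c : Fin m → ℂ} {δ : ℝ} (hδ : 0 ≤ δ)
    (hc : ∑ l, ‖c l‖ ^ 2 ≤ 1)
    (hd : ∑ l, ∑ k, n2 (star (a l) * a k - TracialVN.tr (star (a l) * a k) • (1 : N)) ^ 2 ≤
      δ ^ 2) :
    n2 (star (∑ l, c l • a l) * (∑ l, c l • a l) - 1) ≤
      δ + |n2 (∑ l, c l • a l) ^ 2 - 1| := by
  obtain ⟨b, hb⟩ : ∃ b, b = ∑ l, c l • a l := ⟨_, rfl⟩
  obtain ⟨d, hdd⟩ : ∃ d : Fin m × Fin m → N, d = fun p =>
    star (a p.1) * a p.2 - TracialVN.tr (star (a p.1) * a p.2) • (1 : N) := ⟨_, rfl⟩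
  have h1 : star b * b = ∑ p : Fin m × Fin m, (star (c p.1) * c p.2) • (star (a p.1) * a p.2) := by
    rw [Fintype.sum_prod_type, hb, star_sum, Finset.sum_mul_sum]
    refine Finset.sum_congr rfl fun l _ => Finset.sum_congr rfl fun k _ => ?_
    rw [star_smul, smul_mul_smul_comm]
  have h2 : star b * b - TracialVN.tr (star b * b) • (1 : N) =
      ∑ p : Fin m × Fin m, (star (c p.1) * c p.2) • d p := by
    rw [h1, map_sum, Finset.sum_smul, ← Finset.sum_sub_distrib, hdd]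
    refine Finset.sum_congr rfl fun p _ => ?_
    rw [map_smul, smul_sub, smul_assoc]
  have h3 : ∑ p : Fin m × Fin m, (‖c p.1‖ * ‖c p.2‖) ^ 2 ≤ (1 : ℝ) ^ 2 := by
    have h0 : 0 ≤ ∑ l, ‖c l‖ ^ 2 := Finset.sum_nonneg fun _ _ => by positivity
    calc ∑ p : Fin m × Fin m, (‖c p.1‖ * ‖c p.2‖) ^ 2 = (∑ l, ‖c l‖ ^ 2) ^ 2 := by
          rw [Fintype.sum_prod_type, sq (∑ l, ‖c l‖ ^ 2), Finset.sum_mul_sum]
          exact Finset.sum_congr rfl fun l _ => Finset.sum_congr rfl fun k _ => mul_pow _ _ _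
      _ ≤ 1 ^ 2 := pow_le_pow_left₀ h0 hc 2
  have h4 : ∑ p : Fin m × Fin m, n2 (d p) ^ 2 ≤ δ ^ 2 := by
    rw [Fintype.sum_prod_type, hdd]
    exact hd
  have h5 : n2 (star b * b - TracialVN.tr (star b * b) • (1 : N)) ≤ δ := by
    rw [h2]
    calc _ ≤ ∑ p : Fin m × Fin m, n2 ((star (c p.1) * c p.2) • d p) := rk_n2_sum _ _
      _ = ∑ p : Fin m × Fin m, (‖c p.1‖ * ‖c p.2‖) * n2 (d p) := by
          refine Finset.sum_congr rfl fun p _ => ?_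
          rw [n2_smul, norm_mul, norm_star]
      _ ≤ 1 * δ := rk_cs _ _ _ zero_le_one hδ h3 h4
      _ = δ := one_mul _
  rw [← hb]
  have h6 : star b * b - 1 = (star b * b - TracialVN.tr (star b * b) • (1 : N)) +
      (((n2 b ^ 2 - 1 : ℝ)) : ℂ) • (1 : N) := by
    rw [tr_ssm, Complex.ofReal_sub, sub_smul, Complex.ofReal_one, one_smul]
    abel
  rw [h6]
  refine (n2_add_le _ _).trans (add_le_add h5 ?_)
  rw [n2_smul, n2_one, mul_one, Complex.norm_real, Real.norm_eq_abs]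

theorem rank_one {F : Finset N} {K : ℝ} (hK : 0 < K)
    (hgap : ∀ a : N, n2 (a - TracialVN.tr a • (1 : N)) ^ 2 ≤ K * cs2 F a) {C : ℝ} (hC : 1 ≤ C)
    {ψ : ℝ} (hψ : 0 < ψ) :
    ∃ ε₀ : ℝ, 0 < ε₀ ∧ ∀ (m : ℕ) (a : Fin m → N) (g : N → N),
      (∀ y : N, ∑ l, n2 (star (a l) * y) ^ 2 ≤ C ^ 2 * n2 y ^ 2) →
      n2 (∑ l, a l * star (a l) - 1) ≤ ε₀ →
      (∀ f ∈ F, ∑ l, n2 (g f * a l - a l * f) ^ 2 ≤ ε₀ ^ 2 ∧
        ∑ l, n2 (star (g f) * a l - a l * star f) ^ 2 ≤ ε₀ ^ 2) →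
      ∃ c : Fin m → ℂ, ∑ l, ‖c l‖ ^ 2 ≤ 1 ∧
        n2 (star (∑ l, c l • a l) * (∑ l, c l • a l) - 1) ≤ ψ := by
  have hC0 : 0 < C := by linarith
  -- constants
  obtain ⟨D, hD⟩ : ∃ D, D = 2 * C * √(K * F.card) := ⟨_, rfl⟩
  have hD0 : 0 ≤ D := by rw [hD]; positivity
  have hD2 : D ^ 2 = 4 * K * F.card * C ^ 2 := by
    rw [hD, mul_pow, Real.sq_sqrt (by positivity)]
    ring
  obtain ⟨φ, hφ⟩ : ∃ φ, φ = min ψ 1 := ⟨_, rfl⟩
  have hφ0 : 0 < φ := by rw [hφ]; exact lt_min hψ one_pos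
  have hφ1 : φ ≤ 1 := by rw [hφ]; exact min_le_right _ _
  have hφψ : φ ≤ ψ := by rw [hφ]; exact min_le_left _ _
  obtain ⟨T, hT⟩ : ∃ T, T = 1 + 8 * C * (1 + D) := ⟨_, rfl⟩
  have hT1 : 1 ≤ T := by rw [hT]; nlinarith [mul_nonneg hC0.le (add_nonneg zero_le_one hD0)]
  have hDT : D ≤ T := by rw [hT]; nlinarith
  refine ⟨φ / (4 * T), by positivity, fun m a g hB hS hg => ?_⟩
  obtain ⟨ε, hε⟩ : ∃ ε, ε = φ / (4 * T) := ⟨_, rfl⟩
  rw [← hε] at hS hg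
  have hε0 : 0 < ε := by rw [hε]; positivity
  have hTε : T * ε = φ / 4 := by rw [hε]; field_simp
  have hε4 : ε ≤ φ / 4 := by nlinarith
  have hDε : D * ε ≤ φ / 4 := by nlinarith
  have hP := rk_size hS
  have hd : ∑ l, ∑ k, n2 (star (a l) * a k - TracialVN.tr (star (a l) * a k) • (1 : N)) ^ 2 ≤
      (D * ε) ^ 2 := by
    rw [mul_pow, hD2]
    exact rk_defect hK hgap hB hg
  have hQ := rk_span hB hS hd
  have hQ' : ∑ k, n2 (a k - ∑ l, TracialVN.tr (star (a l) * a k) • a l) ^ 2 ≤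
      (2 * C * (1 + D) * ε) ^ 2 := by
    refine hQ.trans ?_
    have : (2 * C * (1 + D) * ε) ^ 2 - 2 * C ^ 2 * (ε ^ 2 + (D * ε) ^ 2) =
      2 * C ^ 2 * ε ^ 2 * (1 + D ^ 2 + 4 * D) := by ring
    have h2 : 0 ≤ 2 * C ^ 2 * ε ^ 2 * (1 + D ^ 2 + 4 * D) := by positivity
    linarith
  have hsm : ε + 4 * (2 * C * (1 + D) * ε) < 1 - (1 - φ / 2) := by
    have : ε + 4 * (2 * C * (1 + D) * ε) = T * ε := by rw [hT]; ring
    rw [this, hTε]
    linarith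
  obtain ⟨k, hk⟩ := rk_pick hε0.le (by linarith) (θ := 1 - φ / 2) (by linarith) (by linarith)
    (by positivity) hP hQ' hsm
  obtain ⟨H, hH⟩ : ∃ H, H = ∑ l, ‖TracialVN.tr (star (a l) * a k)‖ ^ 2 := ⟨_, rfl⟩
  rw [← hH] at hk
  have hH0 : 0 < H := by
    have h1 : 0 ≤ H := by rw [hH]; exact Finset.sum_nonneg fun _ _ => by positivity
    rcases h1.eq_or_lt with h2 | h2
    · exfalso
      have h3 : ∀ l, TracialVN.tr (star (a l) * a k) = 0 := by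
        intro l
        have h4 := (Finset.sum_eq_zero_iff_of_nonneg
          (fun l _ => by positivity)).1 (hH.symm.trans h2.symm) l (Finset.mem_univ l)
        exact norm_eq_zero.1 (pow_eq_zero_iff (two_ne_zero)|>.1 h4)
      simp only [h3, zero_smul, Finset.sum_const_zero, n2_zero] at hk
      rw [← h2] at hk
      simp at hk
    · exact h2
  have hsH : 0 < √H := Real.sqrt_pos.2 hH0
  obtain ⟨c, hc⟩ : ∃ c : Fin m → ℂ, c = fun l =>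
    (((√H)⁻¹ : ℝ) : ℂ) * TracialVN.tr (star (a l) * a k) := ⟨_, rfl⟩
  have hc1 : ∑ l, ‖c l‖ ^ 2 = 1 := by
    have h1 : ∀ l, ‖c l‖ ^ 2 = H⁻¹ * ‖TracialVN.tr (star (a l) * a k)‖ ^ 2 := by
      intro l
      rw [hc, norm_mul, Complex.norm_real, Real.norm_eq_abs, mul_pow, sq_abs, inv_pow,
        Real.sq_sqrt hH0.le]
    rw [Finset.sum_congr rfl fun l _ => h1 l, ← Finset.mul_sum, ← hH, inv_mul_cancel₀ hH0.ne']
  have hcb : ∑ l, c l • a l =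
      (((√H)⁻¹ : ℝ) : ℂ) • ∑ l, TracialVN.tr (star (a l) * a k) • a l := by
    rw [Finset.smul_sum, hc]
    exact Finset.sum_congr rfl fun l _ => mul_smul _ _ _
  refine ⟨c, hc1.le, (rk_near (by positivity) hc1.le hd).trans ?_⟩
  have h1 := rk_n2_le (a := a) hc1.le
  have h2 : 1 - φ / 2 ≤ n2 (∑ l, c l • a l) ^ 2 := by
    rw [hcb, n2_smul, Complex.norm_real, Real.norm_eq_abs, mul_pow, sq_abs, inv_pow,
      Real.sq_sqrt hH0.le, ← div_eq_inv_mul, le_div_iff₀ hH0]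
    exact hk.le
  have h3 := abs_le.1 hP
  have h4 : |n2 (∑ l, c l • a l) ^ 2 - 1| ≤ φ / 2 :=
    abs_le.2 ⟨by linarith, by linarith [h3.2]⟩
  linarith

end Pool.Agent.H28.JT
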