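import Pool.Agent.H28.JT.Bes
import Pool.Agent.H28.JT.Rank
import Pool.Agent.H28.JT.Pol

set_option autoImplicit false

/-!
# JT: the main step
-/

universe u

open Filter Topology H80VN

namespace Pool.Agent.H28.JT

variable {M N P : Type u} [CStarAlgebra M] [TracialVN M] [CStarAlgebra N] [TracialVN N]
  [CStarAlgebra P] [TracialVN P] {i : N →⋆ₐ[ℂ] M} {j : P →⋆ₐ[ℂ] M}

theorem n2_sum_le {κ : Type} (s : Finset κ) (g : κ → N) : n2 (∑ k ∈ s, g k) ≤ ∑ k ∈ s, n2 (g k) := by
  classical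
  induction s using Finset.induction_on with
  | empty => simp [n2_zero]
  | insert a s ha ih =>
    rw [Finset.sum_insert ha, Finset.sum_insert ha]
    exact (n2_add_le _ _).trans (by linarith)

theorem key (hP : IsFactor P) (h : Ten i j) {F : Finset N} {K : ℝ} (hK : 0 < K)
    (hgap : ∀ a : N, n2 (a - TracialVN.tr a • (1 : N)) ^ 2 ≤ K * cs2 F a) {C : ℝ} (hC : 1 ≤ C)
    {ψ : ℝ} (hψ : 0 < ψ) :
    ∃ ε₀ : ℝ, 0 < ε₀ ∧ ∀ (s : M) (g : N → N), ‖s‖ ≤ C → n2 (s * star s - 1) ≤ ε₀ →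
      (∀ f ∈ F, n2 (i (g f) * s - s * i f) ≤ ε₀ ∧
        n2 (i (star (g f)) * s - s * i (star f)) ≤ ε₀) →
      ∃ v : N, ‖v‖ ≤ 1 ∧ n2 (star v * v - 1) ≤ ψ ∧
        ∀ x y : N, n2 (y * v - v * x) ≤ n2 (i y * s - s * i x) + ψ * (‖x‖ + ‖y‖) := by
  obtain ⟨ε₁, hε₁, hrank⟩ := rank_one hK hgap hC (ψ := ψ / 2) (by positivity)
  refine ⟨ε₁ / 2, by positivity, fun s g hs hss hg => ?_⟩
  choose E hE using fun z => exists_cond hP h z
  have hE' : IsE i E := hE
  have hC0 : (0 : ℝ) < C := by linarith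
  obtain ⟨m, r, hr, hζ⟩ := expand h hE' s (ζ := ε₁ / (2 * C)) (by positivity)
  set a : Fin m → N := fun l => E (s * j (star (r l))) with ha
  -- (I)
  have hI : ∀ x y : N, ∑ l, n2 (y * a l - a l * x) ^ 2 ≤ n2 (i y * s - s * i x) ^ 2 := by
    intro x y
    have h1 := bessel h hE' hr (i y * s - s * i x)
    refine le_trans (le_of_eq ?_) h1
    refine Finset.sum_congr rfl fun l _ => ?_
    have h2 : (i y * s - s * i x) * j (star (r l)) =
        i y * (s * j (star (r l))) - s * j (star (r l)) * i x := by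
      rw [sub_mul, mul_assoc, mul_assoc, h.comm, ← mul_assoc s]
    rw [h2, hE'.sub, hE'.left, hE'.right]
  -- (B)
  have hB : ∀ y : N, ∑ l, n2 (star (a l) * y) ^ 2 ≤ C ^ 2 * n2 y ^ 2 := by
    intro y
    have h1 := bessel h hE' hr.star' (star s * i y)
    have h2 : ∀ l, star (a l) * y = E (star s * i y * j (star (star (r l)))) := by
      intro l
      rw [ha]
      simp only
      rw [← hE'.star', star_mul, ← map_star j, star_star, ← hE'.right, mul_assoc, hE'.swap h]
    simp only [h2]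
    refine h1.trans ?_
    have h3 : n2 (star s * i y) ≤ C * n2 y := by
      refine (n2_mul_le_left _ _).trans ?_
      rw [norm_star, h.n2_i]
      exact mul_le_mul_of_nonneg_right hs (n2_nonneg _)
    rw [← mul_pow]
    exact pow_le_pow_left₀ (n2_nonneg _) h3 2
  -- (G)
  have hG : n2 (∑ l, a l * star (a l) - 1) ≤ ε₁ := by
    set t : M := ∑ l, i (a l) * j (r l) with ht
    have h1 : ∑ l, a l * star (a l) - 1 = E (t * star s - 1) := by
      rw [hE'.sub, hE'.one h.tr_i, ht, Finset.sum_mul, hE'.sum]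
      congr 1
      refine Finset.sum_congr rfl fun l _ => ?_
      rw [mul_assoc, hE'.left]
      congr 1
      rw [ha]
      simp only
      rw [← hE'.star', star_mul, ← map_star j, star_star]
    rw [h1]
    refine (hE'.n2_le h.tr_i _).trans ?_
    have h2 : t * star s - 1 = (s * star s - 1) - (s - t) * star s := by
      rw [sub_mul]; abel
    rw [h2]
    refine (n2_sub_le _ _).trans ?_
    have h3 : n2 ((s - t) * star s) ≤ ε₁ / (2 * C) * C := by
      refine (n2_mul_le_right _ _).trans ?_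
      rw [norm_star]
      exact mul_le_mul hζ hs (norm_nonneg _) (by positivity)
    have h4 : ε₁ / (2 * C) * C = ε₁ / 2 := by
      field_simp
    linarith
  obtain ⟨c, hc, hb⟩ := hrank m a g hB hG (fun f hf => by
    obtain ⟨h1, h2⟩ := hg f hf
    have e1 : (ε₁ / 2) ^ 2 ≤ ε₁ ^ 2 := pow_le_pow_left₀ (by positivity) (by linarith) 2
    exact ⟨(hI f (g f)).trans ((pow_le_pow_left₀ (n2_nonneg _) h1 2).trans e1),
      (hI (star f) (star (g f))).trans ((pow_le_pow_left₀ (n2_nonneg _) h2 2).trans e1)⟩)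
  set b : N := ∑ l, c l • a l with hbdef
  obtain ⟨v, hv1, hv2, hv3⟩ := exists_contraction b
  refine ⟨v, hv1, hv3.trans (by linarith), fun x y => ?_⟩
  have h1 : n2 (y * b - b * x) ≤ n2 (i y * s - s * i x) := by
    have e1 : y * b - b * x = ∑ l, c l • (y * a l - a l * x) := by
      rw [hbdef, Finset.mul_sum, Finset.sum_mul, ← Finset.sum_sub_distrib]
      refine Finset.sum_congr rfl fun l _ => ?_
      rw [mul_smul_comm, smul_mul_assoc, smul_sub]
    have e2 : n2 (y * b - b * x) ≤ ∑ l, ‖c l‖ * n2 (y * a l - a l * x) := by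
      rw [e1]
      refine (n2_sum_le _ _).trans (le_of_eq ?_)
      exact Finset.sum_congr rfl fun l _ => n2_smul _ _
    have e3 : (∑ l, ‖c l‖ * n2 (y * a l - a l * x)) ^ 2 ≤
        (∑ l, ‖c l‖ ^ 2) * ∑ l, n2 (y * a l - a l * x) ^ 2 :=
      Finset.sum_mul_sq_le_sq_mul_sq _ _ _
    have e4 : (n2 (y * b - b * x)) ^ 2 ≤ n2 (i y * s - s * i x) ^ 2 := by
      refine (pow_le_pow_left₀ (n2_nonneg _) e2 2).trans (e3.trans ?_)
      calc (∑ l, ‖c l‖ ^ 2) * ∑ l, n2 (y * a l - a l * x) ^ 2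
          ≤ 1 * n2 (i y * s - s * i x) ^ 2 :=
            mul_le_mul hc (hI x y) (Finset.sum_nonneg fun _ _ => by positivity) zero_le_one
        _ = n2 (i y * s - s * i x) ^ 2 := one_mul _
    exact (sq_le_sq₀ (n2_nonneg _) (n2_nonneg _)).1 e4
  have h2 : y * v - v * x = (y * b - b * x) + (y * (v - b) - (v - b) * x) := by noncomm_ring
  rw [h2]
  refine (n2_add_le _ _).trans ?_
  have h3 : n2 (y * (v - b) - (v - b) * x) ≤ ψ * (‖x‖ + ‖y‖) := by
    have e0 : n2 (v - b) ≤ ψ := hv2.trans (hb.trans (by linarith))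
    have e1 := n2_sub_le (y * (v - b)) ((v - b) * x)
    have e2 : n2 (y * (v - b)) ≤ ‖y‖ * ψ :=
      (n2_mul_le_left _ _).trans (mul_le_mul_of_nonneg_left e0 (norm_nonneg _))
    have e3 : n2 ((v - b) * x) ≤ ψ * ‖x‖ :=
      (n2_mul_le_right _ _).trans (mul_le_mul_of_nonneg_right e0 (norm_nonneg _))
    linarith
  linarith

end Pool.Agent.H28.JT
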