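import Pool.Agent.H28.JT.IU
import Pool.Agent.H28.JT.Key
import Pool.Agent.H28.JT.Hom

set_option autoImplicit false

/-!
# JT: the Jung property passes to tensor factors without property Gamma
-/

universe u

open Filter Topology H80VN Pool.Agent.H68.Amp Pool.Agent.H28.JP
open scoped TensorProduct

namespace Pool.Agent.H28.JT

variable {M N P : Type u} [CStarAlgebra M] [CStarAlgebra N] [CStarAlgebra P]
  {τ : M →ₗ[ℂ] ℂ} {ρ : N →ₗ[ℂ] ℂ} {σ : P →ₗ[ℂ] ℂ}

/-- A `⋆`-homomorphism `π : N → N^ω` extends to `M = N ⊗ P`. -/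
theorem exists_ext (hM : Stmt.IsII1Factor τ) (hN : Stmt.IsII1Factor ρ)
    (i : N →⋆ₐ[ℂ] M) (j : P →⋆ₐ[ℂ] M) (hcomm : ∀ x y, i x * j y = j y * i x)
    (htr : ∀ x y, τ (i x * j y) = ρ x * σ y)
    (hden : ∀ (z : M) (ε : ℝ), 0 < ε → ∃ (m : ℕ) (a : Fin m → N) (b : Fin m → P),
      Stmt.norm2 τ (z - ∑ l, i (a l) * j (b l)) < ε)
    (ω : Ultrafilter ℕ) (hω : (ω : Filter ℕ) ≤ atTop)
    (I : UPow (vn hN) (ω : Filter ℕ) →⋆ₐ[ℂ] UPow (vn hM) (ω : Filter ℕ))
    (hI : ∀ s, I (UPow.mk (vn hN) (ω : Filter ℕ) s) = UPow.mk (vn hM) (ω : Filter ℕ) (seqMap i s))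
    (π : N →⋆ₐ[ℂ] UPow (vn hN) (ω : Filter ℕ)) :
    ∃ φ : M →⋆ₐ[ℂ] UPow (vn hM) (ω : Filter ℕ), (∀ x, φ (i x) = I (π x)) ∧
      ∀ y, φ (j y) = diag (vn hM) (ω : Filter ℕ) (j y) := by
  let d : N ⊗[ℂ] P →ₐ[ℂ] M := Algebra.TensorProduct.lift (i : N →ₐ[ℂ] M) (j : P →ₐ[ℂ] M)
    (fun x y => hcomm x y)
  have hd : ∀ x y, d (x ⊗ₜ y) = i x * j y := fun x y => Algebra.TensorProduct.lift_tmul _ _ _ _ _
  have hc2 : ∀ x y, I (π x) * diag (vn hM) (ω : Filter ℕ) (j y) =
      diag (vn hM) (ω : Filter ℕ) (j y) * I (π x) := by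
    intro x y
    obtain ⟨s, hs⟩ := UPow.mk_surjective (vn hN) (ω : Filter ℕ) (π x)
    rw [← hs, hI, diag_eq, ← map_mul, ← map_mul]
    exact congrArg _ (LInf.ext' fun k => hcomm _ _)
  let B : N ⊗[ℂ] P →ₐ[ℂ] UPow (vn hM) (ω : Filter ℕ) := Algebra.TensorProduct.lift
    ((I.comp π : N →⋆ₐ[ℂ] UPow (vn hM) (ω : Filter ℕ)) : N →ₐ[ℂ] UPow (vn hM) (ω : Filter ℕ))
    (((diag (vn hM) (ω : Filter ℕ)).comp j : P →⋆ₐ[ℂ] UPow (vn hM) (ω : Filter ℕ)) :
      P →ₐ[ℂ] UPow (vn hM) (ω : Filter ℕ))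
    (fun x y => hc2 x y)
  have hB : ∀ x y, B (x ⊗ₜ y) = I (π x) * diag (vn hM) (ω : Filter ℕ) (j y) :=
    fun x y => Algebra.TensorProduct.lift_tmul _ _ _ _ _
  obtain ⟨t, ht, -, -, -⟩ := exists_utr' (vn hM) ω
  obtain ⟨φ, hφ⟩ := extend (vn hM) ω hω d B
    (fun T => by
      induction T using TensorProduct.induction_on with
      | zero => exact ⟨0, by rw [map_zero, star_zero], by rw [map_zero, star_zero]⟩
      | tmul x y =>
        refine ⟨star x ⊗ₜ star y, ?_, ?_⟩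
        · rw [hd, hd, star_mul, ← map_star, ← map_star, hcomm]
        · rw [hB, hB, star_mul, ← map_star, ← map_star, ← map_star, ← map_star, hc2]
      | add T S hT hS =>
        obtain ⟨T', h1, h2⟩ := hT
        obtain ⟨S', h3, h4⟩ := hS
        exact ⟨T' + S', by rw [map_add, h1, h3, map_add, star_add],
          by rw [map_add, h2, h4, map_add, star_add]⟩)
    (fun T s hs => by
      have h1 : t (B T) = τ (d T) := by
        clear hs
        induction T using TensorProduct.induction_on with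
        | zero => rw [map_zero, map_zero, map_zero, map_zero]
        | tmul x y =>
          rw [hd, hB]
          obtain ⟨p, hp⟩ := UPow.mk_surjective (vn hN) (ω : Filter ℕ) (π x)
          rw [← hp, hI, diag_eq, ← map_mul]
          have h2 := ht (seqMap i p * cst (j y))
          have h3 : ∀ k, τ ((seqMap i p * cst (j y)).seq k) = ρ (p.seq k) * σ y := fun k => htr _ _
          simp only [h3] at h2
          have h4 := (tracePres hN ω π x p hp).mul_const (σ y)
          rw [tendsto_nhds_unique h2 h4, htr]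
        | add T S hT hS => rw [map_add, map_add, map_add, map_add, hT, hS]
      rw [← h1, ← hs]
      exact ht s)
    (fun z ε hε => by
      obtain ⟨m, a, b, hab⟩ := hden z ε hε
      refine ⟨∑ l, a l ⊗ₜ b l, ?_⟩
      rw [map_sum]
      simp only [hd]
      exact hab)
  refine ⟨φ, fun x => ?_, fun y => ?_⟩
  · have h1 := hφ (x ⊗ₜ 1)
    rw [hd, hB, map_one, map_one, mul_one, mul_one] at h1
    exact h1
  · have h1 := hφ (1 ⊗ₜ y)
    rw [hd, hB, map_one i, map_one π, map_one I, one_mul, one_mul] at h1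
    exact h1

/-- The second tensor factor of a factor is a factor. -/
theorem factor_right {M N P : Type u} [CStarAlgebra M] [TracialVN M] [CStarAlgebra N]
    [TracialVN N] [CStarAlgebra P] [TracialVN P] {i : N →⋆ₐ[ℂ] M} {j : P →⋆ₐ[ℂ] M}
    (hM : IsFactor M) (h : Ten i j) : IsFactor P := by
  intro z hz
  have hc : ∀ w : M, j z * w = w * j z := by
    intro w
    rw [← sub_eq_zero, ← n2_eq_zero]
    refine le_antisymm (le_of_forall_pos_le_add fun ε hε => ?_) (n2_nonneg _)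
    have hpos : 0 < ‖j z‖ + 1 := by positivity
    obtain ⟨m, a, b, hab⟩ := h.dense w (ε / (2 * (‖j z‖ + 1))) (by positivity)
    have hS : j z * ∑ l, i (a l) * j (b l) = (∑ l, i (a l) * j (b l)) * j z := by
      rw [Finset.mul_sum, Finset.sum_mul]
      refine Finset.sum_congr rfl fun l _ => ?_
      rw [← mul_assoc, ← h.comm, mul_assoc, ← map_mul j, hz, map_mul j, mul_assoc]
    have e : j z * w - w * j z = j z * (w - ∑ l, i (a l) * j (b l)) -
        (w - ∑ l, i (a l) * j (b l)) * j z := by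
      rw [mul_sub, sub_mul, hS]; abel
    rw [e, zero_add]
    refine (n2_sub_le _ _).trans ?_
    have h1 := n2_mul_le_left (j z) (w - ∑ l, i (a l) * j (b l))
    have h2 := n2_mul_le_right (w - ∑ l, i (a l) * j (b l)) (j z)
    have h3 : (‖j z‖ + 1) * n2 (w - ∑ l, i (a l) * j (b l)) ≤
        (‖j z‖ + 1) * (ε / (2 * (‖j z‖ + 1))) := mul_le_mul_of_nonneg_left hab.le hpos.le
    have h4 : (‖j z‖ + 1) * (ε / (2 * (‖j z‖ + 1))) = ε / 2 := by
      field_simp
    have h5 := n2_nonneg (w - ∑ l, i (a l) * j (b l))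
    nlinarith
  obtain ⟨c, hcz⟩ := hM (j z) hc
  refine ⟨c, inj_map j h.tr_j ?_⟩
  rw [hcz, map_smul, map_one]

/-- One step: every embedding is conjugate to the diagonal embedding. -/
theorem conj_diag (hM : Stmt.IsII1Factor τ) (hN : Stmt.IsII1Factor ρ) (hP : Stmt.IsTracialVN σ)
    (hT : Stmt.IsTensor τ ρ σ) (hG : ¬ Stmt.Gamma ρ) (ω : Ultrafilter ℕ)
    (hω : (ω : Filter ℕ) ≤ cofinite) (hJ : JungProperty (vn hM) (ω : Filter ℕ))
    (π : N →⋆ₐ[ℂ] UPow (vn hN) (ω : Filter ℕ)) :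
    ∃ V ∈ unitary (UPow (vn hN) (ω : Filter ℕ)), ∀ x,
      π x = V * diag (vn hN) (ω : Filter ℕ) x * star V := by
  classical
  let _ : TracialVN M := toTracialVN (vn hM)
  let _ : TracialVN N := toTracialVN (vn hN)
  let _ : TracialVN P := toTracialVN hP
  obtain ⟨i, j, hcomm, htr, hden⟩ := hT
  have hTen : Ten i j := ⟨hcomm, htr, hden⟩
  have hi : ∀ x, τ (i x) = ρ x := hTen.tr_i
  have hω' : (ω : Filter ℕ) ≤ atTop := hω.trans Nat.cofinite_eq_atTop.le
  obtain ⟨I, hI⟩ := exists_iU (vn hM) (vn hN) (ω : Filter ℕ) i hi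
  obtain ⟨φ, hφ, -⟩ := exists_ext hM hN i j hcomm htr hden ω hω' I hI π
  obtain ⟨u, hu, hux⟩ := hJ (diag (vn hM) (ω : Filter ℕ)) φ (tracePres hM ω _) (tracePres hM ω _)
  have hu1 : star u * u = 1 := Unitary.star_mul_self_of_mem hu
  have hu2 : u * star u = 1 := Unitary.mul_star_self_of_mem hu
  obtain ⟨s, rfl⟩ := UPow.mk_surjective (vn hM) (ω : Filter ℕ) u
  obtain ⟨C', hC'⟩ := s.2
  set C : ℝ := max C' 1 with hCdef
  have hC1 : 1 ≤ C := le_max_right _ _
  have hsC : ∀ k, ‖s.seq k‖ ≤ C := fun k => (hC' k).trans (le_max_left _ _)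
  -- lifts of `π x`
  choose p hp using fun x => UPow.mk_surjective (vn hN) (ω : Filter ℕ) (π x)
  -- intertwining
  have hint : ∀ (x : N) (q : LInf N), UPow.mk (vn hN) (ω : Filter ℕ) q = π x →
      Tendsto (fun k => n2 (i (q.seq k) * s.seq k - s.seq k * i x)) (ω : Filter ℕ) (𝓝 0) := by
    intro x q hq
    have h1 : φ (i x) * UPow.mk (vn hM) (ω : Filter ℕ) s =
        UPow.mk (vn hM) (ω : Filter ℕ) s * diag (vn hM) (ω : Filter ℕ) (i x) := by
      rw [hux, mul_assoc, hu1, mul_one]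
    rw [hφ, ← hq, hI, diag_eq, ← map_mul, ← map_mul, UPow.mk_eq] at h1
    exact h1
  have hss : Tendsto (fun k => n2 (s.seq k * star (s.seq k) - 1)) (ω : Filter ℕ) (𝓝 0) := by
    rw [UPow.star_mk, ← map_mul, ← map_one (UPow.mk (vn hM) (ω : Filter ℕ)), UPow.mk_eq] at hu2
    exact hu2
  obtain ⟨F, K, hF, hK, hgap⟩ := gap_of_not_gamma (show IsFactor N from hN.2.1) hN.2.2 hG
  -- the good pairs
  set Q : ℕ → ℕ → Prop := fun m k => ∃ v : N, ‖v‖ ≤ 1 ∧ n2 (star v * v - 1) ≤ 1 / ((m : ℝ) + 1) ∧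
    ∀ x y : N, n2 (y * v - v * x) ≤
      n2 (i y * s.seq k - s.seq k * i x) + 1 / ((m : ℝ) + 1) * (‖x‖ + ‖y‖) with hQ
  have hQev : ∀ m, ∀ᶠ k in (ω : Filter ℕ), Q m k := by
    intro m
    obtain ⟨ε₀, hε₀, hkey⟩ := key (factor_right (show IsFactor M from hM.2.1) hTen) hTen hK hgap hC1
      (ψ := 1 / ((m : ℝ) + 1)) (by positivity)
    have h1 : ∀ᶠ k in (ω : Filter ℕ), n2 (s.seq k * star (s.seq k) - 1) ≤ ε₀ :=
      hss.eventually (Iic_mem_nhds hε₀)
    have h2 : ∀ᶠ k in (ω : Filter ℕ), ∀ f ∈ F,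
        n2 (i ((p f).seq k) * s.seq k - s.seq k * i f) ≤ ε₀ ∧
        n2 (i (star ((p f).seq k)) * s.seq k - s.seq k * i (star f)) ≤ ε₀ := by
      rw [Filter.eventually_all_finset]
      intro f _
      refine Filter.Eventually.and ((hint f (p f) (hp f)).eventually (Iic_mem_nhds hε₀)) ?_
      have h3 := hint (star f) (star (p f)) (by rw [← UPow.star_mk, hp, map_star])
      exact h3.eventually (Iic_mem_nhds hε₀)
    filter_upwards [h1, h2] with k hk1 hk2
    exact hkey (s.seq k) (fun f => (p f).seq k) (hsC k) hk1 hk2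
  -- the diagonal choice
  set M' : ℕ → ℕ := fun k => Nat.findGreatest (fun m => Q m k) k with hM'
  have hM1 : ∀ m, ∀ᶠ k in (ω : Filter ℕ), m ≤ M' k ∧ Q (M' k) k := by
    intro m
    have h1 : ∀ᶠ k in (ω : Filter ℕ), m ≤ k := hω' (eventually_ge_atTop m)
    filter_upwards [h1, hQev m] with k hk1 hk2
    exact ⟨Nat.le_findGreatest hk1 hk2, Nat.findGreatest_spec (P := fun m => Q m k) hk1 hk2⟩
  set v : ℕ → N := fun k => if h : Q (M' k) k then h.choose else 0 with hv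
  have hvQ : ∀ k, Q (M' k) k → ‖v k‖ ≤ 1 ∧ n2 (star (v k) * v k - 1) ≤ 1 / ((M' k : ℝ) + 1) ∧
      ∀ x y : N, n2 (y * v k - v k * x) ≤
        n2 (i y * s.seq k - s.seq k * i x) + 1 / ((M' k : ℝ) + 1) * (‖x‖ + ‖y‖) := by
    intro k hk
    have h1 : v k = hk.choose := dif_pos hk
    rw [h1]
    exact hk.choose_spec
  have hvn : ∀ k, ‖v k‖ ≤ 1 := by
    intro k
    by_cases hk : Q (M' k) k
    · exact (hvQ k hk).1
    · have h1 : v k = 0 := dif_neg hk
      rw [h1, norm_zero]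
      exact zero_le_one
  -- the error tends to `0`
  have herr : Tendsto (fun k => 1 / ((M' k : ℝ) + 1)) (ω : Filter ℕ) (𝓝 0) := by
    have h1 : Tendsto M' (ω : Filter ℕ) atTop := by
      rw [tendsto_atTop]
      intro m
      filter_upwards [hM1 m] with k hk
      exact hk.1
    exact tendsto_one_div_add_atTop_nhds_zero_nat.comp h1
  have hgood : ∀ᶠ k in (ω : Filter ℕ), Q (M' k) k := by
    filter_upwards [hM1 0] with k hk
    exact hk.2
  set vs : LInf N := ⟨v, 1, hvn⟩ with hvs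
  set V : UPow (vn hN) (ω : Filter ℕ) := UPow.mk (vn hN) (ω : Filter ℕ) vs with hVdef
  have hvv : Tendsto (fun k => n2 (star (v k) * v k - 1)) (ω : Filter ℕ) (𝓝 0) := by
    refine squeeze_zero' (Eventually.of_forall fun k => n2_nonneg _) ?_ herr
    filter_upwards [hgood] with k hk
    exact (hvQ k hk).2.1
  have hvv' : Tendsto (fun k => n2 (v k * star (v k) - 1)) (ω : Filter ℕ) (𝓝 0) := by
    refine hvv.congr fun k => ?_
    have e1 : n2 (star (v k) * v k - 1) = n2 (1 - star (v k) * v k) := by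
      rw [← neg_sub, n2_neg]
    have e2 : n2 (v k * star (v k) - 1) = n2 (1 - v k * star (v k)) := by
      rw [← neg_sub, n2_neg]
    rw [e1, e2, n2_one_sub_left]
  have hV1 : star V * V = 1 := by
    rw [hVdef, UPow.star_mk, ← map_mul, ← map_one (UPow.mk (vn hN) (ω : Filter ℕ)), UPow.mk_eq]
    exact hvv
  have hV2 : V * star V = 1 := by
    rw [hVdef, UPow.star_mk, ← map_mul, ← map_one (UPow.mk (vn hN) (ω : Filter ℕ)), UPow.mk_eq]
    exact hvv'
  refine ⟨V, Unitary.mem_iff.2 ⟨hV1, hV2⟩, fun x => ?_⟩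
  have h1 : π x * V = V * diag (vn hN) (ω : Filter ℕ) x := by
    rw [← hp x, diag_eq, hVdef, ← map_mul, ← map_mul, UPow.mk_eq]
    obtain ⟨D, hD⟩ := (p x).2
    have h2 : Tendsto (fun k => n2 (i ((p x).seq k) * s.seq k - s.seq k * i x) +
        1 / ((M' k : ℝ) + 1) * (‖x‖ + D)) (ω : Filter ℕ) (𝓝 0) := by
      have h3 := (hint x (p x) (hp x)).add (herr.mul_const (‖x‖ + D))
      rwa [zero_mul, add_zero] at h3
    have h4 : Tendsto (fun k => n2 ((p x).seq k * v k - v k * x)) (ω : Filter ℕ) (𝓝 0) := by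
      refine squeeze_zero' (Eventually.of_forall fun k => n2_nonneg _) ?_ h2
      filter_upwards [hgood] with k hk
      refine ((hvQ k hk).2.2 x ((p x).seq k)).trans ?_
      have h5 : ‖(p x).seq k‖ ≤ D := hD k
      have h6 : 1 / ((M' k : ℝ) + 1) * (‖x‖ + ‖(p x).seq k‖) ≤
          1 / ((M' k : ℝ) + 1) * (‖x‖ + D) :=
        mul_le_mul_of_nonneg_left (by linarith) (by positivity)
      linarith
    exact h4
  rw [← h1, mul_assoc, hV2, mul_one]

/-- The Jung property passes to tensor factors without property Gamma. -/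
theorem tensor_factor (hM : Stmt.IsII1Factor τ) (hN : Stmt.IsII1Factor ρ) (hP : Stmt.IsTracialVN σ)
    (hT : Stmt.IsTensor τ ρ σ) (hG : ¬ Stmt.Gamma ρ) (ω : Ultrafilter ℕ)
    (hω : (ω : Filter ℕ) ≤ cofinite) (hJ : JungProperty (vn hM) (ω : Filter ℕ)) :
    JungProperty (vn hN) (ω : Filter ℕ) := by
  intro π₁ π₂ _ _
  obtain ⟨V, hV, hVx⟩ := conj_diag hM hN hP hT hG ω hω hJ π₁
  obtain ⟨W, hW, hWx⟩ := conj_diag hM hN hP hT hG ω hω hJ π₂
  have hV1 : star V * V = 1 := Unitary.star_mul_self_of_mem hV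
  refine ⟨W * star V, mul_mem hW (Unitary.star_mem hV), fun x => ?_⟩
  rw [hVx, hWx, star_mul, star_star]
  calc W * diag (vn hN) (ω : Filter ℕ) x * star W
      = W * (star V * V) * diag (vn hN) (ω : Filter ℕ) x * (star V * V) * star W := by
        rw [hV1, mul_one, mul_one]
    _ = W * star V * (V * diag (vn hN) (ω : Filter ℕ) x * star V) * (V * star W) := by
        simp only [mul_assoc]

end Pool.Agent.H28.JT
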