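import Pool.Agent.H28.JP.Main
import Pool.Agent.H28.JT.Defs

set_option autoImplicit false

/-!
# JT: the map of ultrapowers induced by a trace preserving embedding
-/

universe u

open Filter Topology H80VN Pool.Agent.H68.Amp Pool.Agent.H28.JP

namespace Pool.Agent.H28.JT

variable {M N : Type u} [CStarAlgebra M] [CStarAlgebra N] {τ : M →ₗ[ℂ] ℂ} {ρ : N →ₗ[ℂ] ℂ}

theorem seqMap_seq (i : N →⋆ₐ[ℂ] M) (s : LInf N) (k : ℕ) : (seqMap i s).seq k = i (s.seq k) := rfl

theorem norm2_map (i : N →⋆ₐ[ℂ] M) (hi : ∀ x, τ (i x) = ρ x) (x : N) :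
    Stmt.norm2 τ (i x) = Stmt.norm2 ρ x := by
  unfold Stmt.norm2
  rw [← map_star, ← map_mul, hi]

variable (hM : Stmt.IsTracialVN τ) (hN : Stmt.IsTracialVN ρ) (ω : Filter ℕ)

theorem mk_seqMap (i : N →⋆ₐ[ℂ] M) (hi : ∀ x, τ (i x) = ρ x) {s t : LInf N}
    (h : UPow.mk hN ω s = UPow.mk hN ω t) :
    UPow.mk hM ω (seqMap i s) = UPow.mk hM ω (seqMap i t) := by
  rw [UPow.mk_eq] at h ⊢
  refine h.congr fun k => ?_
  have e1 : (seqMap i s - seqMap i t).seq k = i ((s - t).seq k) := by
    show i (s.seq k) - i (t.seq k) = i (s.seq k - t.seq k)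
    rw [map_sub]
  rw [e1, norm2_map i hi]

/-- The map of ultrapowers induced by a trace preserving `i`. -/
theorem exists_iU (i : N →⋆ₐ[ℂ] M) (hi : ∀ x, τ (i x) = ρ x) :
    ∃ I : UPow hN ω →⋆ₐ[ℂ] UPow hM ω, ∀ s, I (UPow.mk hN ω s) = UPow.mk hM ω (seqMap i s) := by
  set f : UPow hN ω → UPow hM ω := fun a =>
    UPow.mk hM ω (seqMap i (Function.surjInv (UPow.mk_surjective hN ω) a)) with hf
  have key : ∀ s, f (UPow.mk hN ω s) = UPow.mk hM ω (seqMap i s) := fun s =>
    mk_seqMap hM hN ω i hi (Function.surjInv_eq (UPow.mk_surjective hN ω) _)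
  refine ⟨{
    toFun := f
    map_one' := by
      rw [← map_one (UPow.mk hN ω), key, ← map_one (UPow.mk hM ω)]
      exact congrArg _ (LInf.ext' fun k => map_one i)
    map_mul' := fun a b => by
      obtain ⟨x, rfl⟩ := UPow.mk_surjective hN ω a
      obtain ⟨y, rfl⟩ := UPow.mk_surjective hN ω b
      rw [← map_mul (UPow.mk hN ω), key, key, key, ← map_mul (UPow.mk hM ω)]
      exact congrArg _ (LInf.ext' fun k => map_mul i _ _)
    map_zero' := by
      rw [← map_zero (UPow.mk hN ω), key, ← map_zero (UPow.mk hM ω)]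
      exact congrArg _ (LInf.ext' fun k => map_zero i)
    map_add' := fun a b => by
      obtain ⟨x, rfl⟩ := UPow.mk_surjective hN ω a
      obtain ⟨y, rfl⟩ := UPow.mk_surjective hN ω b
      rw [← map_add (UPow.mk hN ω), key, key, key, ← map_add (UPow.mk hM ω)]
      exact congrArg _ (LInf.ext' fun k => map_add i _ _)
    commutes' := fun c => by
      have e1 : algebraMap ℂ (UPow hN ω) c = UPow.mk hN ω (c • 1) := by
        rw [UPow.mk_smul, map_one, Algebra.algebraMap_eq_smul_one]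
      have e2 : algebraMap ℂ (UPow hM ω) c = UPow.mk hM ω (c • 1) := by
        rw [UPow.mk_smul, map_one, Algebra.algebraMap_eq_smul_one]
      rw [e1, e2, key]
      refine congrArg _ (LInf.ext' fun k => ?_)
      show i (c • (1 : N)) = c • (1 : M)
      rw [map_smul, map_one]
    map_star' := fun a => by
      obtain ⟨x, rfl⟩ := UPow.mk_surjective hN ω a
      rw [UPow.star_mk, key, key, UPow.star_mk]
      exact congrArg _ (LInf.ext' fun k => map_star i _) }, key⟩

end Pool.Agent.H28.JT
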