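import Pool.Agent.H28.JT.Pol

set_option autoImplicit false

/-!
# JT: truncation by the resolvent

PROOF. `h = star b * b`, `g = (1 + h / t)⁻¹ = cfc (fun r => (1 + max r 0 / t)⁻¹) h` (`0 ≤ h`, so
`g * (1 + t⁻¹ • h) = 1 = (1 + t⁻¹ • h) * g`), `b' = b * g`. `star b' * b' = g h g = cfc (r / (1 + r / t) ^ 2) h ≤ t / 4`,
so `‖b * g‖ ≤ √t / 2`, `‖g‖ ≤ 1`, `‖b * g * star b‖ ≤ t` (it is a star of ..: `b g^(1/2)`, norm squared `‖h g‖ ≤ t`).
`b - b' = t⁻¹ • b * h * g`, `n2 (b - b') ^ 2 = tr (cfc (r * (r / t) ^ 2 / (1 + r / t) ^ 2) h) ≤ tr (h ^ 2) / (4 t)`.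
`[g, x] = g x - x g = g (x (1 + h / t) - (1 + h / t) x) g = t⁻¹ • g (x h - h x) g`,
`x h - h x = (x star b - star b y) b + star b (y b - b x)`. So
`y b' - b' x = (y b - b x) g + b (x g - g x)`,
`b (x g - g x) = - t⁻¹ • (b g (x star b - star b y) b g + b g star b (y b - b x) g)`, 2-norm at most
`(1/4) n2 (x star b - star b y) + n2 (y b - b x)`; `n2 (x star b - star b y) = n2 (star y * b - b * star x)`.
-/

universe u

open Filter Topology H80VN

namespace Pool.Agent.H28.JT

variable {N : Type u} [CStarAlgebra N] [TracialVN N]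

attribute [local instance] CStarAlgebra.spectralOrder CStarAlgebra.spectralOrderedRing

/-- The resolvent function. -/
noncomputable def rsG (t r : ℝ) : ℝ := (1 + t⁻¹ * pP r)⁻¹

theorem pP_nonneg (r : ℝ) : 0 ≤ pP r := le_max_right _ _

theorem rs_pos {t : ℝ} (ht : 0 < t) (r : ℝ) : 0 < 1 + t⁻¹ * pP r := by
  have := mul_nonneg (inv_pos.2 ht).le (pP_nonneg r)
  linarith

theorem rsG_cont {t : ℝ} (ht : 0 < t) : Continuous (rsG t) :=
  (continuous_const.add (continuous_const.mul pP_cont)).inv₀ fun r => (rs_pos ht r).ne'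

theorem rsG_pos {t : ℝ} (ht : 0 < t) (r : ℝ) : 0 < rsG t r := inv_pos.2 (rs_pos ht r)

theorem rsG_le {t : ℝ} (ht : 0 < t) (r : ℝ) : rsG t r ≤ 1 :=
  inv_le_one_of_one_le₀ (by
    have := mul_nonneg (inv_pos.2 ht).le (pP_nonneg r)
    linarith)

/-- with `x = r / t`, `r (1 + x)⁻¹ ≤ t` -/
theorem rs_a {t : ℝ} (ht : 0 < t) (r : ℝ) : rsG t r * pP r ≤ t := by
  unfold rsG
  rw [← div_eq_inv_mul, div_le_iff₀ (rs_pos ht r), mul_add, mul_one, ← mul_assoc,
    mul_inv_cancel₀ ht.ne', one_mul]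
  linarith

theorem rs_b {t : ℝ} (ht : 0 < t) (r : ℝ) : rsG t r * pP r * rsG t r ≤ t / 4 := by
  obtain ⟨x, hx⟩ : ∃ x, x = t⁻¹ * pP r := ⟨_, rfl⟩
  have hP : pP r = t * x := by rw [hx, ← mul_assoc, mul_inv_cancel₀ ht.ne', one_mul]
  have hx0 : 0 ≤ x := by rw [hx]; exact mul_nonneg (inv_pos.2 ht).le (pP_nonneg r)
  have h1 : rsG t r = (1 + x)⁻¹ := by unfold rsG; rw [hx]
  have h2 : 0 < 1 + x := by linarith
  rw [h1, hP]
  have h3 : (1 + x)⁻¹ * (t * x) * (1 + x)⁻¹ = t * x / (1 + x) ^ 2 := by field_simp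
  rw [h3, div_le_iff₀ (by positivity)]
  nlinarith [mul_nonneg ht.le (sq_nonneg (x - 1))]

theorem rs_c {t : ℝ} (ht : 0 < t) (r : ℝ) :
    (1 - rsG t r) * pP r * (1 - rsG t r) ≤ t⁻¹ * (pP r * pP r) := by
  obtain ⟨x, hx⟩ : ∃ x, x = t⁻¹ * pP r := ⟨_, rfl⟩
  have hP : pP r = t * x := by rw [hx, ← mul_assoc, mul_inv_cancel₀ ht.ne', one_mul]
  have hx0 : 0 ≤ x := by rw [hx]; exact mul_nonneg (inv_pos.2 ht).le (pP_nonneg r)
  have h1 : rsG t r = (1 + x)⁻¹ := by unfold rsG; rw [hx]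
  have h2 : 0 < 1 + x := by linarith
  rw [h1, hP]
  have h3 : (1 - (1 + x)⁻¹) * (t * x) * (1 - (1 + x)⁻¹) = t * x ^ 3 / (1 + x) ^ 2 := by
    field_simp
    ring
  have h4 : t⁻¹ * (t * x * (t * x)) = t * x ^ 2 := by field_simp
  rw [h3, h4, div_le_iff₀ (by positivity)]
  have h5 : 0 ≤ t * x ^ 2 := by positivity
  nlinarith [mul_nonneg h5 hx0, mul_nonneg h5 (sq_nonneg x)]

theorem exists_trunc (b : N) {t : ℝ} (ht : 0 < t) :
    ∃ b' : N, ‖b'‖ ≤ √t ∧ n2 (b - b') ^ 2 ≤ n2 (star b * b) ^ 2 / t ∧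
      ∀ x y : N, n2 (y * b' - b' * x) ≤ 2 * n2 (y * b - b * x) + n2 (star y * b - b * star x) := by
  obtain ⟨h, hh⟩ : ∃ h, h = star b * b := ⟨_, rfl⟩
  have hsa : star h = h := by rw [hh, star_mul, star_star]
  have hP : cfc pP h = h := by rw [hh]; exact pP_cfc b
  have hone : cfc (fun _ : ℝ => (1 : ℝ)) h = 1 := by rw [fc_const hsa, one_smul]
  have hGc := rsG_cont ht
  obtain ⟨g, hg⟩ : ∃ g, g = cfc (rsG t) h := ⟨_, rfl⟩
  have hgs : star g = g := by rw [hg]; exact fc_sa _ _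
  have hcP : Continuous fun r : ℝ => t⁻¹ * pP r := continuous_const.mul pP_cont
  have hc1 : Continuous fun r : ℝ => 1 + t⁻¹ * pP r := continuous_const.add hcP
  have hR : cfc (fun r : ℝ => 1 + t⁻¹ * pP r) h = 1 + (t⁻¹ : ℝ) • h := by
    rw [fc_add continuous_const hcP, hone, fc_cmul pP_cont, hP]
  have hgR : g * (1 + (t⁻¹ : ℝ) • h) = 1 := by
    rw [← hR, hg, ← fc_mul hGc hc1, ← hone]
    exact fc_congr (fun r => inv_mul_cancel₀ (rs_pos ht r).ne') h
  have hRg : (1 + (t⁻¹ : ℝ) • h) * g = 1 := by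
    rw [← hR, hg, ← fc_mul hc1 hGc, ← hone]
    exact fc_congr (fun r => mul_inv_cancel₀ (rs_pos ht r).ne') h
  have hg1 : ‖g‖ ≤ 1 := by
    rw [hg]
    exact fc_norm_le zero_le_one (fun r => by
      rw [abs_of_pos (rsG_pos ht r)]; exact rsG_le ht r) h
  have hGP : Continuous fun r => rsG t r * pP r := hGc.mul pP_cont
  have hbg : ‖b * g‖ * ‖b * g‖ ≤ t / 4 := by
    rw [← CStarRing.norm_star_mul_self]
    have h1 : star (b * g) * (b * g) = cfc (fun r => rsG t r * pP r * rsG t r) h := by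
      rw [fc_mul hGP hGc, fc_mul hGc pP_cont, hP, ← hg, star_mul, hgs, hh]
      simp only [mul_assoc]
    rw [h1]
    refine fc_norm_le (by positivity) (fun r => ?_) h
    rw [abs_of_nonneg (mul_nonneg (mul_nonneg (rsG_pos ht r).le (pP_nonneg r)) (rsG_pos ht r).le)]
    exact rs_b ht r
  have hbgb : ‖b * g * star b‖ ≤ t := by
    obtain ⟨k, hk⟩ : ∃ k, k = cfc (fun r => √(rsG t r)) h := ⟨_, rfl⟩
    have hkc : Continuous fun r => √(rsG t r) := Real.continuous_sqrt.comp hGc
    have hks : star k = k := by rw [hk]; exact fc_sa _ _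
    have hkk : k * k = g := by
      rw [hk, hg, ← fc_mul hkc hkc]
      exact fc_congr (fun r => Real.mul_self_sqrt (rsG_pos ht r).le) h
    have h1 : b * g * star b = (b * k) * star (b * k) := by
      rw [star_mul, hks, ← hkk]
      simp only [mul_assoc]
    rw [h1, CStarRing.norm_self_mul_star, ← CStarRing.norm_star_mul_self]
    have hkP : Continuous fun r => √(rsG t r) * pP r := hkc.mul pP_cont
    have h2 : star (b * k) * (b * k) = cfc (fun r => √(rsG t r) * pP r * √(rsG t r)) h := by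
      rw [fc_mul hkP hkc, fc_mul hkc pP_cont, hP, ← hk, star_mul, hks, hh]
      simp only [mul_assoc]
    rw [h2]
    refine fc_norm_le ht.le (fun r => ?_) h
    have h3 : √(rsG t r) * pP r * √(rsG t r) = rsG t r * pP r := by
      calc _ = (√(rsG t r) * √(rsG t r)) * pP r := by ring
        _ = _ := by rw [Real.mul_self_sqrt (rsG_pos ht r).le]
    rw [h3, abs_of_nonneg (mul_nonneg (rsG_pos ht r).le (pP_nonneg r))]
    exact rs_a ht r
  refine ⟨b * g, ?_, ?_, ?_⟩
  · refine Real.le_sqrt_of_sq_le ?_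
    rw [sq]
    linarith
  · rw [← hh]
    have hc2 : Continuous fun r => 1 - rsG t r := continuous_const.sub hGc
    have hc3 : Continuous fun r => (1 - rsG t r) * pP r := hc2.mul pP_cont
    have hc4 : Continuous fun r => pP r * pP r := pP_cont.mul pP_cont
    have h1 : star (b - b * g) * (b - b * g) =
        cfc (fun r => (1 - rsG t r) * pP r * (1 - rsG t r)) h := by
      have h3 : cfc (fun r => 1 - rsG t r) h = 1 - g := by
        rw [fc_sub continuous_const hGc, hone, hg]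
      rw [fc_mul hc3 hc2, fc_mul hc2 pP_cont, h3, hP, star_sub, star_mul, hgs, hh]
      noncomm_ring
    have h2 : n2 h ^ 2 / t = (TracialVN.tr (cfc (fun r => t⁻¹ * (pP r * pP r)) h)).re := by
      have h3 : cfc (fun r => t⁻¹ * (pP r * pP r)) h = (t⁻¹ : ℝ) • (h * h) := by
        rw [fc_cmul hc4, fc_mul pP_cont pP_cont, hP]
      rw [h3, n2_sq_sa hsa]
      have h4 := rt_smul (t⁻¹) (h * h)
      unfold rt at h4
      rw [h4, div_eq_inv_mul]
    rw [h2, n2_sq, h1]
    exact fc_tr_mono (hc3.mul hc2) (continuous_const.mul hc4) (rs_c ht) h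
  · intro x y
    have h1 : y * (b * g) - b * g * x = (y * b - b * x) * g - (t⁻¹ : ℝ) •
        ((b * g) * (x * star b - star b * y) * (b * g) +
          (b * g * star b) * (y * b - b * x) * g) := by
      have h2 : g * x - x * g = (t⁻¹ : ℝ) • (g * (x * h - h * x) * g) := by
        have h3 : g * (x * (1 + (t⁻¹ : ℝ) • h) - (1 + (t⁻¹ : ℝ) • h) * x) * g =
            g * x - x * g := by
          calc _ = g * x * ((1 + (t⁻¹ : ℝ) • h) * g) - (g * (1 + (t⁻¹ : ℝ) • h)) * x * g := by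
                noncomm_ring
            _ = g * x - x * g := by rw [hRg, hgR, mul_one, one_mul]
        rw [← h3, mul_add, mul_one, add_mul, one_mul, mul_smul_comm, smul_mul_assoc,
          add_sub_add_left_eq_sub, ← smul_sub, mul_smul_comm, smul_mul_assoc]
      have h4 : x * h - h * x = (x * star b - star b * y) * b + star b * (y * b - b * x) := by
        rw [hh]; noncomm_ring
      have h5 : y * (b * g) - b * g * x = (y * b - b * x) * g - b * (g * x - x * g) := by
        noncomm_ring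
      rw [h5, h2, h4, mul_smul_comm]
      congr 2
      noncomm_ring
    have h6 : n2 (x * star b - star b * y) = n2 (star y * b - b * star x) := by
      rw [← n2_star, star_sub, star_mul, star_mul, star_star, n2_sub_comm]
    have h7 : n2 ((y * b - b * x) * g) ≤ n2 (y * b - b * x) := by
      calc _ ≤ n2 (y * b - b * x) * ‖g‖ := n2_mul_le_right _ _
        _ ≤ n2 (y * b - b * x) * 1 := mul_le_mul_of_nonneg_left hg1 (n2_nonneg _)
        _ = _ := mul_one _
    have h8 : n2 ((b * g) * (x * star b - star b * y) * (b * g)) ≤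
        t / 4 * n2 (star y * b - b * star x) := by
      rw [← h6]
      calc _ ≤ n2 ((b * g) * (x * star b - star b * y)) * ‖b * g‖ := n2_mul_le_right _ _
        _ ≤ (‖b * g‖ * n2 (x * star b - star b * y)) * ‖b * g‖ :=
            mul_le_mul_of_nonneg_right (n2_mul_le_left _ _) (norm_nonneg _)
        _ = (‖b * g‖ * ‖b * g‖) * n2 (x * star b - star b * y) := by ring
        _ ≤ _ := mul_le_mul_of_nonneg_right hbg (n2_nonneg _)
    have h9 : n2 ((b * g * star b) * (y * b - b * x) * g) ≤ t * n2 (y * b - b * x) := by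
      calc _ ≤ n2 ((b * g * star b) * (y * b - b * x)) * ‖g‖ := n2_mul_le_right _ _
        _ ≤ n2 ((b * g * star b) * (y * b - b * x)) * 1 :=
            mul_le_mul_of_nonneg_left hg1 (n2_nonneg _)
        _ = n2 ((b * g * star b) * (y * b - b * x)) := mul_one _
        _ ≤ ‖b * g * star b‖ * n2 (y * b - b * x) := n2_mul_le_left _ _
        _ ≤ _ := mul_le_mul_of_nonneg_right hbgb (n2_nonneg _)
    have h10 : n2 (star y * b - b * star x) ≥ 0 := n2_nonneg _
    rw [h1]
    refine (n2_sub_le _ _).trans ?_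
    rw [n2_rsmul, abs_of_pos (inv_pos.2 ht)]
    have h11 := n2_add_le ((b * g) * (x * star b - star b * y) * (b * g))
      ((b * g * star b) * (y * b - b * x) * g)
    have h12 : t⁻¹ * n2 ((b * g) * (x * star b - star b * y) * (b * g) +
        (b * g * star b) * (y * b - b * x) * g) ≤
        t⁻¹ * (t / 4 * n2 (star y * b - b * star x) + t * n2 (y * b - b * x)) :=
      mul_le_mul_of_nonneg_left (by linarith) (inv_pos.2 ht).le
    have h13 : t⁻¹ * (t / 4 * n2 (star y * b - b * star x) + t * n2 (y * b - b * x)) =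
        n2 (star y * b - b * star x) / 4 + n2 (y * b - b * x) := by
      field_simp
    linarith

end Pool.Agent.H28.JT
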