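import Pool.Agent.H80.VNGamma

set_option autoImplicit false

/-!
# JT: random signs

PROOF. `Psi b s = n2 (star b * b + ∑ l ∈ s, star (a l) * a l) ^ 2 + ∑ l ∈ s, n2 (star b * a l + star (a l) * b) ^ 2
+ ∑ k ∈ s, ∑ l ∈ s, n2 (star (a k) * a l + star (a l) * a k) ^ 2`. By the parallelogram law (`par`),
`Psi (b + a x) s + Psi (b - a x) s ≤ 2 * Psi b (insert x s)` for `x ∉ s`
(`star (b ± c) * (b ± c) = (star b * b + star c * c) ± (star b * c + star c * b)`). Let `Q : N → ℝ` satisfy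
`Q (b + a) + Q (b - a) = 2 * (Q b + Q a)`. Induction on `s`: for all `b` there are signs with
`Q b + ∑ l ∈ s, Q (a l) - α * Psi b s ≤ Q b' - α * n2 (star b' * b') ^ 2`, `b' = b + ∑ l ∈ s, ± a l`.
`Psi 0 univ ≤ 5 C ^ 4`: with `S = ∑ star (a l) * a l`: `n2 S ^ 2 = ∑ tr (star (a l) * (a l * S)) ≤ √(∑ n2 (a l) ^ 2) √(∑ n2 (a l * S) ^ 2) ≤ C ^ 2 * n2 S`
and `∑ k, ∑ l, n2 (star (a k) * a l) ^ 2 ≤ ∑ l, C ^ 2 * n2 (a l) ^ 2 ≤ C ^ 4`, `n2 (x + y) ^ 2 ≤ 2 n2 x ^ 2 + 2 n2 y ^ 2`,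
`n2 (star (a l) * a k) = n2 (star (a k) * a l)` (adjoint).
Take `Q b = n2 (e * b * f) ^ 2 - β * ∑ q ∈ F, n2 (q.2 * b - b * q.1) ^ 2`, `α = c / (20 C ^ 4)`, `β = c / (4 δ)`, `b = 0`:
`c / 2 ≤ Q b' - α n2 (star b' * b') ^ 2`. With `V = n2 (star b' * b')`, `n2 (e * b' * f) ^ 2 ≤ n2 b' ^ 2 ≤ V`:
`α V ^ 2 ≤ V`, so `V ≤ 1 / α`, and `β ∑ .. ≤ V ≤ 1 / α`.
-/

universe u

open Filter Topology H80VN

namespace Pool.Agent.H28.JT

variable {N : Type u} [CStarAlgebra N] [TracialVN N]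

/-- The potential. -/
noncomputable def sgPsi {m : ℕ} (a : Fin m → N) (b : N) (s : Finset (Fin m)) : ℝ :=
  n2 (star b * b + ∑ l ∈ s, star (a l) * a l) ^ 2 +
    ∑ l ∈ s, n2 (star b * a l + star (a l) * b) ^ 2 +
    ∑ k ∈ s, ∑ l ∈ s, n2 (star (a k) * a l + star (a l) * a k) ^ 2

theorem sg_par (x y : N) : n2 (x + y) ^ 2 + n2 (x - y) ^ 2 = 2 * (n2 x ^ 2 + n2 y ^ 2) := by
  have := par x y
  linarith

theorem sgPsi_step {m : ℕ} (a : Fin m → N) (b : N) (s : Finset (Fin m)) {x : Fin m} (hx : x ∉ s) :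
    sgPsi a (b + a x) s + sgPsi a (b - a x) s ≤ 2 * sgPsi a b (insert x s) := by
  have h1 : n2 (star (b + a x) * (b + a x) + ∑ l ∈ s, star (a l) * a l) ^ 2 +
      n2 (star (b - a x) * (b - a x) + ∑ l ∈ s, star (a l) * a l) ^ 2 =
      2 * (n2 (star b * b + ∑ l ∈ insert x s, star (a l) * a l) ^ 2 +
        n2 (star b * a x + star (a x) * b) ^ 2) := by
    rw [← sg_par, Finset.sum_insert hx, star_add, star_sub]
    congr 3 <;> noncomm_ring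
  have h2 : ∑ l ∈ s, n2 (star (b + a x) * a l + star (a l) * (b + a x)) ^ 2 +
      ∑ l ∈ s, n2 (star (b - a x) * a l + star (a l) * (b - a x)) ^ 2 =
      2 * (∑ l ∈ s, n2 (star b * a l + star (a l) * b) ^ 2 +
        ∑ l ∈ s, n2 (star (a x) * a l + star (a l) * a x) ^ 2) := by
    rw [← Finset.sum_add_distrib, ← Finset.sum_add_distrib, Finset.mul_sum]
    refine Finset.sum_congr rfl fun l _ => ?_
    rw [← sg_par, star_add, star_sub]
    congr 3 <;> noncomm_ring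
  have h3 : ∑ k ∈ s, ∑ l ∈ s, n2 (star (a k) * a l + star (a l) * a k) ^ 2 +
      ∑ l ∈ s, n2 (star (a x) * a l + star (a l) * a x) ^ 2 ≤
      ∑ k ∈ insert x s, ∑ l ∈ insert x s, n2 (star (a k) * a l + star (a l) * a k) ^ 2 := by
    rw [Finset.sum_insert hx]
    have h4 : ∑ l ∈ s, n2 (star (a x) * a l + star (a l) * a x) ^ 2 ≤
        ∑ l ∈ insert x s, n2 (star (a x) * a l + star (a l) * a x) ^ 2 :=
      Finset.sum_le_sum_of_subset_of_nonneg (Finset.subset_insert x s) fun _ _ _ => by positivity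
    have h5 : ∑ k ∈ s, ∑ l ∈ s, n2 (star (a k) * a l + star (a l) * a k) ^ 2 ≤
        ∑ k ∈ s, ∑ l ∈ insert x s, n2 (star (a k) * a l + star (a l) * a k) ^ 2 :=
      Finset.sum_le_sum fun k _ =>
        Finset.sum_le_sum_of_subset_of_nonneg (Finset.subset_insert x s) fun _ _ _ => by positivity
    linarith
  have h6 : ∑ l ∈ insert x s, n2 (star b * a l + star (a l) * b) ^ 2 =
      n2 (star b * a x + star (a x) * b) ^ 2 + ∑ l ∈ s, n2 (star b * a l + star (a l) * b) ^ 2 :=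
    Finset.sum_insert hx
  unfold sgPsi
  rw [h6]
  linarith

theorem sg_signs {m : ℕ} (a : Fin m → N) (Q : N → ℝ)
    (hQ : ∀ b c : N, Q (b + c) + Q (b - c) = 2 * (Q b + Q c)) {α : ℝ} (hα : 0 ≤ α)
    (s : Finset (Fin m)) : ∀ b : N, ∃ b' : N,
      Q b + ∑ l ∈ s, Q (a l) - α * sgPsi a b s ≤ Q b' - α * n2 (star b' * b') ^ 2 := by
  induction s using Finset.induction_on with
  | empty =>
      intro b
      refine ⟨b, ?_⟩
      unfold sgPsi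
      simp
  | insert x s hx ih =>
      intro b
      obtain ⟨b1, h1⟩ := ih (b + a x)
      obtain ⟨b2, h2⟩ := ih (b - a x)
      have h3 := sgPsi_step a b s hx
      have h4 := hQ b (a x)
      have h5 := mul_le_mul_of_nonneg_left h3 hα
      rw [Finset.sum_insert hx]
      by_cases h6 : Q b + (Q (a x) + ∑ l ∈ s, Q (a l)) - α * sgPsi a b (insert x s) ≤
          Q (b + a x) + ∑ l ∈ s, Q (a l) - α * sgPsi a (b + a x) s
      · exact ⟨b1, h6.trans h1⟩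
      · push Not at h6
        refine ⟨b2, le_trans ?_ h2⟩
        linarith

theorem sgPsi_zero {m : ℕ} (a : Fin m → N) {C : ℝ}
    (hB1 : ∀ y : N, ∑ l, n2 (star (a l) * y) ^ 2 ≤ C ^ 2 * n2 y ^ 2)
    (hB2 : ∀ y : N, ∑ l, n2 (a l * y) ^ 2 ≤ C ^ 2 * n2 y ^ 2) :
    sgPsi a 0 Finset.univ ≤ 5 * C ^ 4 := by
  have hC2 : 0 ≤ C ^ 2 := sq_nonneg C
  have h1 : ∑ l, n2 (a l) ^ 2 ≤ C ^ 2 := by
    have := hB2 1
    simpa [n2_one] using this
  obtain ⟨S, hS⟩ : ∃ S, S = ∑ l, star (a l) * a l := ⟨_, rfl⟩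
  have hSs : star S = S := by
    rw [hS, star_sum]
    exact Finset.sum_congr rfl fun l _ => by rw [star_mul, star_star]
  have h2 : n2 S ^ 2 ≤ ∑ l, n2 (a l) * n2 (a l * S) := by
    calc n2 S ^ 2 = (TracialVN.tr (S * S)).re := by rw [n2_sq, hSs]
      _ = ∑ l, (TracialVN.tr (star (a l) * (a l * S))).re := by
          conv_lhs => rw [show S * S = (∑ l, star (a l) * a l) * S from by rw [← hS]]
          rw [Finset.sum_mul, map_sum, Complex.re_sum]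
          exact Finset.sum_congr rfl fun l _ => by rw [mul_assoc]
      _ ≤ ∑ l, n2 (a l) * n2 (a l * S) :=
          Finset.sum_le_sum fun l _ => (Complex.re_le_norm _).trans (cs _ _)
  have h3 : (∑ l, n2 (a l) * n2 (a l * S)) ^ 2 ≤ (∑ l, n2 (a l) ^ 2) * ∑ l, n2 (a l * S) ^ 2 :=
    Finset.sum_mul_sq_le_sq_mul_sq _ _ _
  have h4 : (n2 S ^ 2) ^ 2 ≤ C ^ 2 * (C ^ 2 * n2 S ^ 2) := by
    refine (pow_le_pow_left₀ (by positivity) h2 2).trans (h3.trans ?_)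
    exact mul_le_mul h1 (hB2 S) (Finset.sum_nonneg fun _ _ => by positivity) hC2
  have h5 : n2 S ^ 2 ≤ C ^ 4 := by
    rcases (sq_nonneg (n2 S)).eq_or_lt with h0 | h0
    · rw [← h0]; positivity
    · have h6 : n2 S ^ 2 * n2 S ^ 2 ≤ n2 S ^ 2 * C ^ 4 := by nlinarith [h4]
      exact le_of_mul_le_mul_left h6 h0
  have h6 : ∑ k, ∑ l, n2 (star (a k) * a l) ^ 2 ≤ C ^ 4 := by
    rw [Finset.sum_comm]
    calc _ ≤ ∑ l, C ^ 2 * n2 (a l) ^ 2 := Finset.sum_le_sum fun l _ => hB1 _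
      _ ≤ C ^ 2 * C ^ 2 := by
          rw [← Finset.mul_sum]
          exact mul_le_mul_of_nonneg_left h1 hC2
      _ = C ^ 4 := by ring
  have h7 : ∑ k, ∑ l, n2 (star (a k) * a l + star (a l) * a k) ^ 2 ≤ 4 * C ^ 4 := by
    have h8 : ∀ k l, n2 (star (a l) * a k) = n2 (star (a k) * a l) := by
      intro k l
      rw [← n2_star, star_mul, star_star]
    calc _ ≤ ∑ k, ∑ l, 4 * n2 (star (a k) * a l) ^ 2 :=
          Finset.sum_le_sum fun k _ => Finset.sum_le_sum fun l _ => by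
            have := n2_add_sq_le (star (a k) * a l) (star (a l) * a k)
            rw [h8 k l] at this
            linarith
      _ = 4 * ∑ k, ∑ l, n2 (star (a k) * a l) ^ 2 := by simp only [Finset.mul_sum]
      _ ≤ 4 * C ^ 4 := by linarith
  unfold sgPsi
  have h8 : ∑ l, n2 (star (0 : N) * a l + star (a l) * 0) ^ 2 = 0 := by
    simp [n2_zero]
  rw [h8, star_zero, zero_mul, zero_add, ← hS]
  linarith

theorem exists_comb {m : ℕ} (a : Fin m → N) {C : ℝ} (hC : 0 < C)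
    (hB1 : ∀ y : N, ∑ l, n2 (star (a l) * y) ^ 2 ≤ C ^ 2 * n2 y ^ 2)
    (hB2 : ∀ y : N, ∑ l, n2 (a l * y) ^ 2 ≤ C ^ 2 * n2 y ^ 2)
    {e f : N} (he : ‖e‖ ≤ 1) (hf : ‖f‖ ≤ 1) {c : ℝ} (hc : 0 < c)
    (hec : c ≤ ∑ l, n2 (e * a l * f) ^ 2) {F : Finset (N × N)} {δ : ℝ} (hδ : 0 < δ)
    (hF : ∑ q ∈ F, ∑ l, n2 (q.2 * a l - a l * q.1) ^ 2 ≤ δ) :
    ∃ b : N, c / 2 ≤ n2 (e * b * f) ^ 2 ∧ n2 (star b * b) ≤ 20 * C ^ 4 / c ∧
      ∑ q ∈ F, n2 (q.2 * b - b * q.1) ^ 2 ≤ 80 * C ^ 4 * δ / c ^ 2 := by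
  obtain ⟨α, hα⟩ : ∃ α, α = c / (20 * C ^ 4) := ⟨_, rfl⟩
  obtain ⟨β, hβ⟩ : ∃ β, β = c / (4 * δ) := ⟨_, rfl⟩
  have hα0 : 0 < α := by rw [hα]; positivity
  have hβ0 : 0 < β := by rw [hβ]; positivity
  obtain ⟨Q, hQ⟩ : ∃ Q : N → ℝ, Q = fun b =>
    n2 (e * b * f) ^ 2 - β * ∑ q ∈ F, n2 (q.2 * b - b * q.1) ^ 2 := ⟨_, rfl⟩
  have hQpar : ∀ b d : N, Q (b + d) + Q (b - d) = 2 * (Q b + Q d) := by
    intro b d
    have h1 : n2 (e * (b + d) * f) ^ 2 + n2 (e * (b - d) * f) ^ 2 =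
        2 * (n2 (e * b * f) ^ 2 + n2 (e * d * f) ^ 2) := by
      rw [← sg_par]
      congr 3 <;> noncomm_ring
    have h2 : ∑ q ∈ F, n2 (q.2 * (b + d) - (b + d) * q.1) ^ 2 +
        ∑ q ∈ F, n2 (q.2 * (b - d) - (b - d) * q.1) ^ 2 =
        2 * (∑ q ∈ F, n2 (q.2 * b - b * q.1) ^ 2 + ∑ q ∈ F, n2 (q.2 * d - d * q.1) ^ 2) := by
      rw [← Finset.sum_add_distrib, ← Finset.sum_add_distrib, Finset.mul_sum]
      refine Finset.sum_congr rfl fun q _ => ?_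
      rw [← sg_par]
      congr 3 <;> noncomm_ring
    simp only [hQ]
    linear_combination h1 - β * h2
  have hQ0 : Q 0 = 0 := by
    simp [hQ, n2_zero]
  have hQs : 3 * c / 4 ≤ ∑ l, Q (a l) := by
    have h1 : ∑ l, Q (a l) = ∑ l, n2 (e * a l * f) ^ 2 -
        β * ∑ q ∈ F, ∑ l, n2 (q.2 * a l - a l * q.1) ^ 2 := by
      simp only [hQ]
      rw [Finset.sum_sub_distrib, ← Finset.mul_sum, Finset.sum_comm]
    have h2 : β * ∑ q ∈ F, ∑ l, n2 (q.2 * a l - a l * q.1) ^ 2 ≤ β * δ :=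
      mul_le_mul_of_nonneg_left hF hβ0.le
    have h3 : β * δ = c / 4 := by rw [hβ]; field_simp
    rw [h1]
    linarith
  have hPsi : α * sgPsi a 0 Finset.univ ≤ c / 4 := by
    have h1 := mul_le_mul_of_nonneg_left (sgPsi_zero a hB1 hB2) hα0.le
    have h2 : α * (5 * C ^ 4) = c / 4 := by rw [hα]; field_simp; norm_num
    linarith
  obtain ⟨b, hb⟩ := sg_signs a Q hQpar hα0.le Finset.univ 0
  rw [hQ0] at hb
  have hb' : c / 2 ≤ Q b - α * n2 (star b * b) ^ 2 := by linarith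
  simp only [hQ] at hb'
  have hV0 := n2_nonneg (star b * b)
  have hSg0 : 0 ≤ ∑ q ∈ F, n2 (q.2 * b - b * q.1) ^ 2 :=
    Finset.sum_nonneg fun _ _ => by positivity
  have hbSg : 0 ≤ β * ∑ q ∈ F, n2 (q.2 * b - b * q.1) ^ 2 := mul_nonneg hβ0.le hSg0
  have hαV : 0 ≤ α * n2 (star b * b) ^ 2 := by positivity
  have hbV : n2 (e * b * f) ^ 2 ≤ n2 (star b * b) := by
    have h1 : n2 (e * b * f) ≤ n2 b := by
      calc n2 (e * b * f) ≤ n2 (e * b) * ‖f‖ := n2_mul_le_right _ _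
        _ ≤ n2 (e * b) * 1 := mul_le_mul_of_nonneg_left hf (n2_nonneg _)
        _ = n2 (e * b) := mul_one _
        _ ≤ ‖e‖ * n2 b := n2_mul_le_left _ _
        _ ≤ 1 * n2 b := mul_le_mul_of_nonneg_right he (n2_nonneg _)
        _ = n2 b := one_mul _
    calc n2 (e * b * f) ^ 2 ≤ n2 b ^ 2 := pow_le_pow_left₀ (n2_nonneg _) h1 2
      _ = (TracialVN.tr (star b * b)).re := n2_sq b
      _ ≤ ‖TracialVN.tr (star b * b)‖ := Complex.re_le_norm _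
      _ ≤ n2 (star b * b) := norm_tr_le_n2 _
  have hV : n2 (star b * b) ≤ 20 * C ^ 4 / c := by
    have h1 : α * n2 (star b * b) ^ 2 ≤ n2 (star b * b) := by linarith
    have h2 : 20 * C ^ 4 / c = 1 / α := by rw [hα]; field_simp
    rw [h2, le_div_iff₀ hα0]
    rcases hV0.eq_or_lt with h3 | h3
    · rw [← h3]; linarith
    · have h4 : n2 (star b * b) * (n2 (star b * b) * α) ≤ n2 (star b * b) * 1 := by nlinarith
      exact le_of_mul_le_mul_left h4 h3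
  refine ⟨b, by linarith, hV, ?_⟩
  have h1 : β * ∑ q ∈ F, n2 (q.2 * b - b * q.1) ^ 2 ≤ 20 * C ^ 4 / c := by linarith
  have h2 : 80 * C ^ 4 * δ / c ^ 2 = (20 * C ^ 4 / c) / β := by rw [hβ]; field_simp; norm_num
  rw [h2, le_div_iff₀ hβ0]
  linarith

end Pool.Agent.H28.JT
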