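import Pool.Agent.H28.JT.Both
import Pool.Agent.H28.JT.Sgn
import Pool.Agent.H28.JT.Res

set_option autoImplicit false

/-!
# JT: localisation of intertwiners
-/

universe u

open Filter Topology H80VN

namespace Pool.Agent.H28.JT

variable {M N P : Type u} [CStarAlgebra M] [TracialVN M] [CStarAlgebra N] [TracialVN N]
  [CStarAlgebra P] [TracialVN P] {i : N →⋆ₐ[ℂ] M} {j : P →⋆ₐ[ℂ] M}

theorem localise (hP : IsFactor P) (h : Ten i j) {C : ℝ} (hC : 0 < C) {c : ℝ} (hc : 0 < c) :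
    ∃ R κ L : ℝ, 0 < R ∧ 0 < κ ∧ 0 < L ∧ ∀ (s : M) (e f : N) (G : Finset (N × N)) (δ : ℝ), 0 < δ →
      ‖s‖ ≤ C → ‖e‖ ≤ 1 → ‖f‖ ≤ 1 → c ≤ n2 (i e * s * i f) →
      (∀ q ∈ G, (star q.1, star q.2) ∈ G) → ∑ q ∈ G, n2 (i q.2 * s - s * i q.1) ^ 2 ≤ δ →
      ∃ b : N, ‖b‖ ≤ R ∧ κ ≤ n2 (e * b * f) ∧ ∀ q ∈ G, n2 (q.2 * b - b * q.1) ≤ L * √δ := by
  set c1 : ℝ := c ^ 2 / 4 with hc1
  have hc1p : 0 < c1 := by positivity
  set V : ℝ := 20 * C ^ 4 / c1 with hV
  have hVp : 0 < V := by positivity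
  set t : ℝ := 8 * V ^ 2 / c1 with ht
  have htp : 0 < t := by positivity
  set L : ℝ := 3 * √(80 * C ^ 4 / c1 ^ 2) with hL
  refine ⟨√t, √(c1 / 8), L, Real.sqrt_pos.2 htp, Real.sqrt_pos.2 (by positivity), by positivity,
    fun s e f G δ hδ hs he hf hcs hG hsum => ?_⟩
  choose E hE using fun z => exists_cond hP h z
  have hE' : IsE i E := hE
  obtain ⟨m, r, hr, hζ⟩ := expand h hE' s (ζ := c / 2) (by positivity)
  set a : Fin m → N := fun l => E (s * j (star (r l))) with ha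
  set w : M := ∑ l, i (a l) * j (r l) with hw
  -- Bessel
  have hB1 : ∀ y : N, ∑ l, n2 (star (a l) * y) ^ 2 ≤ C ^ 2 * n2 y ^ 2 := by
    intro y
    have h1 := bessel h hE' hr.star' (star s * i y)
    have h2 : ∀ l, star (a l) * y = E (star s * i y * j (star (star (r l)))) := by
      intro l
      rw [ha]
      simp only
      rw [← hE'.star', star_mul, ← map_star j, star_star, ← hE'.right, mul_assoc, hE'.swap h]
    simp only [h2]
    refine h1.trans ?_
    have h3 : n2 (star s * i y) ≤ C * n2 y := by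
      refine (n2_mul_le_left _ _).trans ?_
      rw [norm_star, h.n2_i]
      exact mul_le_mul_of_nonneg_right hs (n2_nonneg _)
    rw [← mul_pow]
    exact pow_le_pow_left₀ (n2_nonneg _) h3 2
  have hB2 : ∀ y : N, ∑ l, n2 (a l * y) ^ 2 ≤ C ^ 2 * n2 y ^ 2 := by
    intro y
    have h1 := bessel h hE' hr (s * i y)
    have h2 : ∀ l, a l * y = E (s * i y * j (star (r l))) := by
      intro l
      rw [ha]
      simp only
      rw [← hE'.right, mul_assoc, mul_assoc, h.comm]
    simp only [h2]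
    refine h1.trans ?_
    have h3 : n2 (s * i y) ≤ C * n2 y := by
      refine (n2_mul_le_left _ _).trans ?_
      rw [h.n2_i]
      exact mul_le_mul_of_nonneg_right hs (n2_nonneg _)
    rw [← mul_pow]
    exact pow_le_pow_left₀ (n2_nonneg _) h3 2
  have hI : ∀ x y : N, ∑ l, n2 (y * a l - a l * x) ^ 2 ≤ n2 (i y * s - s * i x) ^ 2 := by
    intro x y
    have h1 := bessel h hE' hr (i y * s - s * i x)
    refine le_trans (le_of_eq ?_) h1
    refine Finset.sum_congr rfl fun l _ => ?_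
    have h2 : (i y * s - s * i x) * j (star (r l)) =
        i y * (s * j (star (r l))) - s * j (star (r l)) * i x := by
      rw [sub_mul, mul_assoc, mul_assoc, h.comm, ← mul_assoc s]
    rw [h2, hE'.sub, hE'.left, hE'.right]
  -- the coefficients of `e s f`
  have hie : ‖i e‖ ≤ 1 := by rw [norm_map' i h.tr_i]; exact he
  have hif : ‖i f‖ ≤ 1 := by rw [norm_map' i h.tr_i]; exact hf
  have hec : c1 ≤ ∑ l, n2 (e * a l * f) ^ 2 := by
    have h1 := n2_sum_sq h hr fun l => e * a l * f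
    have h2 : ∑ l, i (e * a l * f) * j (r l) = i e * w * i f := by
      rw [hw, Finset.mul_sum, Finset.sum_mul]
      refine Finset.sum_congr rfl fun l _ => ?_
      rw [map_mul i, map_mul i, mul_assoc (i e * i (a l)), h.comm]
      simp only [mul_assoc]
    rw [h2] at h1
    rw [← h1, hc1]
    have h3 : c / 2 ≤ n2 (i e * w * i f) := by
      have h4 : i e * s * i f = i e * w * i f + i e * (s - w) * i f := by noncomm_ring
      have h5 := n2_add_le (i e * w * i f) (i e * (s - w) * i f)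
      rw [← h4] at h5
      have h6 : n2 (i e * (s - w) * i f) ≤ c / 2 :=
        (n2_mul_le_of_norm_le_one_right _ hif).trans
          ((n2_mul_le_of_norm_le_one_left hie _).trans hζ)
      linarith
    calc c ^ 2 / 4 = (c / 2) ^ 2 := by ring
      _ ≤ n2 (i e * w * i f) ^ 2 := pow_le_pow_left₀ (by positivity) h3 2
  have hF : ∑ q ∈ G, ∑ l, n2 (q.2 * a l - a l * q.1) ^ 2 ≤ δ :=
    (Finset.sum_le_sum fun q _ => hI q.1 q.2).trans hsum
  obtain ⟨b, hb1, hb2, hb3⟩ := exists_comb a hC hB1 hB2 he hf hc1p hec hδ hF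
  obtain ⟨b', hb'1, hb'2, hb'3⟩ := exists_trunc b htp
  refine ⟨b', hb'1, ?_, fun q hq => ?_⟩
  · have h1 : n2 (b - b') ≤ √(c1 / 8) := by
      refine Real.le_sqrt_of_sq_le (hb'2.trans ?_)
      have h2 : n2 (star b * b) ^ 2 ≤ V ^ 2 := pow_le_pow_left₀ (n2_nonneg _) hb2 2
      rw [div_le_iff₀ htp, ht]
      calc n2 (star b * b) ^ 2 ≤ V ^ 2 := h2
        _ = c1 / 8 * (8 * V ^ 2 / c1) := by field_simp
    have h2 : 2 * √(c1 / 8) ≤ n2 (e * b * f) := by
      have h3 : (2 * √(c1 / 8)) ^ 2 ≤ n2 (e * b * f) ^ 2 := by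
        rw [mul_pow, Real.sq_sqrt (by positivity)]
        linarith
      exact (sq_le_sq₀ (by positivity) (n2_nonneg _)).1 h3
    have h3 : e * b * f = e * b' * f + e * (b - b') * f := by noncomm_ring
    have h4 := n2_add_le (e * b' * f) (e * (b - b') * f)
    rw [← h3] at h4
    have h5 : n2 (e * (b - b') * f) ≤ √(c1 / 8) :=
      (n2_mul_le_of_norm_le_one_right _ hf).trans
        ((n2_mul_le_of_norm_le_one_left he _).trans h1)
    linarith
  · have h1 : ∀ q ∈ G, n2 (q.2 * b - b * q.1) ≤ √(80 * C ^ 4 / c1 ^ 2) * √δ := by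
      intro q hq
      rw [← Real.sqrt_mul (by positivity)]
      refine Real.le_sqrt_of_sq_le ?_
      have h2 : n2 (q.2 * b - b * q.1) ^ 2 ≤ ∑ q ∈ G, n2 (q.2 * b - b * q.1) ^ 2 :=
        Finset.single_le_sum (f := fun q : N × N => n2 (q.2 * b - b * q.1) ^ 2)
          (fun _ _ => by positivity) hq
      refine h2.trans (hb3.trans (le_of_eq ?_))
      ring
    have h2 := hb'3 q.1 q.2
    have h3 := h1 q hq
    have h4 := h1 _ (hG q hq)
    simp only at h4
    have h5 : L * √δ = 3 * (√(80 * C ^ 4 / c1 ^ 2) * √δ) := by rw [hL]; ring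
    rw [h5]
    linarith

end Pool.Agent.H28.JT
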