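import Pool.Agent.H28.JT.IU

set_option autoImplicit false

/-!
# JT: diagonal sequences of intertwiners
-/

universe u

open Filter Topology H80VN Pool.Agent.H68.Amp Pool.Agent.H28.JP

namespace Pool.Agent.H28.JT

variable {A N : Type u} [CStarAlgebra A] [CStarAlgebra N] {α : A →ₗ[ℂ] ℂ} {ρ : N →ₗ[ℂ] ℂ}

/-- The 2-norm of a lift of `π x`. -/
theorem tendsto_lift (hN : Stmt.IsTracialVN ρ) (ω : Filter ℕ) (π : A →⋆ₐ[ℂ] UPow hN ω)
    (hπ : Pres hN ω α π) (x : A) (s : LInf N) (hs : UPow.mk hN ω s = π x) :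
    Tendsto (fun k => Stmt.norm2 ρ (s.seq k)) ω (𝓝 (Stmt.norm2 α x)) := by
  have h1 := hπ (star x * x) (star s * s) (by
    rw [map_mul (UPow.mk hN ω), ← UPow.star_mk, hs, map_mul π, map_star])
  have h2 := ((Complex.continuous_re.tendsto _).comp h1).sqrt
  exact h2

theorem saturate (hN : Stmt.IsTracialVN ρ) (hsep : Stmt.Separable α) (ω : Filter ℕ)
    (hω : ω ≤ atTop) (π ψ : A →⋆ₐ[ℂ] UPow hN ω) (hπ : Pres hN ω α π) (hψ : Pres hN ω α ψ)
    (p q : A → LInf N) (hp : ∀ x, UPow.mk hN ω (p x) = π x) (hq : ∀ x, UPow.mk hN ω (q x) = ψ x)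
    {R : ℝ} (hR : 0 ≤ R) (G : ℕ → N → ℝ) (μ : ℝ)
    (h : ∀ (F : Finset A) (ε : ℝ), 0 < ε → ∀ᶠ k in ω, ∃ v : N, ‖v‖ ≤ R ∧
      (∀ x ∈ F, Stmt.norm2 ρ ((p x).seq k * v - v * (q x).seq k) ≤ ε) ∧ μ - ε ≤ G k v) :
    ∃ v : LInf N, (∀ k, ‖v.seq k‖ ≤ R) ∧
      (∀ x, π x * UPow.mk hN ω v = UPow.mk hN ω v * ψ x) ∧
      ∀ ε : ℝ, 0 < ε → ∀ᶠ k in ω, μ - ε ≤ G k (v.seq k) := by
  classical
  let _ : TracialVN N := toTracialVN hN
  obtain ⟨D, hD, hdense⟩ := hsep
  have hDne : D.Nonempty := by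
    obtain ⟨d, hd, _⟩ := hdense 0 1 one_pos
    exact ⟨d, hd⟩
  obtain ⟨d, hd⟩ := hD.exists_eq_range hDne
  set Q : ℕ → ℕ → Prop := fun m k => ∃ v : N, ‖v‖ ≤ R ∧
    (∀ x ∈ (Finset.range m).image d, n2 ((p x).seq k * v - v * (q x).seq k) ≤
      1 / ((m : ℝ) + 1)) ∧ μ - 1 / ((m : ℝ) + 1) ≤ G k v with hQ
  have hQev : ∀ m, ∀ᶠ k in ω, Q m k := fun m =>
    h ((Finset.range m).image d) (1 / ((m : ℝ) + 1)) (by positivity)
  set M' : ℕ → ℕ := fun k => Nat.findGreatest (fun m => Q m k) k with hM'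
  have hM1 : ∀ m, ∀ᶠ k in ω, m ≤ M' k ∧ Q (M' k) k := by
    intro m
    have h1 : ∀ᶠ k in ω, m ≤ k := hω (eventually_ge_atTop m)
    filter_upwards [h1, hQev m] with k hk1 hk2
    exact ⟨Nat.le_findGreatest hk1 hk2, Nat.findGreatest_spec (P := fun m => Q m k) hk1 hk2⟩
  set v : ℕ → N := fun k => if h : Q (M' k) k then h.choose else 0 with hv
  have hvQ : ∀ k, Q (M' k) k → ‖v k‖ ≤ R ∧
      (∀ x ∈ (Finset.range (M' k)).image d, n2 ((p x).seq k * v k - v k * (q x).seq k) ≤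
        1 / ((M' k : ℝ) + 1)) ∧ μ - 1 / ((M' k : ℝ) + 1) ≤ G k (v k) := by
    intro k hk
    have h1 : v k = hk.choose := dif_pos hk
    rw [h1]
    exact hk.choose_spec
  have hvn : ∀ k, ‖v k‖ ≤ R := by
    intro k
    by_cases hk : Q (M' k) k
    · exact (hvQ k hk).1
    · have h1 : v k = 0 := dif_neg hk
      rw [h1, norm_zero]
      exact hR
  have herr : Tendsto (fun k => 1 / ((M' k : ℝ) + 1)) ω (𝓝 0) := by
    have h1 : Tendsto M' ω atTop := by
      rw [tendsto_atTop]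
      intro m
      filter_upwards [hM1 m] with k hk
      exact hk.1
    exact tendsto_one_div_add_atTop_nhds_zero_nat.comp h1
  obtain ⟨vs, hvs⟩ : ∃ vs : LInf N, ∀ k, vs.seq k = v k := ⟨⟨v, R, hvn⟩, fun _ => rfl⟩
  refine ⟨vs, fun k => by rw [hvs]; exact hvn k, fun x => ?_, fun ε hε => ?_⟩
  · -- on the dense set
    have hd0 : ∀ l, Tendsto (fun k => n2 ((p (d l)).seq k * v k - v k * (q (d l)).seq k)) ω
        (𝓝 0) := by
      intro l
      refine squeeze_zero' (Eventually.of_forall fun k => n2_nonneg _) ?_ herr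
      filter_upwards [hM1 (l + 1)] with k hk
      exact (hvQ k hk.2).2.1 (d l) (Finset.mem_image_of_mem _ (Finset.mem_range.2
        (lt_of_lt_of_le (Nat.lt_succ_self l) hk.1)))
    rw [← hp x, ← hq x, ← map_mul, ← map_mul, UPow.mk_eq]
    suffices e0 : Tendsto (fun k => n2 ((p x).seq k * v k - v k * (q x).seq k)) ω (𝓝 0) by
      refine e0.congr fun k => ?_
      rw [← hvs]
      rfl
    rw [Metric.tendsto_nhds]
    intro ε hε
    obtain ⟨e, he, hxe⟩ := hdense x (ε / (4 * (R + 1))) (by positivity)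
    rw [hd] at he
    obtain ⟨l, rfl⟩ := he
    have h1 := tendsto_lift hN ω π hπ (x - d l) (p x - p (d l)) (by
      rw [map_sub (UPow.mk hN ω), hp, hp, map_sub])
    have h1' := tendsto_lift hN ω ψ hψ (x - d l) (q x - q (d l)) (by
      rw [map_sub (UPow.mk hN ω), hq, hq, map_sub])
    have h2 : ∀ᶠ k in ω, n2 ((p x - p (d l)).seq k) < ε / (4 * (R + 1)) :=
      h1.eventually (gt_mem_nhds hxe)
    have h2' : ∀ᶠ k in ω, n2 ((q x - q (d l)).seq k) < ε / (4 * (R + 1)) :=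
      h1'.eventually (gt_mem_nhds hxe)
    have h3 : ∀ᶠ k in ω, n2 ((p (d l)).seq k * v k - v k * (q (d l)).seq k) < ε / 4 :=
      (hd0 l).eventually (gt_mem_nhds (by positivity))
    filter_upwards [h2, h2', h3] with k hk2 hk2' hk3
    rw [Real.dist_eq, sub_zero, abs_of_nonneg (n2_nonneg _)]
    have e1 : (p x).seq k * v k - v k * (q x).seq k = (p x - p (d l)).seq k * v k +
        ((p (d l)).seq k * v k - v k * (q (d l)).seq k) - v k * (q x - q (d l)).seq k := by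
      rw [seq_sub, seq_sub]; noncomm_ring
    rw [e1]
    have e2 := n2_sub_le ((p x - p (d l)).seq k * v k +
        ((p (d l)).seq k * v k - v k * (q (d l)).seq k)) (v k * (q x - q (d l)).seq k)
    have e3 := n2_add_le ((p x - p (d l)).seq k * v k)
      ((p (d l)).seq k * v k - v k * (q (d l)).seq k)
    have e4 : n2 ((p x - p (d l)).seq k * v k) ≤ ε / (4 * (R + 1)) * R :=
      (n2_mul_le_right _ _).trans (mul_le_mul hk2.le (hvn k) (norm_nonneg _) (by positivity))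
    have e5 : n2 (v k * (q x - q (d l)).seq k) ≤ R * (ε / (4 * (R + 1))) :=
      (n2_mul_le_left _ _).trans (mul_le_mul (hvn k) hk2'.le (n2_nonneg _) hR)
    have e6 : (R + 1) * (ε / (4 * (R + 1))) = ε / 4 := by field_simp
    have e7 : 0 < ε / (4 * (R + 1)) := by positivity
    nlinarith
  · have h1 : ∀ᶠ k in ω, 1 / ((M' k : ℝ) + 1) < ε := herr.eventually (gt_mem_nhds hε)
    filter_upwards [h1, hM1 0] with k hk1 hk2
    have h2 := (hvQ k hk2.2).2.2
    rw [hvs]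
    linarith

end Pool.Agent.H28.JT
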