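import Pool.Agent.H28.JT.Desc

set_option autoImplicit false

/-!
# JT: the Jung property passes to tensor factors
-/

universe u

open Filter Topology H80VN Pool.Agent.H68.Amp Pool.Agent.H28.JP

namespace Pool.Agent.H28.JT

variable {M N P : Type u} [CStarAlgebra M] [CStarAlgebra N] [CStarAlgebra P]
  {τ : M →ₗ[ℂ] ℂ} {ρ : N →ₗ[ℂ] ℂ} {σ : P →ₗ[ℂ] ℂ}

/-- The induced map exists. -/
theorem exists_induced (hM : Stmt.IsTracialVN τ) (hN : Stmt.IsTracialVN ρ)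
    (hP : Stmt.IsTracialVN σ) {i : N →⋆ₐ[ℂ] M} {j : P →⋆ₐ[ℂ] M} (hij : TensorVia τ ρ σ i j)
    (ω : Filter ℕ) : ∃ I, IsInduced hM hN ω i I := by
  let _ : TracialVN M := toTracialVN hM
  let _ : TracialVN N := toTracialVN hN
  let _ : TracialVN P := toTracialVN hP
  exact exists_iU hM hN ω i
    (Ten.tr_i (i := i) (j := j) ⟨hij.comm, hij.trace, hij.dense⟩)

/-- The separable case. -/
theorem jung_sep (hM : Stmt.IsII1Factor τ) (hN : Stmt.IsII1Factor ρ) (hP : Stmt.IsTracialVN σ)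
    {i : N →⋆ₐ[ℂ] M} {j : P →⋆ₐ[ℂ] M} (hij : TensorVia τ ρ σ i j) (hsep : Stmt.Separable ρ)
    (ω : Ultrafilter ℕ) (hω : (ω : Filter ℕ) ≤ cofinite)
    (hJ : JungProperty (vn hM) (ω : Filter ℕ)) : JungProperty (vn hN) (ω : Filter ℕ) := by
  intro p q hp hq
  have hω' : (ω : Filter ℕ) ≤ atTop := hω.trans Nat.cofinite_eq_atTop.le
  have hi : ∀ x, τ (i x) = ρ x := by
    let _ : TracialVN M := toTracialVN (vn hM)
    let _ : TracialVN N := toTracialVN (vn hN)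
    let _ : TracialVN P := toTracialVN hP
    exact Ten.tr_i (i := i) (j := j) ⟨hij.comm, hij.trace, hij.dense⟩
  obtain ⟨I, hI⟩ := exists_iU (vn hM) (vn hN) (ω : Filter ℕ) i hi
  obtain ⟨φ, hφ, -⟩ := exists_ext hM hN i j hij.comm hij.trace hij.dense ω hω' I hI p
  obtain ⟨ψ, hψ, -⟩ := exists_ext hM hN i j hij.comm hij.trace hij.dense ω hω' I hI q
  obtain ⟨u, hu, hux⟩ := hJ φ ψ (tracePres hM ω _) (tracePres hM ω _)
  refine conj_descends hM (vn hN) hP hij ω hω I hI N ρ hsep p q hp hq ⟨u, hu, fun x => ?_⟩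
  have h1 := hux (i x)
  rw [hφ, hψ] at h1
  exact h1

theorem jung_factor (hM : Stmt.IsII1Factor τ) (hN : Stmt.IsII1Factor ρ) (hP : Stmt.IsTracialVN σ)
    {i : N →⋆ₐ[ℂ] M} {j : P →⋆ₐ[ℂ] M} (hij : TensorVia τ ρ σ i j)
    (ω : Ultrafilter ℕ) (hω : (ω : Filter ℕ) ≤ cofinite)
    (hJ : JungProperty (vn hM) (ω : Filter ℕ)) (hS : Stmt.Separable ρ ∨ ¬ Stmt.Gamma ρ) :
    JungProperty (vn hN) (ω : Filter ℕ) := by
  rcases hS with hS | hS
  · exact jung_sep hM hN hP hij hS ω hω hJ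
  · exact tensor_factor hM hN hP ⟨i, j, hij.comm, hij.trace, hij.dense⟩ hS ω hω hJ

end Pool.Agent.H28.JT
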