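import Pool.Agent.H28.JT.Loc
import Pool.Agent.H28.JT.Sat

set_option autoImplicit false

/-!
# JT: from intertwiners in the ultrapower of `N ⊗ P` to intertwiners in the ultrapower of `N`
-/

universe u

open Filter Topology H80VN Pool.Agent.H68.Amp Pool.Agent.H28.JP

namespace Pool.Agent.H28.JT

variable {A M N P : Type u} [CStarAlgebra A] [CStarAlgebra M] [CStarAlgebra N] [CStarAlgebra P]
  {α : A →ₗ[ℂ] ℂ} {τ : M →ₗ[ℂ] ℂ} {ρ : N →ₗ[ℂ] ℂ} {σ : P →ₗ[ℂ] ℂ}

theorem transfer (hM : Stmt.IsTracialVN τ) (hN : Stmt.IsTracialVN ρ) (hP : Stmt.IsTracialVN σ)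
    (hPf : IsFactor P) {i : N →⋆ₐ[ℂ] M} {j : P →⋆ₐ[ℂ] M} (hij : TensorVia τ ρ σ i j)
    (hsep : Stmt.Separable α) (ω : Ultrafilter ℕ) (hω : (ω : Filter ℕ) ≤ atTop)
    (π ψ : A →⋆ₐ[ℂ] UPow hN (ω : Filter ℕ)) (hπ : Pres hN (ω : Filter ℕ) α π)
    (hψ : Pres hN (ω : Filter ℕ) α ψ)
    (I : UPow hN (ω : Filter ℕ) →⋆ₐ[ℂ] UPow hM (ω : Filter ℕ))
    (hI : IsInduced hM hN (ω : Filter ℕ) i I)
    (w : UPow hM (ω : Filter ℕ)) (hw : ∀ x, I (π x) * w = w * I (ψ x))
    (e f : LInf N) (he : ∀ k, ‖e.seq k‖ ≤ 1) (hf : ∀ k, ‖f.seq k‖ ≤ 1)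
    (hne : I (UPow.mk hN (ω : Filter ℕ) e) * w * I (UPow.mk hN (ω : Filter ℕ) f) ≠ 0) :
    ∃ (v : LInf N) (R : ℝ), 0 < R ∧ (∀ k, ‖v.seq k‖ ≤ R) ∧
      (∀ x, π x * UPow.mk hN (ω : Filter ℕ) v = UPow.mk hN (ω : Filter ℕ) v * ψ x) ∧
      UPow.mk hN (ω : Filter ℕ) e * UPow.mk hN (ω : Filter ℕ) v * UPow.mk hN (ω : Filter ℕ) f ≠ 0 := by
  classical
  let _ : TracialVN M := toTracialVN hM
  let _ : TracialVN N := toTracialVN hN
  let _ : TracialVN P := toTracialVN hP
  have hTen : Ten i j := ⟨hij.comm, hij.trace, hij.dense⟩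
  choose p hp using fun x => UPow.mk_surjective hN (ω : Filter ℕ) (π x)
  choose p' hp' using fun x => UPow.mk_surjective hN (ω : Filter ℕ) (ψ x)
  obtain ⟨s, rfl⟩ := UPow.mk_surjective hM (ω : Filter ℕ) w
  obtain ⟨C', hC'⟩ := s.2
  set C : ℝ := max C' 1 with hCdef
  have hC1 : 0 < C := lt_of_lt_of_le one_pos (le_max_right _ _)
  have hsC : ∀ k, ‖s.seq k‖ ≤ C := fun k => (hC' k).trans (le_max_left _ _)
  -- intertwining
  have hint : ∀ (x : A) (q q' : LInf N), UPow.mk hN (ω : Filter ℕ) q = π x →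
      UPow.mk hN (ω : Filter ℕ) q' = ψ x →
      Tendsto (fun k => n2 (i (q.seq k) * s.seq k - s.seq k * i (q'.seq k))) (ω : Filter ℕ)
        (𝓝 0) := by
    intro x q q' hq hq'
    have h1 := hw x
    rw [← hq, ← hq', hI, hI, ← map_mul, ← map_mul, UPow.mk_eq] at h1
    exact h1
  -- the lower bound
  obtain ⟨c, hc, hcev⟩ : ∃ c : ℝ, 0 < c ∧ ∀ᶠ k in (ω : Filter ℕ),
      c ≤ n2 (i (e.seq k) * s.seq k * i (f.seq k)) := by
    by_contra hcon
    push Not at hcon
    apply hne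
    rw [hI, hI, ← map_mul, ← map_mul, ← map_zero (UPow.mk hM (ω : Filter ℕ)), UPow.mk_eq]
    have h1 : Tendsto (fun k => n2 (i (e.seq k) * s.seq k * i (f.seq k))) (ω : Filter ℕ) (𝓝 0) := by
      rw [Metric.tendsto_nhds]
      intro ε hε
      have h2 := hcon ε hε
      filter_upwards [h2] with k hk
      rw [Real.dist_eq, sub_zero, abs_of_nonneg (n2_nonneg _)]
      exact hk
    refine h1.congr fun k => ?_
    show n2 (i (e.seq k) * s.seq k * i (f.seq k)) =
      n2 (i (e.seq k) * s.seq k * i (f.seq k) - 0)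
    rw [sub_zero]
  obtain ⟨R, κ, L, hR, hκ, hL, hloc⟩ := localise hPf hTen hC1 hc
  obtain ⟨v, hv1, hv2, hv3⟩ := saturate hN hsep (ω : Filter ℕ) hω π ψ hπ hψ p p' hp hp' hR.le
    (fun k v => n2 (e.seq k * v * f.seq k)) κ (by
      intro F ε hε
      set δ : ℝ := (ε / L) ^ 2 with hδ
      have hδp : 0 < δ := by positivity
      have hLδ : L * √δ = ε := by
        rw [hδ, Real.sqrt_sq (by positivity)]
        field_simp
      set η : ℝ := δ / (2 * F.card + 1) with hη
      have hηp : 0 < η := by positivity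
      have h1 : ∀ᶠ k in (ω : Filter ℕ), ∀ x ∈ F,
          n2 (i ((p x).seq k) * s.seq k - s.seq k * i ((p' x).seq k)) ≤ √η ∧
          n2 (i (star ((p x).seq k)) * s.seq k - s.seq k * i (star ((p' x).seq k))) ≤ √η := by
        rw [Filter.eventually_all_finset]
        intro x _
        refine Filter.Eventually.and
          ((hint x (p x) (p' x) (hp x) (hp' x)).eventually (Iic_mem_nhds (Real.sqrt_pos.2 hηp))) ?_
        have h3 := hint (star x) (star (p x)) (star (p' x)) (by rw [← UPow.star_mk, hp, map_star])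
          (by rw [← UPow.star_mk, hp', map_star])
        exact h3.eventually (Iic_mem_nhds (Real.sqrt_pos.2 hηp))
      filter_upwards [h1, hcev] with k hk1 hk2
      set G : Finset (N × N) := F.image (fun x => ((p' x).seq k, (p x).seq k)) ∪
        F.image (fun x => (star ((p' x).seq k), star ((p x).seq k))) with hG
      have hGs : ∀ q ∈ G, (star q.1, star q.2) ∈ G := by
        intro q hq
        rw [hG, Finset.mem_union, Finset.mem_image, Finset.mem_image] at hq
        rw [hG, Finset.mem_union, Finset.mem_image, Finset.mem_image]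
        rcases hq with ⟨x, hx, rfl⟩ | ⟨x, hx, rfl⟩
        · exact Or.inr ⟨x, hx, rfl⟩
        · refine Or.inl ⟨x, hx, ?_⟩
          simp only [star_star]
      have hGb : ∀ q ∈ G, n2 (i q.2 * s.seq k - s.seq k * i q.1) ^ 2 ≤ η := by
        intro q hq
        have h2 : n2 (i q.2 * s.seq k - s.seq k * i q.1) ≤ √η := by
          rw [hG, Finset.mem_union, Finset.mem_image, Finset.mem_image] at hq
          rcases hq with ⟨x, hx, rfl⟩ | ⟨x, hx, rfl⟩
          · exact (hk1 x hx).1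
          · exact (hk1 x hx).2
        calc n2 (i q.2 * s.seq k - s.seq k * i q.1) ^ 2 ≤ √η ^ 2 :=
              pow_le_pow_left₀ (n2_nonneg _) h2 2
          _ = η := Real.sq_sqrt hηp.le
      have hGc : (G.card : ℝ) ≤ 2 * F.card := by
        have h2 : G.card ≤ F.card + F.card :=
          (Finset.card_union_le _ _).trans (add_le_add Finset.card_image_le Finset.card_image_le)
        have h3 : (G.card : ℝ) ≤ ((F.card + F.card : ℕ) : ℝ) := by exact_mod_cast h2
        push_cast at h3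
        linarith
      have hGsum : ∑ q ∈ G, n2 (i q.2 * s.seq k - s.seq k * i q.1) ^ 2 ≤ δ := by
        refine (Finset.sum_le_card_nsmul G _ η hGb).trans ?_
        rw [nsmul_eq_mul]
        have h2 : (G.card : ℝ) * η ≤ (2 * F.card + 1) * η :=
          mul_le_mul_of_nonneg_right (by linarith) hηp.le
        refine h2.trans (le_of_eq ?_)
        rw [hη]
        field_simp
      obtain ⟨b, hb1, hb2, hb3⟩ := hloc (s.seq k) (e.seq k) (f.seq k) G δ hδp (hsC k) (he k) (hf k)
        hk2 hGs hGsum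
      refine ⟨b, hb1, fun x hx => ?_, ?_⟩
      · have h2 := hb3 ((p' x).seq k, (p x).seq k) (by
          rw [hG, Finset.mem_union]
          exact Or.inl (Finset.mem_image_of_mem _ hx))
        rw [hLδ] at h2
        exact h2
      · show κ - ε ≤ n2 (e.seq k * b * f.seq k)
        linarith)
  refine ⟨v, R, hR, hv1, hv2, fun h0 => ?_⟩
  rw [← map_mul, ← map_mul, ← map_zero (UPow.mk hN (ω : Filter ℕ)), UPow.mk_eq] at h0
  have h1 : Tendsto (fun k => n2 (e.seq k * v.seq k * f.seq k)) (ω : Filter ℕ) (𝓝 0) := by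
    refine h0.congr fun k => ?_
    show n2 (e.seq k * v.seq k * f.seq k - 0) = n2 (e.seq k * v.seq k * f.seq k)
    rw [sub_zero]
  have h2 : ∀ᶠ k in (ω : Filter ℕ), n2 (e.seq k * v.seq k * f.seq k) < κ / 2 :=
    h1.eventually (gt_mem_nhds (by positivity))
  obtain ⟨k, hk1, hk2⟩ := (h2.and (hv3 (κ / 2) (by positivity))).exists
  linarith

end Pool.Agent.H28.JT
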